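import Pool.Agent.J4.H73.EX.Res
set_option autoImplicit false

/-! Power moduli and sets. -/

namespace Pool.Agent.J4.H73.EX

open MeasureTheory Complex Set Filter Topology
open scoped ENNReal NNReal RealInnerProductSpace ComplexConjugate

theorem geo (a s : ℝ) (h : a < s) (A : ℝ≥0∞) :
    ∑' k : ℕ, ENNReal.ofReal (2 ^ (a * k)) * (A * ENNReal.ofReal ((1 / 2 ^ k) ^ s)) ≤
      ENNReal.ofReal (1 / (1 - 2 ^ (a - s))) * A := by
  have hρ0 : (0 : ℝ) < 2 ^ (a - s) := Real.rpow_pos_of_pos (by norm_num) _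
  have hρ1 : (2 : ℝ) ^ (a - s) < 1 := Real.rpow_lt_one_of_one_lt_of_neg (by norm_num) (by linarith)
  have e1 : ∀ k : ℕ, ENNReal.ofReal (2 ^ (a * k)) * (A * ENNReal.ofReal ((1 / 2 ^ k) ^ s)) =
      ENNReal.ofReal ((2 ^ (a - s)) ^ k) * A := by
    intro k
    rw [← mul_assoc, mul_comm _ A, mul_assoc, ← ENNReal.ofReal_mul (by positivity), mul_comm]
    congr 2
    rw [one_div, Real.inv_rpow (by positivity), ← Real.rpow_natCast, ← Real.rpow_natCast,
      ← Real.rpow_mul (by norm_num), ← Real.rpow_mul (by norm_num), ← Real.rpow_neg (by norm_num),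
      ← Real.rpow_add (by norm_num)]
    congr 1
    ring
  simp_rw [e1]
  rw [ENNReal.tsum_mul_right, ← ENNReal.ofReal_tsum_of_nonneg (fun k => by positivity)
    (summable_geometric_of_lt_one hρ0.le hρ1), tsum_geometric_of_lt_one hρ0.le hρ1, one_div]

theorem main2 (q : ℝ) (hq : 3 < q) (hq4 : q < 4) (s : ℝ) (hs : 2 / q - 1 / 2 < s) :
    ∃ C : ℝ≥0, ∀ (U : Set (E 2)),
    MeasurableSet U → U ⊆ Metric.ball 0 (1 / 2) → ∀ f : E 2 → ℂ,
    AEStronglyMeasurable f (volume.restrict U) → ∀ A : ℝ≥0∞,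
    (∀ h : ℝ, 0 < h → h ≤ 1 → ∃ e : E 2, ‖e‖ = 1 ∧ ∀ t : ℝ, 0 < t → t ≤ h →
      eLpNorm (fun x => U.indicator f (x + t • e) - U.indicator f x) (ENNReal.ofReal q) volume ≤
        A * ENNReal.ofReal (h ^ s)) →
    eLpNorm (ex U f) (ENNReal.ofReal q) volume ≤
      C * (eLpNorm f (ENNReal.ofReal q) (volume.restrict U) + A) := by
  obtain ⟨C, H⟩ := main1 q hq hq4
  set c : ℝ≥0 := Real.toNNReal (1 / (1 - 2 ^ ((2 / q - 1 / 2) - s))) with hc
  refine ⟨C * (1 + c), ?_⟩
  intro U hU hUb f hf A hmod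
  refine (H U hU hUb f hf (fun k => A * ENNReal.ofReal ((1 / 2 ^ k) ^ s)) (fun k =>
    hmod (1 / 2 ^ k) (by positivity) ?_)).trans ?_
  · rw [div_le_one (by positivity)]
    exact one_le_pow₀ (by norm_num)
  · have h1 := geo (2 / q - 1 / 2) s hs A
    push_cast
    rw [mul_assoc]
    refine mul_le_mul_right ?_ _
    refine (add_le_add le_rfl h1).trans ?_
    rw [hc]
    set nf := eLpNorm f (ENNReal.ofReal q) (volume.restrict U)
    change nf + ENNReal.ofReal _ * A ≤ (1 + ENNReal.ofReal _) * (nf + A)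
    calc nf + ENNReal.ofReal (1 / (1 - 2 ^ ((2 / q - 1 / 2) - s))) * A
        ≤ (1 + ENNReal.ofReal (1 / (1 - 2 ^ ((2 / q - 1 / 2) - s)))) * nf +
          (1 + ENNReal.ofReal (1 / (1 - 2 ^ ((2 / q - 1 / 2) - s)))) * A := by
          refine add_le_add ?_ ?_
          · exact le_mul_of_one_le_left zero_le le_self_add
          · exact mul_le_mul_left le_add_self _
      _ = _ := by rw [mul_add]

theorem main3 (q : ℝ) (hq : 3 < q) (hq4 : q < 4) (σ : ℝ) (hσ : 2 - q / 2 < σ) :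
    ∃ C : ℝ≥0, ∀ F : Set (E 2), MeasurableSet F → F ⊆ Metric.ball 0 (1 / 2) → ∀ B : ℝ≥0∞,
    (∀ h : ℝ, 0 < h → h ≤ 1 → ∃ e : E 2, ‖e‖ = 1 ∧ ∀ t : ℝ, 0 < t → t ≤ h →
      volume (symmDiff F ((fun x => x + t • e) ⁻¹' F)) ≤ B * ENNReal.ofReal (h ^ σ)) →
    ∫⁻ ξ, ‖ex F (fun _ => 1) ξ‖ₑ ^ q ≤ C * (volume F + B) := by
  have hq0 : 0 < q := by linarith
  have hs : 2 / q - 1 / 2 < σ / q := by
    rw [lt_div_iff₀ hq0, sub_mul, div_mul_cancel₀ _ hq0.ne']
    linarith
  obtain ⟨C, H⟩ := main2 q hq hq4 (σ / q) hs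
  have hp0 : ENNReal.ofReal q ≠ 0 := by
    simp only [ne_eq, ENNReal.ofReal_eq_zero, not_le]; exact hq0
  refine ⟨(2 * C) ^ q, ?_⟩
  intro F hF hFb B hmod
  have h1 := H F hF hFb (fun _ => 1) aestronglyMeasurable_const (B ^ (1 / q)) (by
    intro h h0 h1
    obtain ⟨e, he, he2⟩ := hmod h h0 h1
    refine ⟨e, he, fun t ht0 hth => ?_⟩
    rw [eLpNorm_eq_lintegral_rpow_enorm_toReal hp0 ENNReal.ofReal_ne_top,
      ENNReal.toReal_ofReal hq0.le]
    have hm : MeasurableSet (symmDiff F ((fun x => x + t • e) ⁻¹' F)) :=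
      hF.symmDiff (hF.preimage (measurable_id.add_const _))
    have h2 : ∀ x, ‖F.indicator (fun _ => (1 : ℂ)) (x + t • e) -
        F.indicator (fun _ => (1 : ℂ)) x‖ₑ ^ q =
        (symmDiff F ((fun x => x + t • e) ⁻¹' F)).indicator (fun _ => (1 : ℝ≥0∞)) x := by
      intro x
      by_cases hx : x ∈ F
      · by_cases hy : x + t • e ∈ F
        · rw [indicator_of_mem hx, indicator_of_mem hy, indicator_of_notMem, sub_self, enorm_zero,
            ENNReal.zero_rpow_of_pos hq0]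
          rintro (⟨-, h⟩ | ⟨-, h⟩)
          · exact h hy
          · exact h hx
        · rw [indicator_of_mem hx, indicator_of_notMem hy, indicator_of_mem, zero_sub, enorm_neg,
            enorm_one, ENNReal.one_rpow]
          exact Or.inl ⟨hx, hy⟩
      · by_cases hy : x + t • e ∈ F
        · rw [indicator_of_notMem hx, indicator_of_mem hy, indicator_of_mem, sub_zero,
            enorm_one, ENNReal.one_rpow]
          exact Or.inr ⟨hy, hx⟩
        · rw [indicator_of_notMem hx, indicator_of_notMem hy, indicator_of_notMem, sub_self,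
            enorm_zero, ENNReal.zero_rpow_of_pos hq0]
          rintro (⟨h, -⟩ | ⟨h, -⟩)
          · exact hx h
          · exact hy h
    simp_rw [h2]
    rw [lintegral_indicator hm, setLIntegral_const, one_mul]
    refine (ENNReal.rpow_le_rpow (he2 t ht0 hth) (by positivity)).trans (le_of_eq ?_)
    rw [ENNReal.mul_rpow_of_nonneg _ _ (by positivity),
      ENNReal.ofReal_rpow_of_nonneg (by positivity) (by positivity), ← Real.rpow_mul h0.le]
    congr 3
    ring)
  rw [eLpNorm_eq_lintegral_rpow_enorm_toReal hp0 ENNReal.ofReal_ne_top,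
    eLpNorm_const' _ hp0 ENNReal.ofReal_ne_top, Measure.restrict_apply_univ, enorm_one, one_mul,
    ENNReal.toReal_ofReal hq0.le] at h1
  calc ∫⁻ ξ, ‖ex F (fun _ => 1) ξ‖ₑ ^ q
      = ((∫⁻ ξ, ‖ex F (fun _ => 1) ξ‖ₑ ^ q) ^ (1 / q)) ^ q := by
        rw [← ENNReal.rpow_mul, one_div_mul_cancel hq0.ne', ENNReal.rpow_one]
    _ ≤ (C * (volume F ^ (1 / q) + B ^ (1 / q))) ^ q := ENNReal.rpow_le_rpow h1 hq0.le
    _ ≤ (C * (2 * (volume F + B) ^ (1 / q))) ^ q := by
        refine ENNReal.rpow_le_rpow (mul_le_mul_right ?_ _) hq0.le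
        rw [two_mul]
        exact add_le_add (ENNReal.rpow_le_rpow le_self_add (by positivity))
          (ENNReal.rpow_le_rpow le_add_self (by positivity))
    _ = _ := by
        rw [← mul_assoc, mul_comm (C : ℝ≥0∞) 2, ENNReal.mul_rpow_of_nonneg _ _ hq0.le,
          ← ENNReal.rpow_mul, one_div_mul_cancel hq0.ne', ENNReal.rpow_one,
          ENNReal.coe_rpow_of_nonneg _ hq0.le]
        push_cast
        rfl

end Pool.Agent.J4.H73.EX
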