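import Pool.Agent.J4.H73.EX.Slab
set_option autoImplicit false

/-! Averages in one direction. -/

namespace Pool.Agent.J4.H73.EX

open MeasureTheory Complex Set Filter Topology
open scoped ENNReal NNReal RealInnerProductSpace ComplexConjugate

instance instProb01 : IsProbabilityMeasure (volume.restrict (Ioc (0 : ℝ) 1)) :=
  ⟨by rw [Measure.restrict_apply_univ, Real.volume_Ioc]; norm_num⟩

/-- average of `h` over the segment from `x + c e` to `x + (c + r) e` -/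
noncomputable def Av (e : E 2) (c r : ℝ) (h : E 2 → ℂ) (x : E 2) : ℂ :=
  ∫ v in Ioc (0 : ℝ) 1, h (x + (c + r * v) • e)

theorem jens (F : ℝ → ℂ) (hF : Measurable F) (p : ℝ) (hp : 1 ≤ p) :
    ‖∫ v in Ioc (0 : ℝ) 1, F v‖ₑ ^ p ≤ ∫⁻ v in Ioc (0 : ℝ) 1, ‖F v‖ₑ ^ p := by
  have h1 := eLpNorm_le_eLpNorm_of_exponent_le (μ := volume.restrict (Ioc (0 : ℝ) 1))
    (p := 1) (q := ENNReal.ofReal p) (f := F) (by simpa using hp) hF.aestronglyMeasurable
  have hp0 : ENNReal.ofReal p ≠ 0 := by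
    simp only [ne_eq, ENNReal.ofReal_eq_zero, not_le]; linarith
  rw [eLpNorm_one_eq_lintegral_enorm, eLpNorm_eq_lintegral_rpow_enorm_toReal hp0
    ENNReal.ofReal_ne_top, ENNReal.toReal_ofReal (by linarith)] at h1
  have h2 := (enorm_integral_le_lintegral_enorm F (μ := volume.restrict (Ioc (0 : ℝ) 1))).trans h1
  calc ‖∫ v in Ioc (0 : ℝ) 1, F v‖ₑ ^ p
      ≤ ((∫⁻ v in Ioc (0 : ℝ) 1, ‖F v‖ₑ ^ p) ^ (1 / p)) ^ p :=
        ENNReal.rpow_le_rpow h2 (by linarith)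
    _ = _ := by rw [← ENNReal.rpow_mul, one_div_mul_cancel (by linarith), ENNReal.rpow_one]

theorem jens2 (F : E 2 → ℝ → ℂ) (hF : Measurable (Function.uncurry F)) (p : ℝ) (hp : 1 ≤ p)
    (M : ℝ≥0∞) (hM : ∀ v ∈ Ioc (0 : ℝ) 1, ∫⁻ x, ‖F x v‖ₑ ^ p ≤ M) :
    ∫⁻ x, ‖∫ v in Ioc (0 : ℝ) 1, F x v‖ₑ ^ p ≤ M := by
  calc ∫⁻ x, ‖∫ v in Ioc (0 : ℝ) 1, F x v‖ₑ ^ p
      ≤ ∫⁻ x, ∫⁻ v in Ioc (0 : ℝ) 1, ‖F x v‖ₑ ^ p :=
        lintegral_mono fun x => jens (F x) (hF.comp measurable_prodMk_left) p hp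
    _ = ∫⁻ v in Ioc (0 : ℝ) 1, ∫⁻ x, ‖F x v‖ₑ ^ p := by
        rw [lintegral_lintegral_swap]
        exact (hF.enorm.pow_const p).aemeasurable
    _ ≤ ∫⁻ v in Ioc (0 : ℝ) 1, M := setLIntegral_mono' measurableSet_Ioc fun v hv => hM v hv
    _ = M := by rw [setLIntegral_const, Real.volume_Ioc]; norm_num

theorem Av_meas2 (e : E 2) (c r : ℝ) {h : E 2 → ℂ} (hm : Measurable h) :
    Measurable (Function.uncurry fun (x : E 2) (v : ℝ) => h (x + (c + r * v) • e)) :=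
  hm.comp (f := fun z : E 2 × ℝ => z.1 + (c + r * z.2) • e) (by fun_prop)

theorem Av_meas (e : E 2) (c r : ℝ) {h : E 2 → ℂ} (hm : Measurable h) :
    Measurable (Av e c r h) :=
  ((Av_meas2 e c r hm).stronglyMeasurable.integral_prod_right
    (ν := volume.restrict (Ioc (0 : ℝ) 1))).measurable

theorem Av_int (e : E 2) (c r : ℝ) {R : ℝ} {h : E 2 → ℂ} (hg : Gd R h) (x : E 2) :
    IntegrableOn (fun v : ℝ => h (x + (c + r * v) • e)) (Ioc (0 : ℝ) 1) := by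
  obtain ⟨hm, ⟨B, hB⟩, hs⟩ := hg
  refine Measure.integrableOn_of_bounded (M := B) (by simp) ?_ (Eventually.of_forall fun v => hB _)
  exact (hm.comp (by fun_prop)).aestronglyMeasurable

theorem Av_good (e : E 2) (he : ‖e‖ = 1) (c r ρ : ℝ) (hρ : ∀ v ∈ Ioc (0 : ℝ) 1, |c + r * v| ≤ ρ)
    {R : ℝ} {h : E 2 → ℂ} (hg : Gd R h) (R' : ℝ) (hR : R + ρ ≤ R') : Gd R' (Av e c r h) := by
  obtain ⟨hm, ⟨B, hB⟩, hs⟩ := hg
  refine ⟨Av_meas e c r hm, ⟨B, fun x => ?_⟩, fun x hx => ?_⟩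
  · unfold Av
    refine (norm_integral_le_of_norm_le_const (C := B)
      (Eventually.of_forall fun v => hB _)).trans (le_of_eq ?_)
    simp
  · unfold Av
    rw [setIntegral_eq_zero_of_forall_eq_zero]
    intro v hv
    refine hs _ ?_
    have h1 := norm_sub_norm_le x (-((c + r * v) • e))
    rw [norm_neg, sub_neg_eq_add, norm_smul, he, mul_one, Real.norm_eq_abs] at h1
    have := hρ v hv
    linarith

theorem Av_Lp (e : E 2) (c r : ℝ) {h : E 2 → ℂ} (hm : Measurable h) (p : ℝ) (hp : 1 ≤ p) :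
    ∫⁻ x, ‖Av e c r h x‖ₑ ^ p ≤ ∫⁻ x, ‖h x‖ₑ ^ p :=
  jens2 _ (Av_meas2 e c r hm) p hp _ fun v _ =>
    (lintegral_add_right_eq_self (fun x => ‖h x‖ₑ ^ p) ((c + r * v) • e)).le

theorem Av_add (e : E 2) (c r : ℝ) {R : ℝ} {h₁ h₂ : E 2 → ℂ} (hg₁ : Gd R h₁) (hg₂ : Gd R h₂)
    (x : E 2) : Av e c r (fun x => h₁ x + h₂ x) x = Av e c r h₁ x + Av e c r h₂ x := by
  unfold Av
  exact integral_add (Av_int e c r hg₁ x) (Av_int e c r hg₂ x)

theorem Av_sub (e : E 2) (c r : ℝ) {R : ℝ} {h₁ h₂ : E 2 → ℂ} (hg₁ : Gd R h₁) (hg₂ : Gd R h₂)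
    (x : E 2) : Av e c r (fun x => h₁ x - h₂ x) x = Av e c r h₁ x - Av e c r h₂ x := by
  unfold Av
  exact integral_sub (Av_int e c r hg₁ x) (Av_int e c r hg₂ x)

theorem Av_comm (e e' : E 2) (c r c' r' : ℝ) {R : ℝ} {h : E 2 → ℂ} (hg : Gd R h) (x : E 2) :
    Av e c r (Av e' c' r' h) x = Av e' c' r' (Av e c r h) x := by
  unfold Av
  have h1 : ∀ v v' : ℝ, x + (c + r * v) • e + (c' + r' * v') • e' =
      x + (c' + r' * v') • e' + (c + r * v) • e := fun v v' => by abel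
  simp_rw [h1]
  rw [integral_integral_swap]
  obtain ⟨hm, ⟨B, hB⟩, hs⟩ := hg
  refine Integrable.of_bound (C := B) ?_ (Eventually.of_forall fun v => hB _)
  refine (hm.comp (f := fun z : ℝ × ℝ => x + (c' + r' * z.2) • e' + (c + r * z.1) • e)
    (by fun_prop)).aestronglyMeasurable

theorem Av_interval (e : E 2) (c r : ℝ) (hr : r ≠ 0) (h : E 2 → ℂ) (x : E 2) :
    Av e c r h x = (r⁻¹ : ℝ) • ∫ u in c..(c + r), h (x + u • e) := by
  unfold Av
  rw [← intervalIntegral.integral_of_le zero_le_one]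
  have := intervalIntegral.integral_comp_add_mul (a := 0) (b := 1)
    (fun u => h (x + u • e)) hr c
  rw [this, mul_zero, mul_one, add_zero]

/-- averages at scale `N` -/
noncomputable def P (e : E 2) (N : ℝ) (h : E 2 → ℂ) : E 2 → ℂ := Av e (-(1 / N)) (2 / N) h

theorem P_abs (N : ℝ) (hN : 0 < N) (v : ℝ) (hv : v ∈ Ioc (0 : ℝ) 1) :
    |-(1 / N) + 2 / N * v| ≤ 1 / N := by
  have h1 : -(1 / N) + 2 / N * v = (1 / N) * (2 * v - 1) := by ring
  rw [h1, abs_mul, abs_of_pos (by positivity)]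
  have : |2 * v - 1| ≤ 1 := by
    rw [abs_le]; constructor <;> linarith [hv.1, hv.2]
  have h2 : (0:ℝ) < 1 / N := by positivity
  nlinarith

theorem P_good (e : E 2) (he : ‖e‖ = 1) (N : ℝ) (hN : 1 ≤ N) {R : ℝ} {h : E 2 → ℂ} (hg : Gd R h)
    (R' : ℝ) (hR : R + 1 ≤ R') : Gd R' (P e N h) := by
  refine Av_good e he _ _ (1 / N) (P_abs N (by linarith)) hg R' ?_
  have : 1 / N ≤ 1 := by rw [div_le_one (by linarith)]; exact hN
  linarith

theorem ii_of_good {R : ℝ} {h : E 2 → ℂ} (hg : Gd R h) (e x : E 2) (a b : ℝ) :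
    IntervalIntegrable (fun u : ℝ => h (x + u • e)) volume a b := by
  obtain ⟨hm, ⟨B, hB⟩, hs⟩ := hg
  rw [intervalIntegrable_iff]
  refine Measure.integrableOn_of_bounded (M := B) (by simp [uIoc]) ?_
    (Eventually.of_forall fun v => hB _)
  exact (hm.comp (by fun_prop)).aestronglyMeasurable

theorem P_diff (e : E 2) (N : ℝ) (hN : 0 < N) {R : ℝ} {h : E 2 → ℂ} (hg : Gd R h) (s : ℝ)
    (hs : 0 < s) (x : E 2) :
    P e N h (x + s • e) - P e N h x =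
      ((N * s / 2 : ℝ) : ℂ) * (Av e (1 / N) s h x - Av e (-(1 / N)) s h x) := by
  unfold P
  rw [Av_interval e _ _ (by positivity), Av_interval e _ _ (by positivity),
    Av_interval e (1 / N) s hs.ne', Av_interval e (-(1 / N)) s hs.ne']
  have h1 : ∫ u in (-(1 / N))..(-(1 / N) + 2 / N), h (x + s • e + u • e) =
      ∫ u in (-(1 / N) + s)..(1 / N + s), h (x + u • e) := by
    have := intervalIntegral.integral_comp_add_right (a := -(1 / N)) (b := -(1 / N) + 2 / N)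
      (fun u => h (x + u • e)) s
    rw [show -(1 / N) + 2 / N + s = 1 / N + s by ring] at this
    rw [← this]
    refine intervalIntegral.integral_congr fun u _ => ?_
    rw [add_smul, add_assoc, add_comm (s • e)]
  have h2 : (∫ u in (-(1 / N) + s)..(1 / N + s), h (x + u • e)) -
      ∫ u in (-(1 / N))..(-(1 / N) + 2 / N), h (x + u • e) =
      (∫ u in (1 / N)..(1 / N + s), h (x + u • e)) -
      ∫ u in (-(1 / N))..(-(1 / N) + s), h (x + u • e) := by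
    rw [show -(1 / N) + 2 / N = 1 / N by ring]
    have i := ii_of_good hg e x
    have a1 := intervalIntegral.integral_add_adjacent_intervals (i (-(1 / N)) (-(1 / N) + s))
      (i (-(1 / N) + s) (1 / N + s))
    have a2 := intervalIntegral.integral_add_adjacent_intervals (i (-(1 / N)) (1 / N))
      (i (1 / N) (1 / N + s))
    rw [← a2] at a1
    linear_combination a1
  rw [h1, ← smul_sub, h2, ← smul_sub]
  simp only [real_smul]
  rw [← mul_assoc, ← Complex.ofReal_mul]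
  congr 2
  field_simp

/-- averages are Lipschitz in the direction `e` -/
theorem P_lip (e : E 2) (N : ℝ) (hN : 0 < N) {R : ℝ} {h : E 2 → ℂ} (hg : Gd R h) (s : ℝ)
    (hs : 0 < s) :
    ∫⁻ x, ‖P e N h (x + s • e) - P e N h x‖ₑ ^ 4 ≤
      ENNReal.ofReal ((N * s) ^ 4) * ∫⁻ x, ‖h x‖ₑ ^ 4 := by
  have hLp : ∀ c r : ℝ, ∫⁻ x, ‖Av e c r h x‖ₑ ^ 4 ≤ ∫⁻ x, ‖h x‖ₑ ^ 4 := by
    intro c r
    have := Av_Lp e c r hg.1 4 (by norm_num)
    simpa using this
  have key : ∀ x, ‖P e N h (x + s • e) - P e N h x‖ₑ ^ 4 ≤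
      ENNReal.ofReal ((N * s) ^ 4 / 2) *
        (‖Av e (1 / N) s h x‖ₑ ^ 4 + ‖Av e (-(1 / N)) s h x‖ₑ ^ 4) := by
    intro x
    rw [P_diff e N hN hg s hs x]
    have h1 : ∀ z : ℂ, ‖z‖ₑ ^ 4 = ENNReal.ofReal (‖z‖ ^ 4) := fun z => by
      rw [← ofReal_norm, ENNReal.ofReal_pow (norm_nonneg _)]
    rw [h1, h1, h1, ← ENNReal.ofReal_add (by positivity) (by positivity),
      ← ENNReal.ofReal_mul (by positivity)]
    apply ENNReal.ofReal_le_ofReal
    rw [norm_mul, Complex.norm_real, Real.norm_of_nonneg (by positivity)]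
    set a := ‖Av e (1 / N) s h x‖
    set b := ‖Av e (-(1 / N)) s h x‖
    have ha : 0 ≤ a := norm_nonneg _
    have hb : 0 ≤ b := norm_nonneg _
    have h2 : ‖Av e (1 / N) s h x - Av e (-(1 / N)) s h x‖ ≤ a + b := norm_sub_le _ _
    calc (N * s / 2 * ‖Av e (1 / N) s h x - Av e (-(1 / N)) s h x‖) ^ 4
        ≤ (N * s / 2 * (a + b)) ^ 4 := by gcongr
      _ = (N * s) ^ 4 / 16 * (a + b) ^ 4 := by ring
      _ ≤ (N * s) ^ 4 / 16 * (8 * (a ^ 4 + b ^ 4)) := by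
          gcongr
          nlinarith [sq_nonneg (a - b), sq_nonneg (a ^ 2 - b ^ 2), sq_nonneg (a + b),
            mul_nonneg (sq_nonneg (a - b)) (sq_nonneg (a + b)), sq_nonneg ((a-b)^2),
            mul_nonneg (sq_nonneg (a - b)) (sq_nonneg (a - b))]
      _ = _ := by ring
  calc ∫⁻ x, ‖P e N h (x + s • e) - P e N h x‖ₑ ^ 4
      ≤ ∫⁻ x, ENNReal.ofReal ((N * s) ^ 4 / 2) *
        (‖Av e (1 / N) s h x‖ₑ ^ 4 + ‖Av e (-(1 / N)) s h x‖ₑ ^ 4) := lintegral_mono key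
    _ = ENNReal.ofReal ((N * s) ^ 4 / 2) *
        ((∫⁻ x, ‖Av e (1 / N) s h x‖ₑ ^ 4) + ∫⁻ x, ‖Av e (-(1 / N)) s h x‖ₑ ^ 4) := by
        have hm1 := (Av_meas e (1 / N) s hg.1).enorm.pow_const 4
        have hm2 := (Av_meas e (-(1 / N)) s hg.1).enorm.pow_const 4
        rw [← lintegral_add_left hm1, ← lintegral_const_mul]
        exact hm1.add hm2
    _ ≤ ENNReal.ofReal ((N * s) ^ 4 / 2) *
        ((∫⁻ x, ‖h x‖ₑ ^ 4) + ∫⁻ x, ‖h x‖ₑ ^ 4) := by
        exact mul_le_mul_right (add_le_add (hLp _ _) (hLp _ _)) _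
    _ = _ := by
        have h2 : ENNReal.ofReal ((N * s) ^ 4 / 2) * 2 = ENNReal.ofReal ((N * s) ^ 4) := by
          rw [show (2 : ℝ≥0∞) = ENNReal.ofReal 2 by norm_num,
            ← ENNReal.ofReal_mul (by positivity)]
          congr 1
          ring
        rw [← two_mul, ← mul_assoc, h2]

end Pool.Agent.J4.H73.EX
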