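import Mathlib
import Pool.Agent.R412.RT.A2
import Pool.Agent.R412.RT.P
set_option autoImplicit false

/-! Basic facts: the exponential `e^{-is}` and the Plancherel inequality in the plane. -/

namespace Pool.Agent.J4.H73.EX

open MeasureTheory Complex Set Filter Topology
open scoped ENNReal NNReal RealInnerProductSpace ComplexConjugate

abbrev E (n : ℕ) := EuclideanSpace ℝ (Fin n)

/-- `e^{-is}` -/
noncomputable def en (s : ℝ) : ℂ := cexp (-(s : ℂ) * I)

theorem en_norm (s : ℝ) : ‖en s‖ = 1 := by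
  unfold en
  rw [show (-(s : ℂ) * I) = ((-s : ℝ) : ℂ) * I by push_cast; ring]
  exact Complex.norm_exp_ofReal_mul_I _

theorem en_cont : Continuous en := by unfold en; fun_prop

theorem en_meas : Measurable en := en_cont.measurable

theorem en_add (s t : ℝ) : en (s + t) = en s * en t := by
  unfold en
  rw [← Complex.exp_add]
  congr 1
  push_cast
  ring

theorem en_zero : en 0 = 1 := by simp [en]

theorem en_conj (s : ℝ) : conj (en s) = en (-s) := by
  unfold en
  rw [← Complex.exp_conj]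
  congr 1
  simp only [map_mul, map_neg, conj_ofReal, conj_I]
  push_cast
  ring

theorem en_ee (s : ℝ) : en s = R412.RT.ee (-(2 * Real.pi)⁻¹ * s) := by
  unfold en R412.RT.ee
  congr 1
  have : (Real.pi : ℂ) ≠ 0 := by exact_mod_cast Real.pi_ne_zero
  push_cast
  field_simp

theorem lint_smul {n : ℕ} (r : ℝ) (hr : r ≠ 0) (F : E n → ℝ≥0∞) :
    ∫⁻ y, F (r • y) = ENNReal.ofReal |(r ^ n)⁻¹| * ∫⁻ y, F y := by
  have h1 := (Homeomorph.smulOfNeZero r hr : E n ≃ₜ E n).toMeasurableEquiv.measurableEmbedding.lintegral_map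
    F (μ := volume)
  have h2 : Measure.map (⇑(Homeomorph.smulOfNeZero r hr : E n ≃ₜ E n).toMeasurableEquiv) volume =
      ENNReal.ofReal |(r ^ n)⁻¹| • (volume : Measure (E n)) := by
    have := Measure.map_addHaar_smul (volume : Measure (E n)) hr
    rw [finrank_euclideanSpace, Fintype.card_fin] at this
    exact this
  rw [h2, lintegral_smul_measure, smul_eq_mul] at h1
  exact h1.symm

/-- Plancherel inequality in the plane -/
theorem planch_n (g : E 2 → ℂ) (hg : Integrable g) :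
    ∫⁻ y : E 2, ‖∫ x, en ⟪x, y⟫ * g x‖ₑ ^ 2 ≤
      ENNReal.ofReal ((2 * Real.pi) ^ 2) * ∫⁻ x, ‖g x‖ₑ ^ 2 := by
  have hdet : (ContinuousLinearMap.id ℝ (E 2)).det = 1 := by
    unfold ContinuousLinearMap.det
    simp
  have h := R412.RT.planch (id : E 2 → E 2) measurable_id (fun _ => ContinuousLinearMap.id ℝ (E 2))
    univ MeasurableSet.univ (fun x _ => hasFDerivWithinAt_id x univ) (injOn_id _)
    (fun x _ => by rw [hdet]; exact one_ne_zero) (by simp) g hg
    (fun x hx => absurd (mem_univ x) hx)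
  simp only [hdet, abs_one, ENNReal.ofReal_one, div_one, id] at h
  have h1 : ∀ y : E 2, ‖∫ x, en ⟪x, y⟫ * g x‖ₑ ^ 2 =
      (fun t => ‖∫ x, R412.RT.ee ⟪x, t⟫ * g x‖ₑ ^ 2) ((-(2 * Real.pi)⁻¹) • y) := by
    intro y
    simp only [inner_smul_right, en_ee]
  simp_rw [h1]
  have hne : (-(2 * Real.pi)⁻¹ : ℝ) ≠ 0 := by
    have := Real.pi_pos
    exact neg_ne_zero.2 (by positivity)
  have hs := lint_smul (n := 2) (-(2 * Real.pi)⁻¹) hne
    (fun t => ‖∫ x, R412.RT.ee ⟪x, t⟫ * g x‖ₑ ^ 2)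
  rw [hs]
  refine mul_le_mul' (le_of_eq ?_) h
  congr 1
  have := Real.pi_pos
  rw [abs_inv, abs_pow, abs_neg, abs_inv, abs_of_pos (by positivity : (0:ℝ) < 2 * Real.pi)]
  field_simp

end Pool.Agent.J4.H73.EX
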