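import Pool.Agent.J4.H73.EX.Quad
set_option autoImplicit false

/-! Adapted coordinates in the plane, and kernel integrals. -/

namespace Pool.Agent.J4.H73.EX

open MeasureTheory Complex Set Filter Topology
open scoped ENNReal NNReal RealInnerProductSpace ComplexConjugate

theorem lint_two (F : ℝ → ℝ → ℝ≥0∞) (hF : Measurable (Function.uncurry F)) :
    ∫⁻ x : E 2, F (x 0) (x 1) = ∫⁻ s, ∫⁻ t, F s t := by
  have h1 := EuclideanSpace.volume_preserving_symm_measurableEquiv_toLp (Fin 2)
  have h2 := MeasureTheory.volume_preserving_finTwoArrow ℝ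
  have h3 := h2.comp h1
  have h4 := h3.lintegral_comp hF
  rw [Measure.volume_eq_prod, lintegral_prod _ hF.aemeasurable] at h4
  simp only [Function.uncurry] at h4
  rw [← h4]
  rfl

theorem lint_coord (e : E 2) (he : ‖e‖ = 1) : ∃ n : E 2, ‖n‖ = 1 ∧
    (∀ x : E 2, ‖x‖ ^ 2 = ⟪e, x⟫ ^ 2 + ⟪n, x⟫ ^ 2) ∧
    ∀ F : ℝ → ℝ → ℝ≥0∞, Measurable (Function.uncurry F) →
      ∫⁻ x : E 2, F ⟪e, x⟫ ⟪n, x⟫ = ∫⁻ s, ∫⁻ t, F s t := by
  have hcard : Module.finrank ℝ (E 2) = Fintype.card (Fin 2) := by simp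
  have hort : Orthonormal ℝ (({0} : Set (Fin 2)).domRestrict (fun _ : Fin 2 => e)) := by
    constructor
    · intro i; exact he
    · intro i j hij
      exact absurd (Subsingleton.elim i j) hij
  obtain ⟨b, hb⟩ := hort.exists_orthonormalBasis_extension_of_card_eq hcard
  have hb0 : b 0 = e := by simpa using hb 0 (by simp)
  refine ⟨b 1, b.orthonormal.1 1, ?_, ?_⟩
  · intro x
    have := b.sum_sq_norm_inner_right x
    rw [← this, Fin.sum_univ_two, hb0, Real.norm_eq_abs, Real.norm_eq_abs, sq_abs, sq_abs]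
  · intro F hF
    have h1 := b.measurePreserving_repr.lintegral_comp
      (f := fun y : E 2 => F (y 0) (y 1)) (by
        have : Measurable fun y : E 2 => (y 0, y 1) := by fun_prop
        exact hF.comp this)
    rw [← lint_two F hF, ← h1]
    refine lintegral_congr fun x => ?_
    rw [b.repr_apply_apply, b.repr_apply_apply, hb0]

end Pool.Agent.J4.H73.EX
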