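import Pool.Agent.J4.H73.EX.KInt
set_option autoImplicit false

/-! Near and far bounds for the correlation form. -/

namespace Pool.Agent.J4.H73.EX

open MeasureTheory Complex Set Filter Topology
open scoped ENNReal NNReal RealInnerProductSpace ComplexConjugate

/-- bounded measurable functions supported in a ball -/
def Gd (R : ℝ) (g : E 2 → ℂ) : Prop :=
  Measurable g ∧ (∃ B : ℝ, ∀ x, ‖g x‖ ≤ B) ∧ ∀ x, R < ‖x‖ → g x = 0

theorem Gd.integrable {R : ℝ} {g : E 2 → ℂ} (hg : Gd R g) : Integrable g := by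
  obtain ⟨hm, ⟨B, hB⟩, hs⟩ := hg
  have h1 : IntegrableOn g (Metric.closedBall (0 : E 2) R) := by
    refine Measure.integrableOn_of_bounded (M := B) ?_ hm.aestronglyMeasurable
      (Eventually.of_forall hB)
    exact measure_closedBall_lt_top.ne
  rw [integrableOn_iff_integrable_of_support_subset] at h1
  · exact h1
  · intro x hx
    rw [mem_closedBall_zero_iff]
    by_contra h
    exact hx (hs x (not_le.1 h))

theorem Ga_good {R : ℝ} {g : E 2 → ℂ} (hg : Gd R g) (b : E 2) : Gd R (Ga g b) := by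
  obtain ⟨hm, ⟨B, hB⟩, hs⟩ := hg
  refine ⟨?_, ⟨B * B, ?_⟩, ?_⟩
  · unfold Ga
    exact hm.mul (Complex.continuous_conj.measurable.comp (hm.comp (measurable_id.sub_const b)))
  · intro x
    unfold Ga
    rw [norm_mul, RCLike.norm_conj]
    exact mul_le_mul (hB _) (hB _) (norm_nonneg _) ((norm_nonneg _).trans (hB x))
  · intro x hx
    unfold Ga
    rw [hs x hx, zero_mul]

theorem Ga_zero {R : ℝ} {g : E 2 → ℂ} (hg : Gd R g) (b : E 2) (hb : 2 * R < ‖b‖) (x : E 2) :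
    Ga g b x = 0 := by
  obtain ⟨hm, ⟨B, hB⟩, hs⟩ := hg
  unfold Ga
  rcases lt_or_ge R ‖x‖ with h | h
  · rw [hs x h, zero_mul]
  · have : R < ‖x - b‖ := by
      have h3 : ‖b‖ ≤ ‖x‖ + ‖x - b‖ := by
        calc ‖b‖ = ‖x - (x - b)‖ := by rw [sub_sub_cancel]
          _ ≤ _ := norm_sub_le _ _
      linarith
    rw [hs _ this, map_zero, mul_zero]

theorem Ga_enorm (g : E 2 → ℂ) (b x : E 2) : ‖Ga g b x‖ₑ = ‖g x‖ₑ * ‖g (x - b)‖ₑ := by
  unfold Ga
  rw [enorm_mul]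
  congr 1
  rw [← ofReal_norm, ← ofReal_norm, RCLike.norm_conj]

theorem J_le (F : E 2 → ℂ) (H K : E 2 → E 2 → ℂ) :
    ‖∫ x, F x * ∫ x', H x x' * K x x'‖ₑ ≤ ∫⁻ x, ‖F x‖ₑ * ∫⁻ x', ‖H x x'‖ₑ * ‖K x x'‖ₑ := by
  refine (enorm_integral_le_lintegral_enorm _).trans (lintegral_mono fun x => ?_)
  simp only
  rw [enorm_mul]
  gcongr
  refine (enorm_integral_le_lintegral_enorm _).trans (lintegral_mono fun x' => ?_)
  simp only
  rw [enorm_mul]

/-- near bound -/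
theorem near (g : E 2 → ℂ) (hg : Gd 3 g) (M : ℝ≥0∞) (hM : ∫⁻ x, ‖g x‖ₑ ^ 4 ≤ M) (T : ℝ)
    (hT : 0 < T) (w : ℝ → ℝ) (hw : ∀ τ, ‖Wh w τ‖ ≤ 6 * T * Real.exp (-((T * τ) ^ 2 / 8)))
    (b : E 2) (hb : b ≠ 0) :
    ‖∫ x, Ga g b x * ∫ x', conj (Ga g b x') * Wh w (2 * ⟪x - x', b⟫)‖ₑ ≤
      M * (ENNReal.ofReal 216 * (ENNReal.ofReal ‖b‖)⁻¹) := by
  set k : E 2 → ℝ≥0∞ := fun a =>
    ENNReal.ofReal (6 * T * Real.exp (-((T * (2 * ⟪a, b⟫)) ^ 2 / 8))) with hk
  have hgm : Measurable fun x => ‖g x‖ₑ := hg.1.enorm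
  have h1 := quad (fun x => ‖g x‖ₑ) (fun x => ‖g x‖ₑ) (fun x => ‖g x‖ₑ) (fun x => ‖g x‖ₑ) k
    hgm hgm hgm hgm (by fun_prop) M hM hM hM hM 3 3 (fun x hx => by simp [hg.2.2 x hx])
    (fun x hx => by simp [hg.2.2 x hx]) b
  have h2 := a_int T (3 + 3) (6 * T) hT (by norm_num) (by positivity) b hb k (fun a => le_rfl)
  refine (J_le _ _ _).trans (le_trans ?_ (h1.trans (mul_le_mul_right (h2.trans ?_) M)))
  · refine lintegral_mono fun x => ?_
    simp only
    rw [Ga_enorm]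
    gcongr with x'
    · have : ‖conj (Ga g b x')‖ₑ = ‖Ga g b x'‖ₑ := by
        rw [← ofReal_norm, ← ofReal_norm, RCLike.norm_conj]
      rw [this, Ga_enorm]
    · rw [hk]
      simp only
      rw [← ofReal_norm]
      exact ENNReal.ofReal_le_ofReal (hw _)
  · gcongr
    rw [show 6 * (6 * T) * (3 + 3) / T = 216 by field_simp; norm_num]

theorem V1_lip (T : ℝ) (hT : 0 < T) (τ δ : ℝ) : |V1 T (τ + δ) - V1 T τ| ≤ 6 * T * |δ| := by
  have h := Convex.norm_image_sub_le_of_norm_hasDerivWithin_le (f := V1 T) (f' := W1 T)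
    (C := 6 * T) (s := univ) (x := τ) (y := τ + δ)
    (fun x _ => (V1_deriv T x).hasDerivWithinAt) (fun x _ => by
      rw [Real.norm_eq_abs]
      refine (W1_bound T x hT).trans ?_
      have : Real.exp (-((T * x) ^ 2 / 8)) ≤ 1 := Real.exp_le_one_iff.2 (by nlinarith [sq_nonneg (T * x)])
      nlinarith) convex_univ (mem_univ _) (mem_univ _)
  simpa using h

theorem V1_cont (T : ℝ) : Continuous (V1 T) :=
  continuous_iff_continuousAt.2 fun x => (V1_deriv T x).continuousAt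

theorem V1_slope (T τ β : ℝ) :
    Tendsto (fun s : ℝ => (V1 T (τ + 2 * s * β) - V1 T τ) / s) (𝓝[>] 0) (𝓝 (2 * β * W1 T τ)) := by
  have h1 : HasDerivAt (fun s : ℝ => τ + 2 * s * β) (2 * β) 0 := by
    have := (((hasDerivAt_id (0 : ℝ)).const_mul 2).mul_const β).const_add τ
    simpa using this
  have h2 : HasDerivAt (V1 T) (W1 T τ) (τ + 2 * 0 * β) := by
    have := V1_deriv T τ
    simpa using this
  have h3 := HasDerivAt.comp (h₂ := V1 T) (h := fun s : ℝ => τ + 2 * s * β) (0 : ℝ) h2 h1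
  have h4 := h3.tendsto_slope_zero_right
  refine (h4.congr' ?_).trans_eq ?_
  · filter_upwards with s
    simp only [Function.comp, zero_add, smul_eq_mul, mul_zero, zero_mul, add_zero]
    rw [inv_mul_eq_div]
  · rw [mul_comm]

end Pool.Agent.J4.H73.EX
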