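import Pool.Agent.J4.H73.EX.Far
set_option autoImplicit false

/-! The far bound. -/

namespace Pool.Agent.J4.H73.EX

open MeasureTheory Complex Set Filter Topology
open scoped ENNReal NNReal RealInnerProductSpace ComplexConjugate

/-- difference quotient of `V1` -/
noncomputable def DV (T β s τ : ℝ) : ℝ := (V1 T (τ + 2 * s * β) - V1 T τ) / s

theorem DV_cont (T β s : ℝ) : Continuous (DV T β s) := by
  unfold DV
  have := V1_cont T
  fun_prop

theorem DV_bound (T β s τ : ℝ) (hT : 0 < T) (hs : 0 < s) : |DV T β s τ| ≤ 12 * T * |β| := by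
  unfold DV
  rw [abs_div, abs_of_pos hs, div_le_iff₀ hs]
  refine (V1_lip T hT τ (2 * s * β)).trans (le_of_eq ?_)
  rw [abs_mul, abs_mul, abs_two, abs_of_pos hs]
  ring

theorem inner_meas (G : E 2 → ℂ) (hG : Measurable G) (b : E 2) (K : ℝ → ℝ) (hK : Continuous K) :
    Measurable fun x : E 2 => ∫ x', conj (G x') * ((K (2 * ⟪x - x', b⟫) : ℝ) : ℂ) := by
  have : StronglyMeasurable (Function.uncurry fun (x x' : E 2) =>
      conj (G x') * ((K (2 * ⟪x - x', b⟫) : ℝ) : ℂ)) := by
    refine Measurable.stronglyMeasurable ?_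
    refine (Complex.continuous_conj.measurable.comp (hG.comp measurable_snd)).mul ?_
    refine Complex.measurable_ofReal.comp (hK.measurable.comp ?_)
    fun_prop
  exact this.integral_prod_right.measurable

theorem conj_int {G : E 2 → ℂ} (hG : Integrable G) : Integrable (fun x => conj (G x)) :=
  (Complex.conjLIE.toContinuousLinearEquiv.integrable_comp_iff).2 hG

theorem far_lim (G : E 2 → ℂ) (hGm : Measurable G) (hG : Integrable G) (T : ℝ) (hT : 0 < T)
    (b : E 2) (β : ℝ) :
    Tendsto (fun s : ℝ => ∫ x, G x * ∫ x', conj (G x') * ((DV T β s (2 * ⟪x - x', b⟫) : ℝ) : ℂ))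
      (𝓝[>] 0)
      (𝓝 (∫ x, G x * ∫ x', conj (G x') * ((2 * β * W1 T (2 * ⟪x - x', b⟫) : ℝ) : ℂ))) := by
  have hbd : ∀ s : ℝ, 0 < s → ∀ x x' : E 2,
      ‖conj (G x') * ((DV T β s (2 * ⟪x - x', b⟫) : ℝ) : ℂ)‖ ≤ ‖G x'‖ * (12 * T * |β|) := by
    intro s hs x x'
    rw [norm_mul, RCLike.norm_conj, Complex.norm_real, Real.norm_eq_abs]
    exact mul_le_mul_of_nonneg_left (DV_bound T β s _ hT hs) (norm_nonneg _)
  have hin : ∀ x : E 2, Tendsto
      (fun s : ℝ => ∫ x', conj (G x') * ((DV T β s (2 * ⟪x - x', b⟫) : ℝ) : ℂ)) (𝓝[>] 0)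
      (𝓝 (∫ x', conj (G x') * ((2 * β * W1 T (2 * ⟪x - x', b⟫) : ℝ) : ℂ))) := by
    intro x
    refine tendsto_integral_filter_of_dominated_convergence (fun x' => ‖G x'‖ * (12 * T * |β|))
      ?_ ?_ (hG.norm.mul_const _) ?_
    · refine Eventually.of_forall fun s => ?_
      refine (conj_int hG).aestronglyMeasurable.mul ?_
      have := DV_cont T β s
      have h2 : Continuous fun x' : E 2 => ((DV T β s (2 * ⟪x - x', b⟫) : ℝ) : ℂ) := by fun_prop
      exact h2.aestronglyMeasurable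
    · filter_upwards [self_mem_nhdsWithin] with s hs
      exact Eventually.of_forall fun x' => hbd s hs x x'
    · refine Eventually.of_forall fun x' => ?_
      refine Tendsto.const_mul _ ?_
      exact (Complex.continuous_ofReal.tendsto _).comp (V1_slope T _ β)
  refine tendsto_integral_filter_of_dominated_convergence
    (fun x => ‖G x‖ * ((∫ x', ‖G x'‖) * (12 * T * |β|))) ?_ ?_ (hG.norm.mul_const _) ?_
  · refine Eventually.of_forall fun s => ?_
    exact hG.aestronglyMeasurable.mul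
      (inner_meas G hGm b (DV T β s) (DV_cont T β s)).aestronglyMeasurable
  · filter_upwards [self_mem_nhdsWithin] with s hs
    refine Eventually.of_forall fun x => ?_
    rw [norm_mul]
    gcongr
    refine (norm_integral_le_integral_norm _).trans ?_
    rw [← integral_mul_const]
    refine integral_mono_of_nonneg (Eventually.of_forall fun x' => norm_nonneg _)
      (hG.norm.mul_const _) (Eventually.of_forall fun x' => hbd s hs x x')
  · exact Eventually.of_forall fun x => Tendsto.const_mul _ (hin x)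

theorem far_shift (G : E 2 → ℂ) (hG : Integrable G) (T : ℝ)
    (b e : E 2) (s : ℝ) (x : E 2) :
    ∫ x', conj (G x') * ((DV T ⟪e, b⟫ s (2 * ⟪x - x', b⟫) : ℝ) : ℂ) =
      ∫ x', (conj (G (x' + s • e)) - conj (G x')) * ((V1 T (2 * ⟪x - x', b⟫) / s : ℝ) : ℂ) := by
  obtain ⟨B, hB⟩ : ∃ B : ℝ, ∀ τ, |V1 T τ| ≤ B := ⟨4, fun τ => (V1_bound T τ).trans (by
    have : Real.exp (-((T * τ) ^ 2 / 8)) ≤ 1 := Real.exp_le_one_iff.2 (by nlinarith [sq_nonneg (T * τ)])
    linarith)⟩
  have hi : ∀ (K : E 2 → ℝ), Continuous K → ∀ F : E 2 → ℂ, Integrable F →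
      Integrable fun x' : E 2 => F x' * ((V1 T (K x') / s : ℝ) : ℂ) := by
    intro K hK F hF
    refine hF.mul_bdd (c := B / |s|) ?_ (Eventually.of_forall fun x' => ?_)
    · have := V1_cont T
      have h2 : Continuous fun x' : E 2 => ((V1 T (K x') / s : ℝ) : ℂ) := by fun_prop
      exact h2.aestronglyMeasurable
    · rw [Complex.norm_real, Real.norm_eq_abs, abs_div]
      gcongr
      exact hB _
  have hGc := conj_int hG
  have h1 : ∫ x', conj (G x') * ((V1 T (2 * ⟪x - x', b⟫ + 2 * s * ⟪e, b⟫) / s : ℝ) : ℂ) =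
      ∫ x', conj (G (x' + s • e)) * ((V1 T (2 * ⟪x - x', b⟫) / s : ℝ) : ℂ) := by
    rw [← integral_add_right_eq_self (fun x' => conj (G x') *
      ((V1 T (2 * ⟪x - x', b⟫ + 2 * s * ⟪e, b⟫) / s : ℝ) : ℂ)) (s • e)]
    refine integral_congr_ae (Eventually.of_forall fun x' => ?_)
    simp only
    congr 4
    rw [inner_sub_left, inner_sub_left, inner_add_left, inner_smul_left]
    simp only [conj_trivial]
    ring
  have h2 : ∫ x', conj (G x') * ((DV T ⟪e, b⟫ s (2 * ⟪x - x', b⟫) : ℝ) : ℂ) =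
      (∫ x', conj (G x') * ((V1 T (2 * ⟪x - x', b⟫ + 2 * s * ⟪e, b⟫) / s : ℝ) : ℂ)) -
      ∫ x', conj (G x') * ((V1 T (2 * ⟪x - x', b⟫) / s : ℝ) : ℂ) := by
    rw [← integral_sub (hi _ (by fun_prop) _ hGc) (hi _ (by fun_prop) _ hGc)]
    refine integral_congr_ae (Eventually.of_forall fun x' => ?_)
    simp only
    unfold DV
    push_cast
    ring
  rw [h2, h1, ← integral_sub (hi _ (by fun_prop) _ (hGc.comp_add_right (s • e)))
    (hi _ (by fun_prop) _ hGc)]
  refine integral_congr_ae (Eventually.of_forall fun x' => ?_)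
  simp only
  ring

end Pool.Agent.J4.H73.EX
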