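import Pool.Agent.J4.H73.EX.Far2
set_option autoImplicit false

/-! The far bound, conclusion. -/

namespace Pool.Agent.J4.H73.EX

open MeasureTheory Complex Set Filter Topology
open scoped ENNReal NNReal RealInnerProductSpace ComplexConjugate

theorem Ga_diff (g : E 2 → ℂ) (b v x : E 2) :
    ‖conj (Ga g b (x + v)) - conj (Ga g b x)‖ₑ ≤
      ‖g (x + v) - g x‖ₑ * ‖g (x - b + v)‖ₑ + ‖g x‖ₑ * ‖g (x - b + v) - g (x - b)‖ₑ := by
  have h1 : conj (Ga g b (x + v)) - conj (Ga g b x) =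
      conj ((g (x + v) - g x) * conj (g (x - b + v)) +
        g x * conj (g (x - b + v) - g (x - b))) := by
    unfold Ga
    rw [show x + v - b = x - b + v by abel]
    simp only [map_mul, map_add, map_sub]
    ring
  have hc : ∀ z : ℂ, ‖conj z‖ₑ = ‖z‖ₑ := fun z => by
    rw [← ofReal_norm, ← ofReal_norm, RCLike.norm_conj]
  rw [h1, hc]
  refine (enorm_add_le _ _).trans ?_
  rw [enorm_mul, enorm_mul, hc, hc]

theorem far_bd (g : E 2 → ℂ) (hg : Gd 3 g) (e : E 2) (he : ‖e‖ = 1) (M : ℝ≥0∞)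
    (hM : ∫⁻ x, ‖g x‖ₑ ^ 4 ≤ M) (L : ℝ) (hL : 0 < L) (s : ℝ) (hs : 0 < s) (hs1 : s ≤ 1)
    (hLip : ∫⁻ x, ‖g (x + s • e) - g x‖ₑ ^ 4 ≤ ENNReal.ofReal ((L * s) ^ 4) * M)
    (T : ℝ) (b : E 2) (k : E 2 → ℝ≥0∞) (hk : Measurable k)
    (hkb : ∀ a, ‖V1 T (2 * ⟪a, b⟫)‖ₑ ≤ k a) :
    ‖∫ x, Ga g b x * ∫ x', (conj (Ga g b (x' + s • e)) - conj (Ga g b x')) *
        ((V1 T (2 * ⟪x - x', b⟫) / s : ℝ) : ℂ)‖ₑ ≤
      ENNReal.ofReal (2 * L) * (M * ∫⁻ a in Metric.closedBall (0 : E 2) (3 + 4), k a) := by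
  have hgm : Measurable fun x => ‖g x‖ₑ := hg.1.enorm
  have hgm0 : Measurable g := hg.1
  set c : ℝ≥0∞ := ENNReal.ofReal (1 / (s * L)) with hc
  set φ : E 2 → ℝ≥0∞ := fun x => c * ‖g (x + s • e) - g x‖ₑ with hφ
  set γ : E 2 → ℝ≥0∞ := fun x => ‖g (x + s • e)‖ₑ with hγ
  have hφm : Measurable φ :=
    (((hg.1.comp (measurable_id.add_const (s • e))).sub hg.1).enorm).const_mul _
  have hγm : Measurable γ := (hg.1.comp (measurable_id.add_const (s • e))).enorm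
  have hφM : ∫⁻ x, φ x ^ 4 ≤ M := by
    have h1 : ∀ x, φ x ^ 4 = c ^ 4 * ‖g (x + s • e) - g x‖ₑ ^ 4 := fun x => by
      rw [hφ]; simp only; rw [mul_pow]
    simp_rw [h1]
    have hm4 : Measurable fun x : E 2 => ‖g (x + s • e) - g x‖ₑ ^ 4 :=
      ((hg.1.comp (measurable_id.add_const (s • e))).sub hg.1).enorm.pow_const 4
    rw [lintegral_const_mul _ hm4]
    refine (mul_le_mul_right hLip _).trans ?_
    rw [← mul_assoc, hc, ← ENNReal.ofReal_pow (by positivity), ← ENNReal.ofReal_mul (by positivity),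
      show (1 / (s * L)) ^ 4 * (L * s) ^ 4 = 1 by field_simp, ENNReal.ofReal_one, one_mul]
  have hγM : ∫⁻ x, γ x ^ 4 ≤ M :=
    (lintegral_add_right_eq_self (fun x => ‖g x‖ₑ ^ 4) (s • e)).trans_le hM
  have hse : ‖s • e‖ ≤ 1 := by
    rw [norm_smul, he, mul_one, Real.norm_eq_abs, abs_of_pos hs]; exact hs1
  have hg4 : ∀ x, (4 : ℝ) < ‖x‖ → ‖g x‖ₑ = 0 := fun x hx => by
    rw [hg.2.2 x (by linarith)]; simp
  have hφ4 : ∀ x, (4 : ℝ) < ‖x‖ → φ x = 0 := fun x hx => by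
    rw [hφ]
    simp only
    rw [hg.2.2 x (by linarith), hg.2.2 (x + s • e) (by
      have := norm_sub_norm_le x (-(s • e))
      rw [norm_neg, sub_neg_eq_add] at this
      linarith)]
    simp
  have q1 := quad (fun x => ‖g x‖ₑ) (fun x => ‖g x‖ₑ) φ γ k
    hgm hgm hφm hγm hk M hM hM hφM hγM 3 4 (fun x hx => by simp [hg.2.2 x hx]) hφ4 b
  have q2 := quad (fun x => ‖g x‖ₑ) (fun x => ‖g x‖ₑ) (fun x => ‖g x‖ₑ) φ k
    hgm hgm hgm hφm hk M hM hM hM hφM 3 4 (fun x hx => by simp [hg.2.2 x hx]) hg4 b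
  refine (J_le _ _ _).trans ?_
  have hLc : ENNReal.ofReal (1 / s) = ENNReal.ofReal L * c := by
    rw [hc, ← ENNReal.ofReal_mul hL.le]
    congr 1
    field_simp
  have h3 : ∀ x, ∫⁻ x', ‖conj (Ga g b (x' + s • e)) - conj (Ga g b x')‖ₑ *
      ‖((V1 T (2 * ⟪x - x', b⟫) / s : ℝ) : ℂ)‖ₑ ≤
      ENNReal.ofReal L * ((∫⁻ x', φ x' * γ (x' - b) * k (x - x')) +
        ∫⁻ x', ‖g x'‖ₑ * φ (x' - b) * k (x - x')) := by
    intro x
    rw [← lintegral_add_left (by fun_prop), ← lintegral_const_mul _ (by fun_prop)]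
    refine lintegral_mono fun x' => ?_
    have e1 : ‖((V1 T (2 * ⟪x - x', b⟫) / s : ℝ) : ℂ)‖ₑ ≤ ENNReal.ofReal L * c * k (x - x') := by
      rw [← hLc, ← ofReal_norm, Complex.norm_real, norm_div, Real.norm_of_nonneg hs.le,
        div_eq_mul_inv, ENNReal.ofReal_mul (norm_nonneg _), ofReal_norm, mul_comm, ← one_div]
      gcongr
      exact hkb _
    calc ‖conj (Ga g b (x' + s • e)) - conj (Ga g b x')‖ₑ *
          ‖((V1 T (2 * ⟪x - x', b⟫) / s : ℝ) : ℂ)‖ₑ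
        ≤ (‖g (x' + s • e) - g x'‖ₑ * ‖g (x' - b + s • e)‖ₑ +
            ‖g x'‖ₑ * ‖g (x' - b + s • e) - g (x' - b)‖ₑ) *
          (ENNReal.ofReal L * c * k (x - x')) := mul_le_mul' (Ga_diff g b _ x') e1
      _ = _ := by
          rw [hφ, hγ]
          simp only
          ring
  calc ∫⁻ x, ‖Ga g b x‖ₑ * ∫⁻ x', ‖conj (Ga g b (x' + s • e)) - conj (Ga g b x')‖ₑ *
      ‖((V1 T (2 * ⟪x - x', b⟫) / s : ℝ) : ℂ)‖ₑ
      ≤ ∫⁻ x, (‖g x‖ₑ * ‖g (x - b)‖ₑ) * (ENNReal.ofReal L *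
        ((∫⁻ x', φ x' * γ (x' - b) * k (x - x')) +
        ∫⁻ x', ‖g x'‖ₑ * φ (x' - b) * k (x - x'))) := by
        refine lintegral_mono fun x => ?_
        simp only
        rw [Ga_enorm]
        exact mul_le_mul_right (h3 x) _
    _ = ENNReal.ofReal L * ((∫⁻ x, ‖g x‖ₑ * ‖g (x - b)‖ₑ * ∫⁻ x', φ x' * γ (x' - b) * k (x - x')) +
        ∫⁻ x, ‖g x‖ₑ * ‖g (x - b)‖ₑ * ∫⁻ x', ‖g x'‖ₑ * φ (x' - b) * k (x - x')) := by
        have hm1 : Measurable fun x => ∫⁻ x', φ x' * γ (x' - b) * k (x - x') :=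
          Measurable.lintegral_prod_right' (f := fun z : E 2 × E 2 =>
            φ z.2 * γ (z.2 - b) * k (z.1 - z.2)) (by fun_prop)
        have hm2 : Measurable fun x => ∫⁻ x', ‖g x'‖ₑ * φ (x' - b) * k (x - x') :=
          Measurable.lintegral_prod_right' (f := fun z : E 2 × E 2 =>
            ‖g z.2‖ₑ * φ (z.2 - b) * k (z.1 - z.2)) (by fun_prop)
        rw [← lintegral_add_left (by fun_prop), ← lintegral_const_mul _ (by fun_prop)]
        refine lintegral_congr fun x => ?_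
        ring
    _ ≤ ENNReal.ofReal L * ((M * ∫⁻ a in Metric.closedBall (0 : E 2) (3 + 4), k a) +
          (M * ∫⁻ a in Metric.closedBall (0 : E 2) (3 + 4), k a)) := by
        gcongr
    _ = _ := by
        rw [ENNReal.ofReal_mul (by norm_num), show ENNReal.ofReal 2 = 2 by norm_num]
        ring

/-- far bound -/
theorem far (g : E 2 → ℂ) (hg : Gd 3 g) (e : E 2) (he : ‖e‖ = 1) (M : ℝ≥0∞)
    (hM : ∫⁻ x, ‖g x‖ₑ ^ 4 ≤ M) (L : ℝ) (hL : 0 < L)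
    (hLip : ∀ s : ℝ, 0 < s → s ≤ 1 →
      ∫⁻ x, ‖g (x + s • e) - g x‖ₑ ^ 4 ≤ ENNReal.ofReal ((L * s) ^ 4) * M)
    (T : ℝ) (hT : 0 < T) (b : E 2) (hb : ⟪e, b⟫ ≠ 0) :
    ‖∫ x, Ga g b x * ∫ x', conj (Ga g b x') * Wh (w1 T) (2 * ⟪x - x', b⟫)‖ₑ ≤
      M * (ENNReal.ofReal (168 * (L / T)) *
        ((ENNReal.ofReal |⟪e, b⟫|)⁻¹ * (ENNReal.ofReal ‖b‖)⁻¹)) := by
  set β : ℝ := ⟪e, b⟫ with hβ
  have hb0 : b ≠ 0 := by
    intro h
    rw [h, inner_zero_right] at hβ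
    exact hb hβ
  have hβ0 : 0 < |β| := abs_pos.2 hb
  set k : E 2 → ℝ≥0∞ := fun a =>
    ENNReal.ofReal (4 * Real.exp (-((T * (2 * ⟪a, b⟫)) ^ 2 / 8))) with hk
  have hkb : ∀ a, ‖V1 T (2 * ⟪a, b⟫)‖ₑ ≤ k a := fun a => by
    rw [← ofReal_norm, Real.norm_eq_abs]
    exact ENNReal.ofReal_le_ofReal (V1_bound T _)
  have ha := a_int T (3 + 4) 4 hT (by norm_num) (by norm_num) b hb0 k (fun a => le_rfl)
  have hGd := Ga_good hg b
  have hlim := far_lim (Ga g b) hGd.1 hGd.integrable T hT b β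
  have hB : ∀ s : ℝ, 0 < s → s ≤ 1 →
      ‖∫ x, Ga g b x * ∫ x', conj (Ga g b x') * ((DV T β s (2 * ⟪x - x', b⟫) : ℝ) : ℂ)‖ₑ ≤
      ENNReal.ofReal (2 * L) * (M * ∫⁻ a in Metric.closedBall (0 : E 2) (3 + 4), k a) := by
    intro s hs hs1
    simp_rw [hβ, far_shift (Ga g b) hGd.integrable T b e s]
    exact far_bd g hg e he M hM L hL s hs hs1 (hLip s hs hs1) T b k (by fun_prop) hkb
  have h1 : ‖∫ x, Ga g b x * ∫ x', conj (Ga g b x') *
      ((2 * β * W1 T (2 * ⟪x - x', b⟫) : ℝ) : ℂ)‖ₑ ≤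
      ENNReal.ofReal (2 * L) * (M * ∫⁻ a in Metric.closedBall (0 : E 2) (3 + 4), k a) := by
    refine le_of_tendsto hlim.enorm ?_
    have : Ioc (0 : ℝ) 1 ∈ 𝓝[>] (0 : ℝ) := Ioc_mem_nhdsGT one_pos
    filter_upwards [this] with s hs
    exact hB s hs.1 hs.2
  have h2 : ∫ x, Ga g b x * ∫ x', conj (Ga g b x') *
      ((2 * β * W1 T (2 * ⟪x - x', b⟫) : ℝ) : ℂ) =
      ((2 * β : ℝ) : ℂ) * ∫ x, Ga g b x * ∫ x', conj (Ga g b x') * Wh (w1 T) (2 * ⟪x - x', b⟫) := by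
    rw [← integral_const_mul]
    refine integral_congr_ae (Eventually.of_forall fun x => ?_)
    simp only
    have h5 : ∫ x', conj (Ga g b x') * ((2 * β * W1 T (2 * ⟪x - x', b⟫) : ℝ) : ℂ) =
        ∫ x', ((2 * β : ℝ) : ℂ) * (conj (Ga g b x') * Wh (w1 T) (2 * ⟪x - x', b⟫)) := by
      refine integral_congr_ae (Eventually.of_forall fun x' => ?_)
      simp only
      rw [Wh_w1 T _ hT]
      push_cast
      ring
    rw [h5, integral_const_mul]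
    ring
  rw [h2, enorm_mul] at h1
  clear h2
  set J : ℝ≥0∞ := ‖∫ x, Ga g b x * ∫ x', conj (Ga g b x') * Wh (w1 T) (2 * ⟪x - x', b⟫)‖ₑ with hJ
  have h3 : ‖((2 * β : ℝ) : ℂ)‖ₑ = ENNReal.ofReal (2 * |β|) := by
    rw [← ofReal_norm, Complex.norm_real, Real.norm_eq_abs, abs_mul, abs_two]
  rw [h3] at h1
  have h4 : J = ENNReal.ofReal (1 / (2 * |β|)) * (ENNReal.ofReal (2 * |β|) * J) := by
    rw [← mul_assoc, ← ENNReal.ofReal_mul (by positivity),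
      show 1 / (2 * |β|) * (2 * |β|) = 1 by field_simp, ENNReal.ofReal_one, one_mul]
  rw [h4]
  calc ENNReal.ofReal (1 / (2 * |β|)) * (ENNReal.ofReal (2 * |β|) * J)
      ≤ ENNReal.ofReal (1 / (2 * |β|)) * (ENNReal.ofReal (2 * L) *
        (M * (ENNReal.ofReal (6 * 4 * (3 + 4) / T) * (ENNReal.ofReal ‖b‖)⁻¹))) := by
        refine mul_le_mul_right (h1.trans ?_) _
        exact mul_le_mul_right (mul_le_mul_right ha _) _
    _ = _ := by
        rw [← ENNReal.ofReal_inv_of_pos hβ0]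
        have e1 : ENNReal.ofReal (168 * (L / T)) * ENNReal.ofReal (|β|⁻¹) =
            ENNReal.ofReal (1 / (2 * |β|)) * ENNReal.ofReal (2 * L) *
              ENNReal.ofReal (6 * 4 * (3 + 4) / T) := by
          rw [← ENNReal.ofReal_mul (by positivity), ← ENNReal.ofReal_mul (by positivity),
            ← ENNReal.ofReal_mul (by positivity)]
          congr 1
          field_simp
          norm_num
        calc _ = (ENNReal.ofReal (1 / (2 * |β|)) * ENNReal.ofReal (2 * L) *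
              ENNReal.ofReal (6 * 4 * (3 + 4) / T)) * (M * (ENNReal.ofReal ‖b‖)⁻¹) := by ring
          _ = _ := by rw [← e1]; ring

end Pool.Agent.J4.H73.EX
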