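import Pool.Agent.J4.H73.EX.Lim2
set_option autoImplicit false

/-! Truncation, and transfer to three space variables. -/

namespace Pool.Agent.J4.H73.EX

open MeasureTheory Complex Set Filter Topology
open scoped ENNReal NNReal RealInnerProductSpace ComplexConjugate

/-- truncation of a complex number -/
noncomputable def tr (n : ℝ) (z : ℂ) : ℂ := ⟨max (-n) (min n z.re), max (-n) (min n z.im)⟩

theorem clamp_lip (n a b : ℝ) : |max (-n) (min n a) - max (-n) (min n b)| ≤ |a - b| := by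
  have h1 := abs_max_sub_max_le_abs (min n a) (min n b) (-n)
  have h2 := abs_min_sub_min_le_max n a n b
  rw [sub_self, abs_zero, max_eq_right (abs_nonneg _)] at h2
  rw [max_comm (-n), max_comm (-n)]
  exact h1.trans h2

theorem tr_lip (n : ℝ) (z w : ℂ) : ‖tr n z - tr n w‖ ≤ ‖z - w‖ := by
  rw [Complex.norm_def, Complex.norm_def]
  apply Real.sqrt_le_sqrt
  rw [Complex.normSq_apply, Complex.normSq_apply]
  simp only [Complex.sub_re, Complex.sub_im, tr]
  have h1 := clamp_lip n z.re w.re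
  have h2 := clamp_lip n z.im w.im
  have h3 := sq_le_sq.2 h1
  have h4 := sq_le_sq.2 h2
  nlinarith

theorem tr_cont (n : ℝ) : Continuous (tr n) := by
  have : LipschitzWith 1 (tr n) := LipschitzWith.of_dist_le_mul fun z w => by
    rw [dist_eq_norm, dist_eq_norm, NNReal.coe_one, one_mul]
    exact tr_lip n z w
  exact this.continuous

theorem tr_zero (n : ℝ) (hn : 0 ≤ n) : tr n 0 = 0 := by
  unfold tr
  apply Complex.ext
  · simp [hn]
  · simp [hn]

theorem tr_norm (n : ℝ) (hn : 0 ≤ n) (z : ℂ) : ‖tr n z‖ ≤ ‖z‖ := by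
  have := tr_lip n z 0
  rwa [tr_zero n hn, sub_zero, sub_zero] at this

theorem tr_eq (n : ℝ) (z : ℂ) (hz : ‖z‖ ≤ n) : tr n z = z := by
  have h1 := abs_le.1 ((Complex.abs_re_le_norm z).trans hz)
  have h2 := abs_le.1 ((Complex.abs_im_le_norm z).trans hz)
  unfold tr
  apply Complex.ext
  · simp [min_eq_right h1.2, h1.1]
  · simp [min_eq_right h2.2, h2.1]

theorem tr_bdd (n : ℝ) (hn : 0 ≤ n) (z : ℂ) : ‖tr n z‖ ≤ 2 * n := by
  refine (Complex.norm_le_abs_re_add_abs_im _).trans ?_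
  have h1 : |(tr n z).re| ≤ n := by
    unfold tr
    simp only
    rw [abs_le]
    exact ⟨le_max_left _ _, max_le (by linarith) (min_le_left _ _)⟩
  have h2 : |(tr n z).im| ≤ n := by
    unfold tr
    simp only
    rw [abs_le]
    exact ⟨le_max_left _ _, max_le (by linarith) (min_le_left _ _)⟩
  linarith

theorem lim_gen (q : ℝ) (hq : 3 < q) (hq4 : q < 4) : ∃ C : ℝ, 0 < C ∧
    ∀ (ε : ℕ → E 2), (∀ k, ‖ε k‖ = 1) → ∀ f : E 2 → ℂ, Measurable f →
    (∀ x, 1 < ‖x‖ → f x = 0) → ∀ ω : ℕ → ℝ≥0∞,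
    (∀ k : ℕ, ∀ u : ℝ, 0 < u → u ≤ 1 / 2 ^ k →
      ∫⁻ x, ‖f (x + u • ε k) - f x‖ₑ ^ q ≤ ω k ^ q) →
    eLpNorm (XX f) (ENNReal.ofReal q) volume ≤
      ENNReal.ofReal C * (eLpNorm f (ENNReal.ofReal q) volume + Bes q ω) := by
  obtain ⟨C, hC, H⟩ := lim_good q hq hq4
  refine ⟨C, hC, ?_⟩
  intro ε hε f hf hsupp ω hmod
  by_cases htop : eLpNorm f (ENNReal.ofReal q) volume = ∞
  · rw [htop, top_add, ENNReal.mul_top (by simpa using hC)]
    exact le_top
  have hmono : ∀ n : ℕ, ∀ x, ‖tr n (f x)‖ₑ ≤ ‖f x‖ₑ := fun n x => by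
    rw [← ofReal_norm, ← ofReal_norm]
    exact ENNReal.ofReal_le_ofReal (tr_norm n (Nat.cast_nonneg n) _)
  have hgd : ∀ n : ℕ, Gd 1 (fun x => tr n (f x)) := fun n =>
    ⟨(tr_cont n).measurable.comp hf, ⟨2 * n, fun x => tr_bdd n (Nat.cast_nonneg n) _⟩,
      fun x hx => by simp only; rw [hsupp x hx, tr_zero n (Nat.cast_nonneg n)]⟩
  have hbd : ∀ n : ℕ, eLpNorm (XX (fun x => tr n (f x))) (ENNReal.ofReal q) volume ≤
      ENNReal.ofReal C * (eLpNorm f (ENNReal.ofReal q) volume + Bes q ω) := by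
    intro n
    refine (H ε hε _ (hgd n) ω ?_).trans ?_
    · intro k u hu hu1
      refine le_trans (lintegral_mono fun x => ?_) (hmod k u hu hu1)
      refine ENNReal.rpow_le_rpow ?_ (by linarith)
      rw [← ofReal_norm, ← ofReal_norm]
      exact ENNReal.ofReal_le_ofReal (tr_lip n _ _)
    · exact mul_le_mul_right (add_le_add
        (eLpNorm_mono fun x => tr_norm n (Nat.cast_nonneg n) _) le_rfl) _
  obtain ⟨c, hc, Hc⟩ := L1_le q (by linarith) 1
  have hL1 : ∫⁻ x, ‖f x‖ₑ ≠ ∞ :=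
    ((Hc f hf hsupp).trans_lt (ENNReal.mul_lt_top (lt_top_iff_ne_top.2 htop)
      (lt_top_iff_ne_top.2 hc))).ne
  have hfi : Integrable f := ⟨hf.aestronglyMeasurable, lt_top_iff_ne_top.2 hL1⟩
  have hconv : Tendsto (fun n : ℕ => ∫⁻ x, ‖tr n (f x) - f x‖ₑ) atTop (𝓝 0) := by
    have h0 : ∫⁻ x : E 2, (0 : ℝ≥0∞) = 0 := by simp
    rw [← h0]
    refine tendsto_lintegral_of_dominated_convergence (fun x => 2 * ‖f x‖ₑ) ?_ ?_ ?_ ?_
    · intro n
      exact (((tr_cont n).measurable.comp hf).sub hf).enorm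
    · intro n
      refine Eventually.of_forall fun x => ?_
      simp only
      rw [sub_eq_add_neg]
      refine (enorm_add_le _ _).trans ?_
      rw [enorm_neg, two_mul]
      exact add_le_add (hmono n x) le_rfl
    · rw [lintegral_const_mul _ hf.enorm]
      exact ENNReal.mul_ne_top (by norm_num) hL1
    · refine Eventually.of_forall fun x => ?_
      refine tendsto_const_nhds.congr' ?_
      obtain ⟨m, hm⟩ := exists_nat_ge ‖f x‖
      filter_upwards [eventually_ge_atTop m] with n hn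
      rw [tr_eq n (f x) (hm.trans (by exact_mod_cast hn)), sub_self, enorm_zero]
  have hlim : ∀ z : ℝ × E 2, Tendsto (fun n : ℕ => XX (fun x => tr n (f x)) z) atTop
      (𝓝 (XX f z)) := fun z =>
    X_tendsto f hfi _ (fun n => (hgd n).integrable) hconv z.1 z.2
  refine (Lp.eLpNorm_lim_le_liminf_eLpNorm (f := fun n : ℕ => XX (fun x => tr n (f x)))
    (fun n => (XX_meas (hgd n)).aestronglyMeasurable) (XX f) (Eventually.of_forall hlim)).trans ?_
  refine (liminf_le_liminf (Eventually.of_forall hbd)).trans ?_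
  simp

theorem lint3 (F : ℝ → E 2 → ℝ≥0∞) (hF : Measurable (Function.uncurry F)) :
    ∫⁻ ξ : E 3, F (ξ 2) (!₂[ξ 0, ξ 1]) = ∫⁻ t, ∫⁻ y, F t y := by
  have hm : Measurable fun ξ : E 3 => F (ξ 2) (!₂[ξ 0, ξ 1]) := by
    refine hF.comp (f := fun ξ : E 3 => (ξ 2, (!₂[ξ 0, ξ 1] : E 2))) ?_
    fun_prop
  have h1 := (PiLp.volume_preserving_toLp (Fin 3)).lintegral_comp hm
  rw [← h1, R412.RT.split_lint (Fin.last 2)]
  · refine lintegral_congr fun r => ?_
    have h2 : Measurable fun y : E 2 => F r y := hF.comp measurable_prodMk_left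
    rw [← (PiLp.volume_preserving_toLp (Fin 2)).lintegral_comp h2]
    refine lintegral_congr fun t => ?_
    congr 1
    ext i
    fin_cases i
    · rfl
    · rfl
  · exact hm.comp (PiLp.volume_preserving_toLp (Fin 3)).measurable

end Pool.Agent.J4.H73.EX
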