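import Pool.Agent.J4.H73.EX.Avg
import Pool.Agent.H438R2.RZ.M1
set_option autoImplicit false

/-! Interpolation. -/

namespace Pool.Agent.J4.H73.EX

open MeasureTheory Complex Set Filter Topology
open scoped ENNReal NNReal RealInnerProductSpace ComplexConjugate

theorem X_add (g₁ g₂ : E 2 → ℂ) (h₁ : Integrable g₁) (h₂ : Integrable g₂) (t : ℝ) (y : E 2) :
    X (fun x => g₁ x + g₂ x) t y = X g₁ t y + X g₂ t y := by
  unfold X
  rw [← integral_add (en_bdd (by fun_prop) h₁) (en_bdd (by fun_prop) h₂)]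
  refine integral_congr_ae (Eventually.of_forall fun x => ?_)
  simp only
  ring

theorem X_sub (g₁ g₂ : E 2 → ℂ) (h₁ : Integrable g₁) (h₂ : Integrable g₂) (t : ℝ) (y : E 2) :
    X (fun x => g₁ x - g₂ x) t y = X g₁ t y - X g₂ t y := by
  unfold X
  rw [← integral_sub (en_bdd (by fun_prop) h₁) (en_bdd (by fun_prop) h₂)]
  refine integral_congr_ae (Eventually.of_forall fun x => ?_)
  simp only
  ring

theorem Gd_ite {R : ℝ} {h : E 2 → ℂ} (hg : Gd R h) (S : Set (E 2)) (hS : MeasurableSet S) :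
    Gd R (S.indicator h) := by
  obtain ⟨hm, ⟨B, hB⟩, hs⟩ := hg
  refine ⟨hm.indicator hS, ⟨B, fun x => ?_⟩, fun x hx => ?_⟩
  · by_cases hx : x ∈ S
    · rw [indicator_of_mem hx]; exact hB x
    · rw [indicator_of_notMem hx, norm_zero]; exact (norm_nonneg _).trans (hB x)
  · by_cases hxS : x ∈ S
    · rw [indicator_of_mem hxS]; exact hs x hx
    · rw [indicator_of_notMem hxS]

theorem P_Gd3 (e : E 2) (he : ‖e‖ = 1) (N : ℝ) (hN : 1 ≤ N) {h : E 2 → ℂ} (hg : Gd 2 h) :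
    Gd 3 (P e N h) := P_good e he N hN hg 3 (by norm_num)

theorem pow_ind (S : Set (E 2)) (h : E 2 → ℂ) (n : ℕ) (hn : n ≠ 0) (hS : MeasurableSet S) :
    ∫⁻ x, ‖S.indicator h x‖ₑ ^ n = ∫⁻ x in S, ENNReal.ofReal ‖h x‖ ^ n := by
  rw [← lintegral_indicator hS]
  refine lintegral_congr fun x => ?_
  by_cases hx : x ∈ S
  · rw [indicator_of_mem hx, indicator_of_mem hx, ofReal_norm]
  · rw [indicator_of_notMem hx, indicator_of_notMem hx, enorm_zero, zero_pow hn]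

theorem P_L2 (e : E 2) (N : ℝ) {h : E 2 → ℂ} (hm : Measurable h) :
    ∫⁻ x, ‖P e N h x‖ₑ ^ 2 ≤ ∫⁻ x, ‖h x‖ₑ ^ 2 := by
  have := Av_Lp e (-(1 / N)) (2 / N) hm 2 (by norm_num)
  simp only [ENNReal.rpow_ofNat] at this
  exact this

theorem P_L4 (e : E 2) (N : ℝ) {h : E 2 → ℂ} (hm : Measurable h) :
    ∫⁻ x, ‖P e N h x‖ₑ ^ 4 ≤ ∫⁻ x, ‖h x‖ₑ ^ 4 := by
  have := Av_Lp e (-(1 / N)) (2 / N) hm 4 (by norm_num)
  simp only [ENNReal.rpow_ofNat] at this
  exact this

theorem interp (q : ℝ) (hq : 3 < q) (hq4 : q < 4) : ∃ C : ℝ, 0 < C ∧ ∀ (e : E 2), ‖e‖ = 1 →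
    ∀ N : ℝ, 1 ≤ N → ∀ (S : Set ℝ), MeasurableSet S → ∀ V M4 : ℝ, 0 < V → 0 < M4 →
    volume S ≤ ENNReal.ofReal V →
    (∀ h, Gd 2 h → ∫⁻ t in S, ∫⁻ y, ‖X (P e N h) t y‖ₑ ^ 4 ≤
      ENNReal.ofReal M4 * ∫⁻ x, ‖h x‖ₑ ^ 4) → ∀ h, Gd 2 h →
    ∫⁻ t in S, ∫⁻ y, ‖X (P e N h) t y‖ₑ ^ q ≤
      ENNReal.ofReal (C * V ^ ((4 - q) / 2) * M4 ^ ((q - 2) / 2)) * ∫⁻ x, ‖h x‖ₑ ^ q := by
  obtain ⟨C0, hC0, H⟩ := H438R2.RZ.marc24 q (by linarith) hq4
  have hpi := Real.pi_pos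
  refine ⟨C0 * ((2 * Real.pi) ^ 2) ^ ((4 - q) / 2), by positivity, ?_⟩
  intro e he N hN S hS V M4 hV hM4 hvol h4 h hh
  have hXm : ∀ k : E 2 → ℂ, Gd 2 k → Measurable fun z : ℝ × E 2 => X (P e N k) z.1 z.2 :=
    fun k hk => X_meas _ (P_Gd3 e he N hN hk).integrable.aestronglyMeasurable
  have hm := hh.1
  have key := H (X := E 2) (Y := ℝ × E 2) volume ((volume.restrict S).prod volume)
    (fun z => ‖X (P e N h) z.1 z.2‖) (fun x => ‖h x‖) (hXm h hh).norm hm.norm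
    (fun z => norm_nonneg _) (fun x => norm_nonneg _) ((2 * Real.pi) ^ 2 * V) M4 (by positivity)
    hM4 (by
      intro t ht
      have hS1 : MeasurableSet {x : E 2 | t < ‖h x‖} := measurableSet_lt measurable_const hm.norm
      have hS2 : MeasurableSet {x : E 2 | ‖h x‖ ≤ t} := measurableSet_le hm.norm measurable_const
      set h1 : E 2 → ℂ := {x : E 2 | t < ‖h x‖}.indicator h with hh1
      set h2 : E 2 → ℂ := {x : E 2 | ‖h x‖ ≤ t}.indicator h with hh2
      have g1 : Gd 2 h1 := Gd_ite hh _ hS1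
      have g2 : Gd 2 h2 := Gd_ite hh _ hS2
      refine ⟨fun z => ‖X (P e N h1) z.1 z.2‖ₑ, fun z => ‖X (P e N h2) z.1 z.2‖ₑ,
        (hXm h1 g1).enorm, (hXm h2 g2).enorm, ?_, ?_, ?_⟩
      · refine Eventually.of_forall fun z => ?_
        have e1 : h = fun x => h1 x + h2 x := by
          ext x
          rw [hh1, hh2]
          by_cases hx : t < ‖h x‖
          · rw [indicator_of_mem (show x ∈ {x : E 2 | t < ‖h x‖} from hx),
              indicator_of_notMem (show x ∉ {x : E 2 | ‖h x‖ ≤ t} from fun h' => not_le.2 hx h'),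
              add_zero]
          · rw [indicator_of_notMem (show x ∉ {x : E 2 | t < ‖h x‖} from hx),
              indicator_of_mem (show x ∈ {x : E 2 | ‖h x‖ ≤ t} from not_lt.1 hx), zero_add]
        have e2 : P e N h = fun x => P e N h1 x + P e N h2 x := by
          ext x
          conv_lhs => rw [e1]
          exact Av_add e _ _ g1 g2 x
        rw [ofReal_norm, e2, X_add _ _ (P_Gd3 e he N hN g1).integrable
          (P_Gd3 e he N hN g2).integrable]
        exact enorm_add_le _ _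
      · rw [lintegral_prod _ ((hXm h1 g1).enorm.pow_const 2).aemeasurable]
        calc ∫⁻ t in S, ∫⁻ y, ‖X (P e N h1) t y‖ₑ ^ 2
            ≤ ∫⁻ t in S, ENNReal.ofReal ((2 * Real.pi) ^ 2) * ∫⁻ x, ‖h1 x‖ₑ ^ 2 := by
              refine lintegral_mono fun t => ?_
              refine (X_L2 _ (P_Gd3 e he N hN g1).integrable t).trans ?_
              exact mul_le_mul_right (P_L2 e N g1.1) _
          _ = ENNReal.ofReal ((2 * Real.pi) ^ 2) * (∫⁻ x, ‖h1 x‖ₑ ^ 2) * volume S := by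
              rw [setLIntegral_const]
          _ ≤ ENNReal.ofReal ((2 * Real.pi) ^ 2) * (∫⁻ x, ‖h1 x‖ₑ ^ 2) * ENNReal.ofReal V := by
              gcongr
          _ = _ := by
              rw [hh1, pow_ind _ h 2 (by norm_num) hS1, ENNReal.ofReal_mul (by positivity)]
              ring
      · rw [lintegral_prod _ ((hXm h2 g2).enorm.pow_const 4).aemeasurable,
          ← pow_ind _ h 4 (by norm_num) hS2]
        exact h4 h2 g2)
  simp only [ofReal_norm] at key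
  rw [lintegral_prod _ ((hXm h hh).enorm.pow_const q).aemeasurable] at key
  refine key.trans (le_of_eq ?_)
  congr 2
  rw [Real.mul_rpow (by positivity) hV.le]
  ring

end Pool.Agent.J4.H73.EX
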