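import Pool.Agent.J4.H73.EX.Coord
set_option autoImplicit false

/-! Kernel integrals. -/

namespace Pool.Agent.J4.H73.EX

open MeasureTheory Complex Set Filter Topology
open scoped ENNReal NNReal RealInnerProductSpace ComplexConjugate

theorem lint_abs (G : ℝ → ℝ≥0∞) : ∫⁻ s : ℝ, G |s| = 2 * ∫⁻ s in Ioi (0 : ℝ), G s := by
  rw [← lintegral_add_compl _ (measurableSet_Ioi (a := (0 : ℝ))), compl_Ioi, two_mul]
  congr 1
  · refine setLIntegral_congr_fun measurableSet_Ioi fun s hs => ?_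
    rw [abs_of_pos hs]
  · rw [setLIntegral_congr Ioi_ae_eq_Ici, ← lintegral_indicator measurableSet_Iic,
      ← lintegral_indicator measurableSet_Ici, ← lintegral_neg_eq_self]
    refine lintegral_congr fun s => ?_
    by_cases h : 0 ≤ s
    · rw [indicator_of_mem (show -s ∈ Iic (0 : ℝ) by simpa using h),
        indicator_of_mem (show s ∈ Ici (0 : ℝ) from h), abs_neg, abs_of_nonneg h]
    · rw [indicator_of_notMem (show -s ∉ Iic (0 : ℝ) by simpa using h),
        indicator_of_notMem (show s ∉ Ici (0 : ℝ) from h)]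

/-- power integral near zero -/
theorem pow_near (κ δ : ℝ) (hκ : κ < 1) (hδ : 0 ≤ δ) :
    ∫⁻ s : ℝ, (if |s| ≤ δ then ENNReal.ofReal |s| ^ (-κ) else 0) ≤
      ENNReal.ofReal (2 * δ ^ (1 - κ) / (1 - κ)) := by
  rw [lint_abs (fun s => if s ≤ δ then ENNReal.ofReal s ^ (-κ) else 0)]
  have h1 : ∫⁻ s in Ioi (0 : ℝ), (if s ≤ δ then ENNReal.ofReal s ^ (-κ) else 0) =
      ∫⁻ s in Ioc (0 : ℝ) δ, ENNReal.ofReal (s ^ (-κ)) := by
    rw [← lintegral_indicator measurableSet_Ioi, ← lintegral_indicator measurableSet_Ioc]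
    refine lintegral_congr fun s => ?_
    by_cases hs : 0 < s
    · rw [indicator_of_mem (show s ∈ Ioi (0 : ℝ) from hs)]
      by_cases h : s ≤ δ
      · rw [if_pos h, indicator_of_mem (show s ∈ Ioc (0 : ℝ) δ from ⟨hs, h⟩),
          ENNReal.ofReal_rpow_of_pos hs]
      · rw [if_neg h, indicator_of_notMem]
        exact fun h' => h h'.2
    · rw [indicator_of_notMem (show s ∉ Ioi (0 : ℝ) from hs), indicator_of_notMem]
      exact fun h' => hs h'.1
  have hint : IntegrableOn (fun s : ℝ => s ^ (-κ)) (Ioc 0 δ) := by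
    have := intervalIntegral.intervalIntegrable_rpow' (a := 0) (b := δ) (r := -κ) (by linarith)
    rwa [intervalIntegrable_iff_integrableOn_Ioc_of_le hδ] at this
  rw [h1, ← ofReal_integral_eq_lintegral_ofReal hint]
  · rw [← intervalIntegral.integral_of_le hδ, integral_rpow (Or.inl (by linarith)),
      show (2 : ℝ≥0∞) = ENNReal.ofReal 2 by norm_num, ← ENNReal.ofReal_mul (by norm_num)]
    apply ENNReal.ofReal_le_ofReal
    rw [show -κ + 1 = 1 - κ by ring, Real.zero_rpow (by linarith), sub_zero, mul_div_assoc]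
  · rw [Filter.EventuallyLE, ae_restrict_iff' measurableSet_Ioc]
    exact Filter.Eventually.of_forall fun s hs => Real.rpow_nonneg hs.1.le _

/-- power integral away from zero -/
theorem pow_far (κ δ : ℝ) (hκ : 0 < κ) (hδ : 0 < δ) :
    ∫⁻ s : ℝ, (if δ < |s| then ENNReal.ofReal |s| ^ (-(1 + κ)) else 0) ≤
      ENNReal.ofReal (2 * δ ^ (-κ) / κ) := by
  rw [lint_abs (fun s => if δ < s then ENNReal.ofReal s ^ (-(1 + κ)) else 0)]
  have h1 : ∫⁻ s in Ioi (0 : ℝ), (if δ < s then ENNReal.ofReal s ^ (-(1 + κ)) else 0) =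
      ∫⁻ s in Ioi δ, ENNReal.ofReal (s ^ (-(1 + κ))) := by
    rw [← lintegral_indicator measurableSet_Ioi, ← lintegral_indicator measurableSet_Ioi]
    refine lintegral_congr fun s => ?_
    by_cases h : δ < s
    · rw [indicator_of_mem (show s ∈ Ioi (0 : ℝ) from hδ.trans h), if_pos h,
        indicator_of_mem (show s ∈ Ioi δ from h), ENNReal.ofReal_rpow_of_pos (hδ.trans h)]
    · rw [indicator_of_notMem (show s ∉ Ioi δ from h)]
      by_cases hs : 0 < s
      · rw [indicator_of_mem (show s ∈ Ioi (0 : ℝ) from hs), if_neg h]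
      · rw [indicator_of_notMem (show s ∉ Ioi (0 : ℝ) from hs)]
  have hint : IntegrableOn (fun s : ℝ => s ^ (-(1 + κ))) (Ioi δ) :=
    integrableOn_Ioi_rpow_of_lt (by linarith) hδ
  rw [h1, ← ofReal_integral_eq_lintegral_ofReal hint]
  · rw [integral_Ioi_rpow_of_lt (by linarith) hδ,
      show (2 : ℝ≥0∞) = ENNReal.ofReal 2 by norm_num, ← ENNReal.ofReal_mul (by norm_num)]
    apply ENNReal.ofReal_le_ofReal
    rw [show -(1 + κ) + 1 = -κ by ring, neg_div_neg_eq, mul_div_assoc]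
  · rw [Filter.EventuallyLE, ae_restrict_iff' measurableSet_Ioi]
    exact Filter.Eventually.of_forall fun s hs => Real.rpow_nonneg (hδ.le.trans (le_of_lt hs)) _

theorem inv_le_split (κ : ℝ) (h0 : 0 < κ) (h1 : κ < 1) (B s t : ℝ) (hs : |s| ≤ B) (ht : |t| ≤ B) :
    (ENNReal.ofReal B)⁻¹ ≤ ENNReal.ofReal |s| ^ (-κ) * ENNReal.ofReal |t| ^ (-(1 - κ)) := by
  rcases eq_or_lt_of_le ((abs_nonneg s).trans hs) with hB | hB
  · have hs0 : |s| = 0 := le_antisymm (hB ▸ hs) (abs_nonneg _)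
    have ht0 : |t| = 0 := le_antisymm (hB ▸ ht) (abs_nonneg _)
    rw [hs0, ht0, ENNReal.ofReal_zero, ENNReal.zero_rpow_of_neg (by linarith),
      ENNReal.zero_rpow_of_neg (by linarith)]
    simp
  · calc (ENNReal.ofReal B)⁻¹ = ENNReal.ofReal B ^ (-κ) * ENNReal.ofReal B ^ (-(1 - κ)) := by
          rw [← ENNReal.rpow_add _ _ (by simpa using hB) ENNReal.ofReal_ne_top,
            ← ENNReal.rpow_neg_one]
          congr 1
          ring
      _ ≤ _ := by
          refine mul_le_mul' ?_ ?_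
          · rw [ENNReal.rpow_neg, ENNReal.rpow_neg]
            exact ENNReal.inv_le_inv.2 (ENNReal.rpow_le_rpow (ENNReal.ofReal_le_ofReal hs) h0.le)
          · rw [ENNReal.rpow_neg, ENNReal.rpow_neg]
            exact ENNReal.inv_le_inv.2 (ENNReal.rpow_le_rpow (ENNReal.ofReal_le_ofReal ht)
              (by linarith))

theorem meas_near (κ δ : ℝ) :
    Measurable fun s : ℝ => (if |s| ≤ δ then ENNReal.ofReal |s| ^ (-κ) else 0) :=
  Measurable.ite (measurableSet_le (by fun_prop) measurable_const)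
    ((ENNReal.measurable_ofReal.comp (by fun_prop)).pow_const _) measurable_const

theorem meas_far (κ δ : ℝ) :
    Measurable fun s : ℝ => (if δ < |s| then ENNReal.ofReal |s| ^ (-(1 + κ)) else 0) :=
  Measurable.ite (measurableSet_lt measurable_const (by fun_prop))
    ((ENNReal.measurable_ofReal.comp (by fun_prop)).pow_const _) measurable_const

/-- near part of the `b`-integral -/
theorem b_near (κ : ℝ) (h0 : 0 < κ) (h1 : κ < 1) (e : E 2) (he : ‖e‖ = 1) (δ r : ℝ) (hδ : 0 < δ)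
    (hr : 0 < r) :
    ∫⁻ b : E 2, (if ‖b‖ ≤ r ∧ |⟪e, b⟫| ≤ δ then (ENNReal.ofReal ‖b‖)⁻¹ else 0) ≤
      ENNReal.ofReal (4 * r ^ κ / (κ * (1 - κ)) * δ ^ (1 - κ)) := by
  obtain ⟨n, hn, hpyth, hF⟩ := lint_coord e he
  have hle : ∀ b : E 2, |⟪e, b⟫| ≤ ‖b‖ ∧ |⟪n, b⟫| ≤ ‖b‖ := by
    intro b
    constructor
    · have := abs_real_inner_le_norm e b
      rwa [he, one_mul] at this
    · have := abs_real_inner_le_norm n b
      rwa [hn, one_mul] at this
  calc ∫⁻ b : E 2, (if ‖b‖ ≤ r ∧ |⟪e, b⟫| ≤ δ then (ENNReal.ofReal ‖b‖)⁻¹ else 0)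
      ≤ ∫⁻ b : E 2, (if |⟪e, b⟫| ≤ δ then ENNReal.ofReal |⟪e, b⟫| ^ (-κ) else 0) *
          (if |⟪n, b⟫| ≤ r then ENNReal.ofReal |⟪n, b⟫| ^ (-(1 - κ)) else 0) := by
        refine lintegral_mono fun b => ?_
        simp only
        by_cases h : ‖b‖ ≤ r ∧ |⟪e, b⟫| ≤ δ
        · rw [if_pos h, if_pos h.2, if_pos ((hle b).2.trans h.1)]
          exact inv_le_split κ h0 h1 _ _ _ (hle b).1 (hle b).2
        · rw [if_neg h]; exact zero_le
    _ = ∫⁻ s : ℝ, ∫⁻ t : ℝ, (if |s| ≤ δ then ENNReal.ofReal |s| ^ (-κ) else 0) *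
          (if |t| ≤ r then ENNReal.ofReal |t| ^ (-(1 - κ)) else 0) := by
        refine hF (fun s t => (if |s| ≤ δ then ENNReal.ofReal |s| ^ (-κ) else 0) *
          (if |t| ≤ r then ENNReal.ofReal |t| ^ (-(1 - κ)) else 0)) ?_
        exact ((meas_near κ δ).comp measurable_fst).mul ((meas_near (1 - κ) r).comp measurable_snd)
    _ = (∫⁻ s : ℝ, (if |s| ≤ δ then ENNReal.ofReal |s| ^ (-κ) else 0)) *
          ∫⁻ t : ℝ, (if |t| ≤ r then ENNReal.ofReal |t| ^ (-(1 - κ)) else 0) := by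
        rw [← lintegral_mul_const _ (meas_near κ δ)]
        refine lintegral_congr fun s => ?_
        rw [lintegral_const_mul _ (meas_near (1 - κ) r)]
    _ ≤ ENNReal.ofReal (2 * δ ^ (1 - κ) / (1 - κ)) *
          ENNReal.ofReal (2 * r ^ (1 - (1 - κ)) / (1 - (1 - κ))) :=
        mul_le_mul' (pow_near κ δ h1 hδ.le) (pow_near (1 - κ) r (by linarith) hr.le)
    _ = _ := by
        have h2 : 0 < 1 - κ := by linarith
        rw [← ENNReal.ofReal_mul (by positivity)]
        congr 1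
        rw [show 1 - (1 - κ) = κ by ring]
        field_simp
        ring

/-- far part of the `b`-integral -/
theorem b_far (κ : ℝ) (h0 : 0 < κ) (h1 : κ < 1) (e : E 2) (he : ‖e‖ = 1) (δ r : ℝ) (hδ : 0 < δ)
    (hr : 0 < r) :
    ∫⁻ b : E 2, (if ‖b‖ ≤ r ∧ δ < |⟪e, b⟫| then
        (ENNReal.ofReal |⟪e, b⟫|)⁻¹ * (ENNReal.ofReal ‖b‖)⁻¹ else 0) ≤
      ENNReal.ofReal (4 * r ^ κ / (κ * κ) * δ ^ (-κ)) := by
  obtain ⟨n, hn, hpyth, hF⟩ := lint_coord e he
  have hle : ∀ b : E 2, |⟪e, b⟫| ≤ ‖b‖ ∧ |⟪n, b⟫| ≤ ‖b‖ := by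
    intro b
    constructor
    · have := abs_real_inner_le_norm e b
      rwa [he, one_mul] at this
    · have := abs_real_inner_le_norm n b
      rwa [hn, one_mul] at this
  calc ∫⁻ b : E 2, (if ‖b‖ ≤ r ∧ δ < |⟪e, b⟫| then
        (ENNReal.ofReal |⟪e, b⟫|)⁻¹ * (ENNReal.ofReal ‖b‖)⁻¹ else 0)
      ≤ ∫⁻ b : E 2, (if δ < |⟪e, b⟫| then ENNReal.ofReal |⟪e, b⟫| ^ (-(1 + κ)) else 0) *
          (if |⟪n, b⟫| ≤ r then ENNReal.ofReal |⟪n, b⟫| ^ (-(1 - κ)) else 0) := by
        refine lintegral_mono fun b => ?_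
        simp only
        by_cases h : ‖b‖ ≤ r ∧ δ < |⟪e, b⟫|
        · rw [if_pos h, if_pos h.2, if_pos ((hle b).2.trans h.1)]
          have h2 : 0 < |⟪e, b⟫| := hδ.trans h.2
          rw [show -(1 + κ) = -1 + -κ by ring, ENNReal.rpow_add _ _ (by simpa using h2)
            ENNReal.ofReal_ne_top, ENNReal.rpow_neg_one, mul_assoc]
          exact mul_le_mul_right (inv_le_split κ h0 h1 _ _ _ (hle b).1 (hle b).2) _
        · rw [if_neg h]; exact zero_le
    _ = ∫⁻ s : ℝ, ∫⁻ t : ℝ, (if δ < |s| then ENNReal.ofReal |s| ^ (-(1 + κ)) else 0) *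
          (if |t| ≤ r then ENNReal.ofReal |t| ^ (-(1 - κ)) else 0) := by
        refine hF (fun s t => (if δ < |s| then ENNReal.ofReal |s| ^ (-(1 + κ)) else 0) *
          (if |t| ≤ r then ENNReal.ofReal |t| ^ (-(1 - κ)) else 0)) ?_
        exact ((meas_far κ δ).comp measurable_fst).mul ((meas_near (1 - κ) r).comp measurable_snd)
    _ = (∫⁻ s : ℝ, (if δ < |s| then ENNReal.ofReal |s| ^ (-(1 + κ)) else 0)) *
          ∫⁻ t : ℝ, (if |t| ≤ r then ENNReal.ofReal |t| ^ (-(1 - κ)) else 0) := by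
        rw [← lintegral_mul_const _ (meas_far κ δ)]
        refine lintegral_congr fun s => ?_
        rw [lintegral_const_mul _ (meas_near (1 - κ) r)]
    _ ≤ ENNReal.ofReal (2 * δ ^ (-κ) / κ) *
          ENNReal.ofReal (2 * r ^ (1 - (1 - κ)) / (1 - (1 - κ))) :=
        mul_le_mul' (pow_far κ δ h0 hδ) (pow_near (1 - κ) r (by linarith) hr.le)
    _ = _ := by
        rw [← ENNReal.ofReal_mul (by positivity)]
        congr 1
        rw [show 1 - (1 - κ) = κ by ring]
        field_simp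
        ring

/-- Gaussian integral over a ball -/
theorem a_int (T r c : ℝ) (hT : 0 < T) (hr : 0 < r) (hc : 0 ≤ c) (b : E 2) (hb : b ≠ 0)
    (k : E 2 → ℝ≥0∞) (hk : ∀ a, k a ≤ ENNReal.ofReal (c * Real.exp (-((T * (2 * ⟪a, b⟫)) ^ 2 / 8)))) :
    ∫⁻ a in Metric.closedBall (0 : E 2) r, k a ≤ ENNReal.ofReal (6 * c * r / T) *
      (ENNReal.ofReal ‖b‖)⁻¹ := by
  have hb' : 0 < ‖b‖ := norm_pos_iff.2 hb
  set e : E 2 := ‖b‖⁻¹ • b with he
  have he1 : ‖e‖ = 1 := by
    rw [he, norm_smul, norm_inv, norm_norm, inv_mul_cancel₀ hb'.ne']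
  have hbe : b = ‖b‖ • e := by
    rw [he, smul_smul, mul_inv_cancel₀ hb'.ne', one_smul]
  obtain ⟨n, hn, hpyth, hF⟩ := lint_coord e he1
  have hm1 : Measurable fun s : ℝ => ENNReal.ofReal (c * Real.exp (-(T ^ 2 * ‖b‖ ^ 2 / 2 * s ^ 2))) := by
    fun_prop
  have hm2 : Measurable fun t : ℝ => (if |t| ≤ r then (1 : ℝ≥0∞) else 0) :=
    Measurable.ite (measurableSet_le (by fun_prop) measurable_const) measurable_const
      measurable_const
  calc ∫⁻ a in Metric.closedBall (0 : E 2) r, k a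
      ≤ ∫⁻ a : E 2, ENNReal.ofReal (c * Real.exp (-(T ^ 2 * ‖b‖ ^ 2 / 2 * ⟪e, a⟫ ^ 2))) *
          (if |⟪n, a⟫| ≤ r then 1 else 0) := by
        rw [← lintegral_indicator Metric.isClosed_closedBall.measurableSet]
        refine lintegral_mono fun a => ?_
        by_cases ha : a ∈ Metric.closedBall (0 : E 2) r
        · rw [indicator_of_mem ha]
          rw [mem_closedBall_zero_iff] at ha
          have h2 : |⟪n, a⟫| ≤ r := by
            have := abs_real_inner_le_norm n a
            rw [hn, one_mul] at this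
            exact this.trans ha
          simp only
          rw [if_pos h2, mul_one]
          refine (hk a).trans (le_of_eq ?_)
          congr 3
          have : ⟪a, b⟫ = ‖b‖ * ⟪e, a⟫ := by
            conv_lhs => rw [hbe]
            rw [inner_smul_right, real_inner_comm]
          rw [this]
          ring
        · rw [indicator_of_notMem ha]; exact zero_le
    _ = ∫⁻ s : ℝ, ∫⁻ t : ℝ, ENNReal.ofReal (c * Real.exp (-(T ^ 2 * ‖b‖ ^ 2 / 2 * s ^ 2))) *
          (if |t| ≤ r then 1 else 0) := by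
        refine hF (fun s t => ENNReal.ofReal (c * Real.exp (-(T ^ 2 * ‖b‖ ^ 2 / 2 * s ^ 2))) *
          (if |t| ≤ r then 1 else 0)) ?_
        exact (hm1.comp measurable_fst).mul (hm2.comp measurable_snd)
    _ = (∫⁻ s : ℝ, ENNReal.ofReal (c * Real.exp (-(T ^ 2 * ‖b‖ ^ 2 / 2 * s ^ 2)))) *
          ∫⁻ t : ℝ, (if |t| ≤ r then 1 else 0) := by
        rw [← lintegral_mul_const _ hm1]
        refine lintegral_congr fun s => ?_
        rw [lintegral_const_mul _ hm2]
    _ = ENNReal.ofReal (c * Real.sqrt (Real.pi / (T ^ 2 * ‖b‖ ^ 2 / 2))) *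
          ENNReal.ofReal (2 * r) := by
        congr 1
        · rw [← integral_gaussian, ← integral_const_mul,
            ofReal_integral_eq_lintegral_ofReal]
          · refine lintegral_congr fun s => ?_
            rw [neg_mul]
          · exact (integrable_exp_neg_mul_sq (by positivity)).const_mul _
          · exact Eventually.of_forall fun s => by positivity
        · have h3 : ∫⁻ t : ℝ, (if |t| ≤ r then (1 : ℝ≥0∞) else 0) =
              ∫⁻ t : ℝ, (Icc (-r) r).indicator (fun _ => 1) t := by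
            refine lintegral_congr fun t => ?_
            simp only [indicator_apply, mem_Icc, abs_le]
          rw [h3, lintegral_indicator measurableSet_Icc, setLIntegral_const, one_mul,
            Real.volume_Icc]
          congr 1
          ring
    _ ≤ _ := by
        rw [← ENNReal.ofReal_inv_of_pos hb', ← ENNReal.ofReal_mul (by positivity),
          ← ENNReal.ofReal_mul (by positivity)]
        apply ENNReal.ofReal_le_ofReal
        have h4 : Real.sqrt (Real.pi / (T ^ 2 * ‖b‖ ^ 2 / 2)) ≤ 3 / (T * ‖b‖) := by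
          rw [Real.sqrt_le_left (by positivity)]
          rw [div_pow, div_le_div_iff₀ (by positivity) (by positivity)]
          have := Real.pi_le_four
          nlinarith [mul_pos (pow_pos hT 2) (pow_pos hb' 2), mul_pow T ‖b‖ 2]
        calc c * Real.sqrt (Real.pi / (T ^ 2 * ‖b‖ ^ 2 / 2)) * (2 * r)
            ≤ c * (3 / (T * ‖b‖)) * (2 * r) := by gcongr
          _ = _ := by
            field_simp
            ring

end Pool.Agent.J4.H73.EX
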