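import Pool.Agent.J4.H73.EX.Basic
set_option autoImplicit false

/-! The extension operator on horizontal planes: the `L²` and the `L⁴` inequality. -/

namespace Pool.Agent.J4.H73.EX

open MeasureTheory Complex Set Filter Topology
open scoped ENNReal NNReal RealInnerProductSpace ComplexConjugate

/-- the extension operator of the paraboloid at height `t` -/
noncomputable def X (g : E 2 → ℂ) (t : ℝ) (y : E 2) : ℂ :=
  ∫ x, en (⟪x, y⟫ + ‖x‖ ^ 2 * t) * g x

theorem en_bdd {α : Type*} [MeasurableSpace α] {μ : Measure α} {φ : α → ℝ} (hφ : Measurable φ)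
    {g : α → ℂ} (hg : Integrable g μ) : Integrable (fun x => en (φ x) * g x) μ :=
  hg.bdd_mul (c := 1) (en_meas.comp hφ).aestronglyMeasurable
    (Eventually.of_forall fun x => (en_norm _).le)

theorem X_L2 (g : E 2 → ℂ) (hg : Integrable g) (t : ℝ) :
    ∫⁻ y, ‖X g t y‖ₑ ^ 2 ≤ ENNReal.ofReal ((2 * Real.pi) ^ 2) * ∫⁻ x, ‖g x‖ₑ ^ 2 := by
  have h := planch_n (fun x => en (‖x‖ ^ 2 * t) * g x) (en_bdd (by fun_prop) hg)
  have h1 : ∀ y : E 2, X g t y = ∫ x, en ⟪x, y⟫ * (en (‖x‖ ^ 2 * t) * g x) := by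
    intro y
    unfold X
    congr 1
    ext x
    rw [en_add, mul_assoc]
  simp_rw [h1]
  refine h.trans (le_of_eq ?_)
  congr 1
  refine lintegral_congr fun x => ?_
  rw [enorm_mul]
  have : ‖en (‖x‖ ^ 2 * t)‖ₑ = 1 := by
    rw [← ofReal_norm, en_norm, ENNReal.ofReal_one]
  rw [this, one_mul]

theorem en_enorm (s : ℝ) : ‖en s‖ₑ = 1 := by
  rw [← ofReal_norm, en_norm, ENNReal.ofReal_one]

theorem X_meas (g : E 2 → ℂ) (hg : AEStronglyMeasurable g) :
    Measurable (fun p : ℝ × E 2 => X g p.1 p.2) := by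
  obtain ⟨g', hg', hgg⟩ := hg
  have h1 : (fun p : ℝ × E 2 => X g p.1 p.2) = fun p : ℝ × E 2 => X g' p.1 p.2 := by
    ext p
    unfold X
    refine integral_congr_ae ?_
    filter_upwards [hgg] with x hx
    rw [hx]
  rw [h1]
  unfold X
  have : StronglyMeasurable (Function.uncurry fun (p : ℝ × E 2) (x : E 2) =>
      en (⟪x, p.2⟫ + ‖x‖ ^ 2 * p.1) * g' x) := by
    refine StronglyMeasurable.mul ?_ (hg'.comp_measurable measurable_snd)
    refine (en_meas.comp ?_).stronglyMeasurable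
    fun_prop
  exact this.integral_prod_right.measurable

/-- the correlation -/
noncomputable def Ga (g : E 2 → ℂ) (b x : E 2) : ℂ := g x * conj (g (x - b))

theorem X_L4 (g : E 2 → ℂ) (hg : Integrable g) (t : ℝ) :
    ∫⁻ y, ‖X g t y‖ₑ ^ 4 ≤ ENNReal.ofReal ((2 * Real.pi) ^ 2) *
      ∫⁻ b, ‖∫ x, en (2 * ⟪x, b⟫ * t) * Ga g b x‖ₑ ^ 2 := by
  set B : E 2 → ℂ := fun b => en (-(‖b‖ ^ 2 * t)) * ∫ x, en (2 * ⟪x, b⟫ * t) * Ga g b x with hB
  have hF : ∀ y : E 2, Integrable (fun x => en (⟪x, y⟫ + ‖x‖ ^ 2 * t) * g x) := fun y =>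
    en_bdd (by fun_prop) hg
  have hG : ∀ y : E 2, Integrable (fun z => conj (en (⟪-z, y⟫ + ‖-z‖ ^ 2 * t) * g (-z))) := fun y =>
    (Complex.conjLIE.toContinuousLinearEquiv.integrable_comp_iff).2 (hF y).comp_neg
  have hconv : ∀ y b : E 2, (∫ x, (en (⟪x, y⟫ + ‖x‖ ^ 2 * t) * g x) *
      conj (en (⟪-(b - x), y⟫ + ‖-(b - x)‖ ^ 2 * t) * g (-(b - x)))) = en ⟪b, y⟫ * B b := by
    intro y b
    rw [hB]
    simp only
    rw [← mul_assoc, ← en_add, ← integral_const_mul]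
    congr 1
    ext x
    unfold Ga
    rw [neg_sub, map_mul, en_conj]
    rw [show en (⟪b, y⟫ + -(‖b‖ ^ 2 * t)) * (en (2 * ⟪x, b⟫ * t) * (g x * conj (g (x - b)))) =
      (en (⟪b, y⟫ + -(‖b‖ ^ 2 * t)) * en (2 * ⟪x, b⟫ * t)) * (g x * conj (g (x - b))) by ring]
    rw [show en (⟪x, y⟫ + ‖x‖ ^ 2 * t) * g x *
      (en (-(⟪x - b, y⟫ + ‖x - b‖ ^ 2 * t)) * conj (g (x - b))) =
      (en (⟪x, y⟫ + ‖x‖ ^ 2 * t) * en (-(⟪x - b, y⟫ + ‖x - b‖ ^ 2 * t))) *
        (g x * conj (g (x - b))) by ring]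
    rw [← en_add, ← en_add]
    congr 2
    rw [inner_sub_left, @norm_sub_sq_real]
    ring
  have hkey : ∀ y : E 2, X g t y * conj (X g t y) = ∫ b, en ⟪b, y⟫ * B b := by
    intro y
    have h := integral_convolution (L := ContinuousLinearMap.mul ℝ ℂ) (μ := volume) (ν := volume)
      (hF y) (hG y)
    simp only [convolution, ContinuousLinearMap.mul_apply'] at h
    simp_rw [hconv y] at h
    rw [h]
    unfold X
    congr 1
    rw [integral_neg_eq_self (fun z => conj (en (⟪z, y⟫ + ‖z‖ ^ 2 * t) * g z)), integral_conj]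
  have hBi : Integrable B := by
    have h := (hF 0).integrable_convolution (L := ContinuousLinearMap.mul ℝ ℂ) (hG 0)
    refine h.congr (Eventually.of_forall fun b => ?_)
    simp only [convolution, ContinuousLinearMap.mul_apply']
    rw [hconv 0 b, inner_zero_right, en_zero, one_mul]
  have h := planch_n B hBi
  calc ∫⁻ y, ‖X g t y‖ₑ ^ 4 = ∫⁻ y, ‖∫ b, en ⟪b, y⟫ * B b‖ₑ ^ 2 := by
        refine lintegral_congr fun y => ?_
        rw [← hkey y, enorm_mul]
        have : ‖conj (X g t y)‖ₑ = ‖X g t y‖ₑ := by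
          rw [← ofReal_norm, ← ofReal_norm, RCLike.norm_conj]
        rw [this]
        ring
    _ ≤ ENNReal.ofReal ((2 * Real.pi) ^ 2) * ∫⁻ b, ‖B b‖ₑ ^ 2 := h
    _ = _ := by
        congr 1
        refine lintegral_congr fun b => ?_
        rw [hB]
        simp only
        rw [enorm_mul, en_enorm, one_mul]

end Pool.Agent.J4.H73.EX
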