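import Pool.Agent.J4.H73.EX.Tele
set_option autoImplicit false

/-! Summation of the telescoping series. -/

namespace Pool.Agent.J4.H73.EX

open MeasureTheory Complex Set Filter Topology
open scoped ENNReal NNReal RealInnerProductSpace ComplexConjugate

theorem eLp_le (q : ℝ) (hq : 0 < q) (g : E 2 → ℂ) (B : ℝ≥0∞) (h : ∫⁻ x, ‖g x‖ₑ ^ q ≤ B ^ q) :
    eLpNorm g (ENNReal.ofReal q) volume ≤ B := by
  have hp0 : ENNReal.ofReal q ≠ 0 := by
    simp only [ne_eq, ENNReal.ofReal_eq_zero, not_le]; exact hq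
  rw [eLpNorm_eq_lintegral_rpow_enorm_toReal hp0 ENNReal.ofReal_ne_top, ENNReal.toReal_ofReal hq.le]
  refine (ENNReal.rpow_le_rpow h (by positivity)).trans (le_of_eq ?_)
  rw [← ENNReal.rpow_mul, mul_one_div_cancel hq.ne', ENNReal.rpow_one]

theorem XX_add (g₁ g₂ : E 2 → ℂ) (h₁ : Integrable g₁) (h₂ : Integrable g₂) :
    XX (fun x => g₁ x + g₂ x) = XX g₁ + XX g₂ := by
  ext z
  exact X_add g₁ g₂ h₁ h₂ z.1 z.2

theorem XX_sub (g₁ g₂ : E 2 → ℂ) (h₁ : Integrable g₁) (h₂ : Integrable g₂) :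
    XX (fun x => g₁ x - g₂ x) = XX g₁ - XX g₂ := by
  ext z
  exact X_sub g₁ g₂ h₁ h₂ z.1 z.2

theorem step (q : ℝ) (hq : 3 < q) (C : ℝ)
    (H : ∀ (e : E 2), ‖e‖ = 1 →
      ∀ N : ℝ, 1 ≤ N → ∀ h, Gd 2 h → eLpNorm (XX (P e N h)) (ENNReal.ofReal q) volume ≤
        ENNReal.ofReal (C * N ^ (2 / q - 1 / 2)) * eLpNorm h (ENNReal.ofReal q) volume)
    (ε : ℕ → E 2) (hε : ∀ k, ‖ε k‖ = 1) (f : E 2 → ℂ) (hf : Gd 1 f) (ω : ℕ → ℝ≥0∞)
    (hmod : ∀ k : ℕ, ∀ u : ℝ, 0 < u → u ≤ 1 / 2 ^ k →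
      ∫⁻ x, ‖f (x + u • ε k) - f x‖ₑ ^ q ≤ ω k ^ q) (k : ℕ) :
    eLpNorm (XX (P (ε (k + 1)) (2 ^ (k + 1)) f)) (ENNReal.ofReal q) volume ≤
      eLpNorm (XX (P (ε k) (2 ^ k) f)) (ENNReal.ofReal q) volume +
        (ENNReal.ofReal (C * (2 ^ (k + 1)) ^ (2 / q - 1 / 2)) * ω k +
        ENNReal.ofReal (C * (2 ^ k) ^ (2 / q - 1 / 2)) * ω (k + 1)) := by
  have he := hε k
  have he' := hε (k + 1)
  have m1' := hmod k
  have m2' := hmod (k + 1)
  set e := ε k with hek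
  set e' := ε (k + 1) with hek'
  have hq0 : 0 < q := by linarith
  set N : ℝ := 2 ^ k with hN
  set N' : ℝ := 2 ^ (k + 1) with hN'
  have hN1 : 1 ≤ N := one_le_pow₀ (by norm_num)
  have hN1' : 1 ≤ N' := one_le_pow₀ (by norm_num)
  have g0 : Gd 2 f := Gd_mono hf (by norm_num)
  have g1 : Gd 2 (P e N f) := P_good e he N hN1 hf 2 (by norm_num)
  have g2 : Gd 2 (P e' N' f) := P_good e' he' N' hN1' hf 2 (by norm_num)
  have d1 : Gd 2 (fun x => f x - P e N f x) := Gd_sub g0 g1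
  have d2 : Gd 2 (fun x => f x - P e' N' f x) := Gd_sub g0 g2
  have p1 : Gd 3 (P e' N' (fun x => f x - P e N f x)) := P_good e' he' N' hN1' d1 3 (by norm_num)
  have p2 : Gd 3 (P e N (fun x => f x - P e' N' f x)) := P_good e he N hN1 d2 3 (by norm_num)
  have e1 : XX (P e' N' f) = XX (P e N f) + (XX (P e' N' (fun x => f x - P e N f x)) -
      XX (P e N (fun x => f x - P e' N' f x))) := by
    have : P e' N' f = fun x => P e N f x + (P e' N' (fun x => f x - P e N f x) x -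
      P e N (fun x => f x - P e' N' f x) x) :=
      funext fun x => tele e e' he he' N N' hN1 hN1' f hf x
    conv_lhs => rw [this]
    rw [XX_add _ _ g1.integrable (Gd_sub p1 p2).integrable,
      XX_sub _ _ p1.integrable p2.integrable]
  have n1 : eLpNorm (XX (P e' N' (fun x => f x - P e N f x))) (ENNReal.ofReal q) volume ≤
      ENNReal.ofReal (C * N' ^ (2 / q - 1 / 2)) * ω k :=
    (H e' he' N' hN1' _ d1).trans (mul_le_mul_right (eLp_le q hq0 _ _
      (P_approx q (by linarith) f hf e _ N hN1 m1')) _)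
  have n2 : eLpNorm (XX (P e N (fun x => f x - P e' N' f x))) (ENNReal.ofReal q) volume ≤
      ENNReal.ofReal (C * N ^ (2 / q - 1 / 2)) * ω (k + 1) :=
    (H e he N hN1 _ d2).trans (mul_le_mul_right (eLp_le q hq0 _ _
      (P_approx q (by linarith) f hf e' _ N' hN1' m2')) _)
  have hq1 : 1 ≤ ENNReal.ofReal q := by
    rw [← ENNReal.ofReal_one]; exact ENNReal.ofReal_le_ofReal (by linarith)
  rw [e1]
  have m0 := (XX_meas g1).aestronglyMeasurable (μ := (volume : Measure (ℝ × E 2)))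
  have m1 := (XX_meas p1).aestronglyMeasurable (μ := (volume : Measure (ℝ × E 2)))
  have m2 := (XX_meas p2).aestronglyMeasurable (μ := (volume : Measure (ℝ × E 2)))
  refine (eLpNorm_add_le m0 (m1.sub m2) hq1).trans (add_le_add le_rfl ?_)
  exact (eLpNorm_sub_le m1 m2 hq1).trans (add_le_add n1 n2)

end Pool.Agent.J4.H73.EX
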