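import Pool.Agent.J4.H73.EX.Lim
set_option autoImplicit false

/-! The limit for bounded functions. -/

namespace Pool.Agent.J4.H73.EX

open MeasureTheory Complex Set Filter Topology
open scoped ENNReal NNReal RealInnerProductSpace ComplexConjugate

theorem L1_le (q : ℝ) (hq : 1 ≤ q) (R : ℝ) : ∃ c : ℝ≥0∞, c ≠ ∞ ∧ ∀ g : E 2 → ℂ, Measurable g →
    (∀ x, R < ‖x‖ → g x = 0) →
    ∫⁻ x, ‖g x‖ₑ ≤ eLpNorm g (ENNReal.ofReal q) volume * c := by
  set μ : Measure (E 2) := volume.restrict (Metric.closedBall (0 : E 2) R) with hμ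
  refine ⟨μ univ ^ (1 / (1 : ℝ≥0∞).toReal - 1 / (ENNReal.ofReal q).toReal), ?_, ?_⟩
  · apply ENNReal.rpow_ne_top_of_nonneg
    · rw [ENNReal.toReal_ofReal (by linarith), ENNReal.toReal_one, sub_nonneg]
      exact one_div_le_one_div_of_le one_pos hq
    · rw [hμ, Measure.restrict_apply_univ]
      exact measure_closedBall_lt_top.ne
  · intro g hg hs
    have h1 : ∫⁻ x, ‖g x‖ₑ = eLpNorm g 1 μ := by
      rw [eLpNorm_one_eq_lintegral_enorm, hμ,
        ← lintegral_indicator Metric.isClosed_closedBall.measurableSet]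
      refine lintegral_congr fun x => ?_
      by_cases hx : x ∈ Metric.closedBall (0 : E 2) R
      · rw [indicator_of_mem hx]
      · rw [indicator_of_notMem hx]
        rw [mem_closedBall_zero_iff, not_le] at hx
        rw [hs x hx, enorm_zero]
    rw [h1]
    refine (eLpNorm_le_eLpNorm_mul_rpow_measure_univ (p := 1) (q := ENNReal.ofReal q)
      (by rw [← ENNReal.ofReal_one]; exact ENNReal.ofReal_le_ofReal hq)
      hg.aestronglyMeasurable).trans ?_
    gcongr
    exact Measure.restrict_le_self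

theorem X_enorm_le (g : E 2 → ℂ) (t : ℝ) (y : E 2) : ‖X g t y‖ₑ ≤ ∫⁻ x, ‖g x‖ₑ := by
  unfold X
  refine (enorm_integral_le_lintegral_enorm _).trans (le_of_eq (lintegral_congr fun x => ?_))
  rw [enorm_mul, en_enorm, one_mul]

theorem X_tendsto (f : E 2 → ℂ) (hf : Integrable f) (F : ℕ → E 2 → ℂ) (hF : ∀ n, Integrable (F n))
    (h : Tendsto (fun n => ∫⁻ x, ‖F n x - f x‖ₑ) atTop (𝓝 0)) (t : ℝ) (y : E 2) :
    Tendsto (fun n => X (F n) t y) atTop (𝓝 (X f t y)) := by
  rw [tendsto_iff_edist_tendsto_0]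
  refine tendsto_of_tendsto_of_tendsto_of_le_of_le tendsto_const_nhds h (fun n => zero_le)
    fun n => ?_
  simp only
  rw [edist_eq_enorm_sub, ← X_sub _ _ (hF n) hf]
  exact X_enorm_le _ t y

/-- the sum of the weighted moduli -/
noncomputable def Bes (q : ℝ) (ω : ℕ → ℝ≥0∞) : ℝ≥0∞ :=
  ∑' k : ℕ, ENNReal.ofReal ((2 ^ k) ^ (2 / q - 1 / 2)) * ω k

theorem lim_good (q : ℝ) (hq : 3 < q) (hq4 : q < 4) : ∃ C : ℝ, 0 < C ∧
    ∀ (ε : ℕ → E 2), (∀ k, ‖ε k‖ = 1) → ∀ f, Gd 1 f → ∀ ω : ℕ → ℝ≥0∞,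
    (∀ k : ℕ, ∀ u : ℝ, 0 < u → u ≤ 1 / 2 ^ k →
      ∫⁻ x, ‖f (x + u • ε k) - f x‖ₑ ^ q ≤ ω k ^ q) →
    eLpNorm (XX f) (ENNReal.ofReal q) volume ≤
      ENNReal.ofReal C * (eLpNorm f (ENNReal.ofReal q) volume + Bes q ω) := by
  obtain ⟨C1, hC1, H1⟩ := nrmP q hq hq4
  have hq0 : 0 < q := by linarith
  set a : ℝ := 2 / q - 1 / 2 with ha
  have ha0 : 0 < a := by
    rw [ha, sub_pos, div_lt_div_iff₀ (by norm_num) (by linarith)]
    linarith
  refine ⟨C1 * (1 + 2 ^ a), by positivity, ?_⟩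
  intro ε hε f hf ω hmod
  by_cases htop : Bes q ω = ∞
  · rw [htop, add_top, ENNReal.mul_top (by
      simp only [ne_eq, ENNReal.ofReal_eq_zero, not_le]; positivity)]
    exact le_top
  set nf : ℝ≥0∞ := eLpNorm f (ENNReal.ofReal q) volume with hnf
  have h2f : Gd 2 f := Gd_mono hf (by norm_num)
  set β : ℕ → ℝ≥0∞ := fun k => ENNReal.ofReal ((2 ^ k) ^ a) * ω k with hβ
  have hbd : ∀ K : ℕ, eLpNorm (XX (P (ε K) (2 ^ K) f)) (ENNReal.ofReal q) volume ≤
      ENNReal.ofReal C1 * nf + (ENNReal.ofReal (C1 * 2 ^ a) * ∑ k ∈ Finset.range K, β k +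
        ENNReal.ofReal C1 * ∑ k ∈ Finset.range K, β (k + 1)) := by
    intro K
    induction K with
    | zero =>
      simp only [Finset.range_zero, Finset.sum_empty, mul_zero, add_zero]
      have := H1 (ε 0) (hε 0) 1 le_rfl f h2f
      rw [Real.one_rpow, mul_one] at this
      rw [pow_zero]
      exact this
    | succ K ih =>
      refine (step q hq C1 H1 ε hε f hf ω hmod K).trans ?_
      have e1 : ENNReal.ofReal (C1 * (2 ^ (K + 1)) ^ (2 / q - 1 / 2)) * ω K =
          ENNReal.ofReal (C1 * 2 ^ a) * β K := by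
        rw [hβ, ← ha]
        simp only
        rw [← mul_assoc, ← ENNReal.ofReal_mul (by positivity), pow_succ,
          Real.mul_rpow (by positivity) (by norm_num)]
        congr 2
        ring
      have e2 : ENNReal.ofReal (C1 * (2 ^ K) ^ (2 / q - 1 / 2)) * ω (K + 1) ≤
          ENNReal.ofReal C1 * β (K + 1) := by
        rw [hβ, ← ha]
        simp only
        rw [← mul_assoc, ← ENNReal.ofReal_mul (by positivity)]
        gcongr
        · norm_num
        · omega
      rw [Finset.sum_range_succ, Finset.sum_range_succ, mul_add, mul_add, e1]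
      calc _ ≤ (ENNReal.ofReal C1 * nf + (ENNReal.ofReal (C1 * 2 ^ a) * ∑ k ∈ Finset.range K, β k +
            ENNReal.ofReal C1 * ∑ k ∈ Finset.range K, β (k + 1))) +
            (ENNReal.ofReal (C1 * 2 ^ a) * β K + ENNReal.ofReal C1 * β (K + 1)) :=
            add_le_add ih (add_le_add le_rfl e2)
        _ = _ := by ring
  have hbd2 : ∀ K : ℕ, eLpNorm (XX (P (ε K) (2 ^ K) f)) (ENNReal.ofReal q) volume ≤
      ENNReal.ofReal (C1 * (1 + 2 ^ a)) * (nf + Bes q ω) := by
    intro K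
    refine (hbd K).trans ?_
    have e1 : ∑ k ∈ Finset.range K, β k ≤ Bes q ω := ENNReal.sum_le_tsum _
    have e2 : ∑ k ∈ Finset.range K, β (k + 1) ≤ Bes q ω := by
      refine (ENNReal.sum_le_tsum _).trans ?_
      exact ENNReal.tsum_comp_le_tsum_of_injective (add_left_injective 1) β
    calc ENNReal.ofReal C1 * nf + (ENNReal.ofReal (C1 * 2 ^ a) * ∑ k ∈ Finset.range K, β k +
        ENNReal.ofReal C1 * ∑ k ∈ Finset.range K, β (k + 1))
        ≤ ENNReal.ofReal (C1 * (1 + 2 ^ a)) * nf + (ENNReal.ofReal (C1 * 2 ^ a) * Bes q ω +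
        ENNReal.ofReal C1 * Bes q ω) := by
          gcongr
          have : 0 < C1 * 2 ^ a := by positivity
          linarith
      _ = _ := by
          rw [← add_mul, ← ENNReal.ofReal_add (by positivity) (by positivity), mul_add]
          congr 3
          ring
  have hg : ∀ K : ℕ, Gd 2 (P (ε K) (2 ^ K) f) := fun K =>
    P_good (ε K) (hε K) _ (one_le_pow₀ (by norm_num)) hf 2 (by norm_num)
  have hω : Tendsto ω atTop (𝓝 0) := by
    have h1 : Tendsto β atTop (𝓝 0) := ENNReal.tendsto_atTop_zero_of_tsum_ne_top htop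
    refine tendsto_of_tendsto_of_tendsto_of_le_of_le tendsto_const_nhds h1 (fun n => zero_le)
      fun n => ?_
    rw [hβ]
    simp only
    refine le_mul_of_one_le_left zero_le ?_
    rw [← ENNReal.ofReal_one]
    exact ENNReal.ofReal_le_ofReal (Real.one_le_rpow (one_le_pow₀ (by norm_num)) ha0.le)
  have hlim : ∀ z : ℝ × E 2, Tendsto (fun K : ℕ => XX (P (ε K) (2 ^ K) f) z) atTop
      (𝓝 (XX f z)) := by
    intro z
    refine X_tendsto f hf.integrable _ (fun K => (hg K).integrable) ?_ z.1 z.2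
    obtain ⟨c, hc, Hc⟩ := L1_le q (by linarith) 2
    have h3 : ∀ K : ℕ, ∫⁻ x, ‖P (ε K) (2 ^ K) f x - f x‖ₑ ≤ ω K * c := by
      intro K
      have hd := Gd_sub h2f (hg K)
      have h4 := Hc _ hd.1 hd.2.2
      have h5 : ∀ x, ‖P (ε K) (2 ^ K) f x - f x‖ₑ = ‖f x - P (ε K) (2 ^ K) f x‖ₑ := fun x => by
        rw [← enorm_neg, neg_sub]
      simp_rw [h5]
      refine h4.trans (mul_le_mul_left ?_ _)
      exact eLp_le q hq0 _ _ (P_approx q (by linarith) f hf (ε K) _ (2 ^ K)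
        (one_le_pow₀ (by norm_num)) (hmod K))
    have h7 : Tendsto (fun K : ℕ => ω K * c) atTop (𝓝 0) := by
      have h9 := ENNReal.Tendsto.mul_const (b := c) hω (Or.inr hc)
      simpa using h9
    exact tendsto_of_tendsto_of_tendsto_of_le_of_le tendsto_const_nhds h7
      (fun n => zero_le) h3
  refine (Lp.eLpNorm_lim_le_liminf_eLpNorm (f := fun K : ℕ => XX (P (ε K) (2 ^ K) f))
    (fun K => (XX_meas (hg K)).aestronglyMeasurable) (XX f) (Eventually.of_forall hlim)).trans ?_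
  refine (liminf_le_liminf (Eventually.of_forall hbd2)).trans ?_
  simp

end Pool.Agent.J4.H73.EX
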