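import Pool.Agent.J4.H73.EX.Interp
set_option autoImplicit false

/-! The bound for averaged functions. -/

namespace Pool.Agent.J4.H73.EX

open MeasureTheory Complex Set Filter Topology
open scoped ENNReal NNReal RealInnerProductSpace ComplexConjugate

theorem slab_cover (N : ℝ) (hN : 0 < N) :
    (univ : Set ℝ) ⊆ {t : ℝ | |t| ≤ N} ∪ ⋃ k : ℕ, {t : ℝ | N * 2 ^ k ≤ |t| ∧ |t| ≤ 2 * (N * 2 ^ k)} := by
  intro t _
  rcases le_or_gt |t| N with h | h
  · exact Or.inl h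
  · right
    obtain ⟨k, hk1, hk2⟩ := exists_nat_pow_near (x := |t| / N) (y := 2)
      (by rw [one_le_div hN]; exact h.le) (by norm_num)
    refine mem_iUnion.2 ⟨k, ?_, ?_⟩
    · rw [le_div_iff₀ hN] at hk1
      linarith
    · rw [div_lt_iff₀ hN] at hk2
      rw [pow_succ] at hk2
      linarith

theorem main_qq (q : ℝ) (hq : 3 < q) (hq4 : q < 4) : ∃ C : ℝ, 0 < C ∧ ∀ (e : E 2), ‖e‖ = 1 →
    ∀ N : ℝ, 1 ≤ N → ∀ h, Gd 2 h →
    ∫⁻ t, ∫⁻ y, ‖X (P e N h) t y‖ₑ ^ q ≤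
      ENNReal.ofReal (C * N ^ ((4 - q) / 2)) * ∫⁻ x, ‖h x‖ₑ ^ q := by
  obtain ⟨C0, hC0, H0⟩ := slab0
  set κ : ℝ := (q - 3) / (q - 2) with hκ
  have hq2 : 0 < q - 2 := by linarith
  have hκ0 : 0 < κ := div_pos (by linarith) hq2
  have hκ1 : κ < 1 := by rw [hκ, div_lt_one hq2]; linarith
  obtain ⟨C1, hC1, H1⟩ := slab1 κ hκ0 hκ1
  obtain ⟨CI, hCI, HI⟩ := interp q hq hq4
  set ρ : ℝ := 2 ^ (-((q - 3) / 2)) with hρ
  have hρ0 : 0 < ρ := Real.rpow_pos_of_pos (by norm_num) _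
  have hρ1 : ρ < 1 := Real.rpow_lt_one_of_one_lt_of_neg (by norm_num) (by linarith)
  set A0 : ℝ := CI * 2 ^ ((4 - q) / 2) * C0 ^ ((q - 2) / 2) with hA0
  set A1 : ℝ := CI * 4 ^ ((4 - q) / 2) * C1 ^ ((q - 2) / 2) with hA1
  have hA00 : 0 < A0 := by positivity
  have hA10 : 0 < A1 := by positivity
  have h1ρ : 0 < 1 - ρ := by linarith
  refine ⟨A0 + A1 / (1 - ρ), by positivity, ?_⟩
  intro e he N hN h hh
  have hN0 : 0 < N := by linarith
  set I : ℝ≥0∞ := ∫⁻ x, ‖h x‖ₑ ^ q with hI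
  set F : ℝ → ℝ≥0∞ := fun t => ∫⁻ y, ‖X (P e N h) t y‖ₑ ^ q with hF
  have b0 : ∫⁻ t in {t : ℝ | |t| ≤ N}, F t ≤ ENNReal.ofReal (A0 * N ^ ((4 - q) / 2)) * I := by
    have hS : MeasurableSet {t : ℝ | |t| ≤ N} := measurableSet_le (by fun_prop) measurable_const
    have hvol : volume {t : ℝ | |t| ≤ N} ≤ ENNReal.ofReal (2 * N) := by
      have : {t : ℝ | |t| ≤ N} = Icc (-N) N := by ext t; simp [abs_le]
      rw [this, Real.volume_Icc]
      apply ENNReal.ofReal_le_ofReal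
      linarith
    have := HI e he N hN _ hS (2 * N) C0 (by positivity) hC0 hvol (fun k hk =>
      H0 _ (P_Gd3 e he N hN hk) _ (P_L4 e N hk.1) N hN0) h hh
    refine this.trans (le_of_eq ?_)
    congr 2
    rw [Real.mul_rpow (by norm_num) hN0.le, hA0]
    ring
  have bk : ∀ k : ℕ, ∫⁻ t in {t : ℝ | N * 2 ^ k ≤ |t| ∧ |t| ≤ 2 * (N * 2 ^ k)}, F t ≤
      ENNReal.ofReal (A1 * N ^ ((4 - q) / 2) * ρ ^ k) * I := by
    intro k
    set T : ℝ := N * 2 ^ k with hT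
    have hT0 : 0 < T := by positivity
    have hS : MeasurableSet {t : ℝ | T ≤ |t| ∧ |t| ≤ 2 * T} := by
      have a1 : MeasurableSet {t : ℝ | T ≤ |t|} := measurableSet_le measurable_const (by fun_prop)
      have a2 : MeasurableSet {t : ℝ | |t| ≤ 2 * T} :=
        measurableSet_le (by fun_prop) measurable_const
      exact a1.inter a2
    have hvol : volume {t : ℝ | T ≤ |t| ∧ |t| ≤ 2 * T} ≤ ENNReal.ofReal (4 * T) := by
      have : {t : ℝ | T ≤ |t| ∧ |t| ≤ 2 * T} ⊆ Icc (-(2 * T)) (2 * T) := fun t ht => abs_le.1 ht.2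
      refine (measure_mono this).trans ?_
      rw [Real.volume_Icc]
      apply ENNReal.ofReal_le_ofReal
      linarith
    have hM : 0 < C1 * (N / T) ^ (1 - κ) := by positivity
    have := HI e he N hN _ hS (4 * T) _ (by positivity) hM hvol (fun k hk =>
      H1 e he _ (P_Gd3 e he N hN hk) _ (P_L4 e N hk.1) N hN0
        (fun s hs _ => P_lip e N hN0 hk s hs) T hT0) h hh
    refine this.trans (le_of_eq ?_)
    congr 2
    have e1 : N / T = ((2 : ℝ) ^ (k : ℝ))⁻¹ := by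
      rw [Real.rpow_natCast, hT]
      field_simp
    have e2 : (4 * T) ^ ((4 - q) / 2) = 4 ^ ((4 - q) / 2) * (N ^ ((4 - q) / 2) *
        2 ^ ((k : ℝ) * ((4 - q) / 2))) := by
      rw [Real.mul_rpow (by norm_num) hT0.le, hT, Real.mul_rpow hN0.le (by positivity),
        Real.rpow_mul (by norm_num), Real.rpow_natCast]
    have e3 : (C1 * (N / T) ^ (1 - κ)) ^ ((q - 2) / 2) = C1 ^ ((q - 2) / 2) *
        2 ^ (-((k : ℝ) * (1 / 2))) := by
      rw [Real.mul_rpow hC1.le (by positivity), e1, ← Real.rpow_neg (by norm_num),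
        ← Real.rpow_mul (by norm_num), ← Real.rpow_mul (by norm_num)]
      congr 2
      rw [hκ]
      field_simp
      ring
    have e4 : ρ ^ k = 2 ^ ((k : ℝ) * ((4 - q) / 2)) * 2 ^ (-((k : ℝ) * (1 / 2))) := by
      rw [hρ, ← Real.rpow_natCast, ← Real.rpow_mul (by norm_num), ← Real.rpow_add (by norm_num)]
      congr 1
      ring
    rw [e2, e3, e4, hA1]
    ring
  calc ∫⁻ t, F t = ∫⁻ t in univ, F t := by rw [Measure.restrict_univ]
    _ ≤ ∫⁻ t in ({t : ℝ | |t| ≤ N} ∪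
          ⋃ k : ℕ, {t : ℝ | N * 2 ^ k ≤ |t| ∧ |t| ≤ 2 * (N * 2 ^ k)}), F t :=
        lintegral_mono_set (slab_cover N hN0)
    _ ≤ (∫⁻ t in {t : ℝ | |t| ≤ N}, F t) +
          ∫⁻ t in (⋃ k : ℕ, {t : ℝ | N * 2 ^ k ≤ |t| ∧ |t| ≤ 2 * (N * 2 ^ k)}), F t :=
        lintegral_union_le _ _ _
    _ ≤ (∫⁻ t in {t : ℝ | |t| ≤ N}, F t) +
          ∑' k : ℕ, ∫⁻ t in {t : ℝ | N * 2 ^ k ≤ |t| ∧ |t| ≤ 2 * (N * 2 ^ k)}, F t := by
        gcongr
        exact lintegral_iUnion_le _ _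
    _ ≤ ENNReal.ofReal (A0 * N ^ ((4 - q) / 2)) * I +
          ∑' k : ℕ, ENNReal.ofReal (A1 * N ^ ((4 - q) / 2) * ρ ^ k) * I :=
        add_le_add b0 (ENNReal.tsum_le_tsum bk)
    _ = _ := by
        rw [ENNReal.tsum_mul_right, ← ENNReal.ofReal_tsum_of_nonneg, tsum_mul_left,
          tsum_geometric_of_lt_one hρ0.le hρ1, ← add_mul,
          ← ENNReal.ofReal_add (by positivity) (by positivity)]
        · congr 2
          field_simp
        · intro k; positivity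
        · exact (summable_geometric_of_lt_one hρ0.le hρ1).mul_left _

end Pool.Agent.J4.H73.EX
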