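import Pool.Agent.J4.H73.EX.Wt
set_option autoImplicit false

/-! A quadrilinear bound. -/

namespace Pool.Agent.J4.H73.EX

open MeasureTheory Complex Set Filter Topology
open scoped ENNReal NNReal RealInnerProductSpace ComplexConjugate

theorem amgm4 (a b c d : ℝ≥0∞) : a * b * c * d ≤ 4⁻¹ * (a ^ 4 + b ^ 4 + c ^ 4 + d ^ 4) := by
  have htop : (4⁻¹ : ℝ≥0∞) * ∞ = ∞ := by
    rw [ENNReal.mul_top]
    exact ENNReal.inv_ne_zero.2 (by norm_num)
  by_cases ha : a = ∞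
  · subst ha; simp [htop]
  by_cases hb : b = ∞
  · subst hb; simp [htop]
  by_cases hc : c = ∞
  · subst hc; simp [htop]
  by_cases hd : d = ∞
  · subst hd; simp [htop]
  lift a to ℝ≥0 using ha
  lift b to ℝ≥0 using hb
  lift c to ℝ≥0 using hc
  lift d to ℝ≥0 using hd
  have h4 : (4⁻¹ : ℝ≥0∞) = ((4⁻¹ : ℝ≥0) : ℝ≥0∞) := by
    rw [ENNReal.coe_inv (by norm_num)]; norm_num
  rw [h4]
  norm_cast
  rw [← NNReal.coe_le_coe]
  push_cast
  have ha := a.coe_nonneg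
  have hb := b.coe_nonneg
  have hc := c.coe_nonneg
  have hd := d.coe_nonneg
  generalize (a : ℝ) = a at *
  generalize (b : ℝ) = b at *
  generalize (c : ℝ) = c at *
  generalize (d : ℝ) = d at *
  nlinarith [sq_nonneg (a * b - c * d), sq_nonneg (a ^ 2 - b ^ 2), sq_nonneg (c ^ 2 - d ^ 2)]

theorem amgm4_int (φ₁ φ₂ φ₃ φ₄ : E 2 → ℝ≥0∞) (h₁ : Measurable φ₁) (h₂ : Measurable φ₂)
    (h₃ : Measurable φ₃) (h₄ : Measurable φ₄) (M : ℝ≥0∞) (m₁ : ∫⁻ x, φ₁ x ^ 4 ≤ M)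
    (m₂ : ∫⁻ x, φ₂ x ^ 4 ≤ M) (m₃ : ∫⁻ x, φ₃ x ^ 4 ≤ M) (m₄ : ∫⁻ x, φ₄ x ^ 4 ≤ M) :
    ∫⁻ x, φ₁ x * φ₂ x * φ₃ x * φ₄ x ≤ M := by
  calc ∫⁻ x, φ₁ x * φ₂ x * φ₃ x * φ₄ x
      ≤ ∫⁻ x, 4⁻¹ * (φ₁ x ^ 4 + φ₂ x ^ 4 + φ₃ x ^ 4 + φ₄ x ^ 4) :=
        lintegral_mono fun x => amgm4 _ _ _ _
    _ = 4⁻¹ * ((∫⁻ x, φ₁ x ^ 4) + (∫⁻ x, φ₂ x ^ 4) + (∫⁻ x, φ₃ x ^ 4) + (∫⁻ x, φ₄ x ^ 4)) := by
        rw [lintegral_const_mul _ (by fun_prop), lintegral_add_left (by fun_prop),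
          lintegral_add_left (by fun_prop), lintegral_add_left (by fun_prop)]
    _ ≤ 4⁻¹ * (M + M + M + M) := by gcongr
    _ = M := by
        rw [show M + M + M + M = 4 * M by ring, ← mul_assoc,
          ENNReal.inv_mul_cancel (by norm_num) (by norm_num), one_mul]

/-- the quadrilinear bound -/
theorem quad (φ₁ φ₂ φ₃ φ₄ k : E 2 → ℝ≥0∞) (h₁ : Measurable φ₁) (h₂ : Measurable φ₂)
    (h₃ : Measurable φ₃) (h₄ : Measurable φ₄) (hk : Measurable k) (M : ℝ≥0∞)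
    (m₁ : ∫⁻ x, φ₁ x ^ 4 ≤ M)
    (m₂ : ∫⁻ x, φ₂ x ^ 4 ≤ M) (m₃ : ∫⁻ x, φ₃ x ^ 4 ≤ M) (m₄ : ∫⁻ x, φ₄ x ^ 4 ≤ M)
    (r₁ r₃ : ℝ) (s₁ : ∀ x, r₁ < ‖x‖ → φ₁ x = 0) (s₃ : ∀ x, r₃ < ‖x‖ → φ₃ x = 0) (b : E 2) :
    ∫⁻ x, φ₁ x * φ₂ (x - b) * ∫⁻ x', φ₃ x' * φ₄ (x' - b) * k (x - x') ≤
      M * ∫⁻ a in Metric.closedBall (0 : E 2) (r₁ + r₃), k a := by
  have e1 : ∀ x, ∫⁻ x', φ₃ x' * φ₄ (x' - b) * k (x - x') =
      ∫⁻ a, φ₃ (x - a) * φ₄ (x - a - b) * k a := by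
    intro x
    have := lintegral_sub_left_eq_self (μ := (volume : Measure (E 2)))
      (fun a => φ₃ (x - a) * φ₄ (x - a - b) * k a) x
    rw [← this]
    refine lintegral_congr fun a => ?_
    rw [sub_sub_cancel]
  simp_rw [e1]
  have hb2 : Measurable fun x => φ₁ x * φ₂ (x - b) := by fun_prop
  calc ∫⁻ x, φ₁ x * φ₂ (x - b) * ∫⁻ a, φ₃ (x - a) * φ₄ (x - a - b) * k a
      = ∫⁻ x, ∫⁻ a, φ₁ x * φ₂ (x - b) * (φ₃ (x - a) * φ₄ (x - a - b) * k a) := by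
        refine lintegral_congr fun x => ?_
        rw [lintegral_const_mul]
        fun_prop
    _ = ∫⁻ a, ∫⁻ x, φ₁ x * φ₂ (x - b) * (φ₃ (x - a) * φ₄ (x - a - b) * k a) := by
        rw [lintegral_lintegral_swap]
        fun_prop
    _ ≤ ∫⁻ a, (Metric.closedBall (0 : E 2) (r₁ + r₃)).indicator (fun a => M * k a) a := by
        refine lintegral_mono fun a => ?_
        by_cases ha : a ∈ Metric.closedBall (0 : E 2) (r₁ + r₃)
        · rw [indicator_of_mem ha]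
          calc ∫⁻ x, φ₁ x * φ₂ (x - b) * (φ₃ (x - a) * φ₄ (x - a - b) * k a)
              = (∫⁻ x, φ₁ x * φ₂ (x - b) * φ₃ (x - a) * φ₄ (x - (a + b))) * k a := by
                rw [← lintegral_mul_const]
                · refine lintegral_congr fun x => ?_
                  rw [sub_sub]
                  ring
                · fun_prop
            _ ≤ M * k a := by
                gcongr
                refine amgm4_int φ₁ (fun x => φ₂ (x - b)) (fun x => φ₃ (x - a))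
                  (fun x => φ₄ (x - (a + b))) h₁ (by fun_prop) (by fun_prop) (by fun_prop) M m₁ ?_ ?_ ?_
                · exact (lintegral_sub_right_eq_self (fun x => φ₂ x ^ 4) b).trans_le m₂
                · exact (lintegral_sub_right_eq_self (fun x => φ₃ x ^ 4) a).trans_le m₃
                · exact (lintegral_sub_right_eq_self (fun x => φ₄ x ^ 4) (a + b)).trans_le m₄
        · rw [indicator_of_notMem ha]
          refine le_of_eq (lintegral_eq_zero_of_ae_eq_zero (Eventually.of_forall fun x => ?_))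
          simp only [Pi.zero_apply]
          rw [mem_closedBall_zero_iff, not_le] at ha
          rcases lt_or_ge r₁ ‖x‖ with h | h
          · rw [s₁ x h]; simp
          · have : r₃ < ‖x - a‖ := by
              have h3 : ‖a‖ ≤ ‖x‖ + ‖x - a‖ := by
                calc ‖a‖ = ‖x - (x - a)‖ := by rw [sub_sub_cancel]
                  _ ≤ _ := norm_sub_le _ _
              linarith
            rw [s₃ _ this]; simp
    _ = _ := by
        rw [lintegral_indicator Metric.isClosed_closedBall.measurableSet,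
          lintegral_const_mul _ hk]

end Pool.Agent.J4.H73.EX
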