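import Pool.Agent.J4.H73.EX.Fin
set_option autoImplicit false

/-! Transfer to the operator of the problem. -/

namespace Pool.Agent.J4.H73.EX

open MeasureTheory Complex Set Filter Topology
open scoped ENNReal NNReal RealInnerProductSpace ComplexConjugate

/-- the paraboloid `x ↦ (x_1, x_2, x_1^2 + x_2^2)` -/
noncomputable def Ph (x : E 2) : E 3 := !₂[x 0, x 1, x 0 ^ 2 + x 1 ^ 2]

/-- the extension operator over `U` -/
noncomputable def ex (U : Set (E 2)) (f : E 2 → ℂ) (ξ : E 3) : ℂ :=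
  ∫ x in U, cexp (-((⟪Ph x, ξ⟫ : ℝ) : ℂ) * I) * f x

theorem ex_eq (U : Set (E 2)) (hU : MeasurableSet U) (f : E 2 → ℂ) (ξ : E 3) :
    ex U f ξ = XX (U.indicator f) (ξ 2, !₂[ξ 0, ξ 1]) := by
  unfold ex XX X
  rw [← integral_indicator hU]
  refine integral_congr_ae (Eventually.of_forall fun x => ?_)
  by_cases hx : x ∈ U
  · simp only
    rw [indicator_of_mem hx, indicator_of_mem hx]
    unfold en Ph
    congr 4
    rw [EuclideanSpace.norm_sq_eq]
    simp [PiLp.inner_apply, Fin.sum_univ_succ]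
    ring
  · simp only
    rw [indicator_of_notMem hx, indicator_of_notMem hx, mul_zero]

theorem eLp_ex (q : ℝ) (hq : 0 < q) (F : ℝ × E 2 → ℂ) (hF : Measurable F) (G : E 3 → ℂ)
    (h : ∀ ξ, G ξ = F (ξ 2, !₂[ξ 0, ξ 1])) :
    eLpNorm G (ENNReal.ofReal q) volume = eLpNorm F (ENNReal.ofReal q) volume := by
  have hp0 : ENNReal.ofReal q ≠ 0 := by
    simp only [ne_eq, ENNReal.ofReal_eq_zero, not_le]; exact hq
  rw [eLpNorm_eq_lintegral_rpow_enorm_toReal hp0 ENNReal.ofReal_ne_top,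
    eLpNorm_eq_lintegral_rpow_enorm_toReal hp0 ENNReal.ofReal_ne_top,
    ENNReal.toReal_ofReal hq.le]
  congr 1
  have h2 := lint3 (fun t y => ‖F (t, y)‖ₑ ^ q) (hF.enorm.pow_const q)
  rw [Measure.volume_eq_prod, lintegral_prod _ (hF.enorm.pow_const q).aemeasurable, ← h2]
  refine lintegral_congr fun ξ => ?_
  rw [h ξ]

theorem main1 (q : ℝ) (hq : 3 < q) (hq4 : q < 4) : ∃ C : ℝ≥0, ∀ (U : Set (E 2)),
    MeasurableSet U → U ⊆ Metric.ball 0 (1 / 2) → ∀ f : E 2 → ℂ,
    AEStronglyMeasurable f (volume.restrict U) → ∀ ω : ℕ → ℝ≥0∞,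
    (∀ k : ℕ, ∃ e : E 2, ‖e‖ = 1 ∧ ∀ t : ℝ, 0 < t → t ≤ 1 / 2 ^ k →
      eLpNorm (fun x => U.indicator f (x + t • e) - U.indicator f x) (ENNReal.ofReal q) volume ≤
        ω k) →
    eLpNorm (ex U f) (ENNReal.ofReal q) volume ≤
      C * (eLpNorm f (ENNReal.ofReal q) (volume.restrict U) +
        ∑' k : ℕ, ENNReal.ofReal (2 ^ ((2 / q - 1 / 2) * k)) * ω k) := by
  obtain ⟨C, hC, H⟩ := lim_gen q hq hq4
  refine ⟨⟨C, hC.le⟩, ?_⟩
  intro U hU hUb f hf ω hmod
  have hq0 : 0 < q := by linarith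
  have hp0 : ENNReal.ofReal q ≠ 0 := by
    simp only [ne_eq, ENNReal.ofReal_eq_zero, not_le]; exact hq0
  choose ε hε hmod' using hmod
  set g : E 2 → ℂ := U.indicator (hf.mk f) with hg
  have hgm : Measurable g := (hf.stronglyMeasurable_mk.measurable).indicator hU
  have hae : U.indicator f =ᵐ[volume] g := by
    have h1 := hf.ae_eq_mk
    rw [Filter.EventuallyEq, ae_restrict_iff' hU] at h1
    filter_upwards [h1] with x hx
    by_cases hxU : x ∈ U
    · rw [hg, indicator_of_mem hxU, indicator_of_mem hxU, hx hxU]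
    · rw [hg, indicator_of_notMem hxU, indicator_of_notMem hxU]
  have hsupp : ∀ x, 1 < ‖x‖ → g x = 0 := by
    intro x hx
    rw [hg]
    refine indicator_of_notMem (fun hxU => ?_) _
    have := hUb hxU
    rw [mem_ball_zero_iff] at this
    linarith
  have hXX : ∀ z, XX (U.indicator f) z = XX g z := by
    intro z
    unfold XX X
    refine integral_congr_ae ?_
    filter_upwards [hae] with x hx
    rw [hx]
  have key := H ε hε g hgm hsupp ω (by
    intro k u hu hu1
    have h1 := hmod' k u hu hu1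
    have h2 : (fun x => U.indicator f (x + u • ε k) - U.indicator f x) =ᵐ[volume]
        fun x => g (x + u • ε k) - g x := by
      have h3 := (measurePreserving_add_right (volume : Measure (E 2))
        (u • ε k)).quasiMeasurePreserving.ae_eq_comp hae
      filter_upwards [hae, h3] with x hx hx3
      simp only [Function.comp] at hx3
      rw [hx, hx3]
    rw [eLpNorm_congr_ae h2, eLpNorm_eq_lintegral_rpow_enorm_toReal hp0 ENNReal.ofReal_ne_top,
      ENNReal.toReal_ofReal hq0.le] at h1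
    calc ∫⁻ x, ‖g (x + u • ε k) - g x‖ₑ ^ q
        = ((∫⁻ x, ‖g (x + u • ε k) - g x‖ₑ ^ q) ^ (1 / q)) ^ q := by
          rw [← ENNReal.rpow_mul, one_div_mul_cancel hq0.ne', ENNReal.rpow_one]
      _ ≤ _ := ENNReal.rpow_le_rpow h1 hq0.le)
  have hXm : Measurable (XX g) := X_meas g hgm.aestronglyMeasurable
  have e1 : eLpNorm (ex U f) (ENNReal.ofReal q) volume =
      eLpNorm (XX g) (ENNReal.ofReal q) volume :=
    eLp_ex q hq0 (XX g) hXm _ fun ξ => by rw [ex_eq U hU, hXX]
  have e2 : eLpNorm g (ENNReal.ofReal q) volume =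
      eLpNorm f (ENNReal.ofReal q) (volume.restrict U) := by
    rw [← eLpNorm_congr_ae hae, eLpNorm_indicator_eq_eLpNorm_restrict hU]
  have e3 : Bes q ω = ∑' k : ℕ, ENNReal.ofReal (2 ^ ((2 / q - 1 / 2) * k)) * ω k := by
    unfold Bes
    refine tsum_congr fun k => ?_
    congr 2
    rw [mul_comm, Real.rpow_mul (by norm_num), Real.rpow_natCast]
  rw [e1, ← e2, ← e3]
  refine key.trans (le_of_eq ?_)
  congr 1
  rw [ENNReal.ofReal]
  congr 1
  rw [Real.toNNReal_of_nonneg hC.le]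
  rfl

end Pool.Agent.J4.H73.EX
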