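import Pool.Agent.J4.H73.EX.Far3
set_option autoImplicit false

/-! Bounds on slabs. -/

namespace Pool.Agent.J4.H73.EX

open MeasureTheory Complex Set Filter Topology
open scoped ENNReal NNReal RealInnerProductSpace ComplexConjugate

/-- the correlation form -/
noncomputable def J (w : ℝ → ℝ) (g : E 2 → ℂ) (b : E 2) : ℝ≥0∞ :=
  ‖∫ x, Ga g b x * ∫ x', conj (Ga g b x') * Wh w (2 * ⟪x - x', b⟫)‖ₑ

theorem Ga_meas2 {g : E 2 → ℂ} (hg : Measurable g) :
    Measurable fun z : E 2 × E 2 => Ga g z.1 z.2 := by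
  unfold Ga
  exact (hg.comp measurable_snd).mul (Complex.continuous_conj.measurable.comp
    (hg.comp (measurable_snd.sub measurable_fst)))

theorem slabJ (g : E 2 → ℂ) (hg : Gd 3 g) (w : ℝ → ℝ) (hw0 : ∀ t, 0 ≤ w t) (hwi : Integrable w)
    (hwm : Measurable w) (S : Set ℝ) (hS : MeasurableSet S) (c : ℝ) (hc : 0 < c)
    (hcw : ∀ t ∈ S, c ≤ w t) :
    ∫⁻ t in S, ∫⁻ y, ‖X g t y‖ₑ ^ 4 ≤ ENNReal.ofReal ((2 * Real.pi) ^ 2 / c) * ∫⁻ b, J w g b := by
  have hgi := hg.integrable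
  have hm2 : Measurable fun z : ℝ × E 2 => ‖∫ x, en (2 * ⟪x, z.2⟫ * z.1) * Ga g z.2 x‖ₑ ^ 2 := by
    have : StronglyMeasurable (Function.uncurry fun (z : ℝ × E 2) (x : E 2) =>
        en (2 * ⟪x, z.2⟫ * z.1) * Ga g z.2 x) := by
      refine Measurable.stronglyMeasurable ?_
      refine (en_meas.comp ?_).mul ?_
      · fun_prop
      · exact (Ga_meas2 hg.1).comp (f := fun q : (ℝ × E 2) × E 2 => (q.1.2, q.2)) (by fun_prop)
    exact this.integral_prod_right.measurable.enorm.pow_const 2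
  have hXm : Measurable fun t => ∫⁻ y, ‖X g t y‖ₑ ^ 4 :=
    Measurable.lintegral_prod_right' (f := fun z : ℝ × E 2 => ‖X g z.1 z.2‖ₑ ^ 4)
      ((X_meas g hgi.aestronglyMeasurable).enorm.pow_const 4)
  calc ∫⁻ t in S, ∫⁻ y, ‖X g t y‖ₑ ^ 4
      ≤ ∫⁻ t in S, ENNReal.ofReal (1 / c) * (ENNReal.ofReal (w t) * ∫⁻ y, ‖X g t y‖ₑ ^ 4) := by
        refine setLIntegral_mono' hS fun t ht => ?_
        rw [← mul_assoc, ← ENNReal.ofReal_mul (by positivity)]
        refine le_mul_of_one_le_left zero_le ?_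
        rw [← ENNReal.ofReal_one]
        apply ENNReal.ofReal_le_ofReal
        rw [one_div, inv_mul_eq_div, one_le_div hc]
        exact hcw t ht
    _ ≤ ∫⁻ t, ENNReal.ofReal (1 / c) * (ENNReal.ofReal (w t) * ∫⁻ y, ‖X g t y‖ₑ ^ 4) :=
        setLIntegral_le_lintegral _ _
    _ = ENNReal.ofReal (1 / c) * ∫⁻ t, (ENNReal.ofReal (w t) * ∫⁻ y, ‖X g t y‖ₑ ^ 4) :=
        lintegral_const_mul _ ((hwm.ennreal_ofReal).mul hXm)
    _ ≤ ENNReal.ofReal (1 / c) * ∫⁻ t, (ENNReal.ofReal (w t) *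
          (ENNReal.ofReal ((2 * Real.pi) ^ 2) *
            ∫⁻ b, ‖∫ x, en (2 * ⟪x, b⟫ * t) * Ga g b x‖ₑ ^ 2)) := by
        gcongr with t
        exact X_L4 g hgi t
    _ = ENNReal.ofReal ((2 * Real.pi) ^ 2 / c) * ∫⁻ t, ∫⁻ b, (ENNReal.ofReal (w t) *
            ‖∫ x, en (2 * ⟪x, b⟫ * t) * Ga g b x‖ₑ ^ 2) := by
        have e1 : ∀ t, ENNReal.ofReal (w t) * (ENNReal.ofReal ((2 * Real.pi) ^ 2) *
            ∫⁻ b, ‖∫ x, en (2 * ⟪x, b⟫ * t) * Ga g b x‖ₑ ^ 2) =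
            ENNReal.ofReal ((2 * Real.pi) ^ 2) * ∫⁻ b, (ENNReal.ofReal (w t) *
            ‖∫ x, en (2 * ⟪x, b⟫ * t) * Ga g b x‖ₑ ^ 2) := by
          intro t
          rw [lintegral_const_mul]
          · ring
          · exact hm2.comp (f := fun b : E 2 => (t, b)) (by fun_prop)
        simp_rw [e1]
        rw [lintegral_const_mul]
        · rw [← mul_assoc, ← ENNReal.ofReal_mul (by positivity)]
          congr 2
          ring
        · exact Measurable.lintegral_prod_right' (f := fun z : ℝ × E 2 => ENNReal.ofReal (w z.1) *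
            ‖∫ x, en (2 * ⟪x, z.2⟫ * z.1) * Ga g z.2 x‖ₑ ^ 2)
            (((hwm.comp measurable_fst).ennreal_ofReal).mul hm2)
    _ = ENNReal.ofReal ((2 * Real.pi) ^ 2 / c) * ∫⁻ b, ∫⁻ t, (ENNReal.ofReal (w t) *
            ‖∫ x, en (2 * ⟪x, b⟫ * t) * Ga g b x‖ₑ ^ 2) := by
        rw [lintegral_lintegral_swap]
        exact (((hwm.comp measurable_fst).ennreal_ofReal).mul hm2).aemeasurable
    _ ≤ _ := by
        gcongr with b
        exact timeint w hw0 hwi (Ga g b) (Ga_good hg b).integrable b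

theorem ms_near (e : E 2) (δ : ℝ) : MeasurableSet {b : E 2 | ‖b‖ ≤ 6 ∧ |⟪e, b⟫| ≤ δ} := by
  have a1 : MeasurableSet {b : E 2 | ‖b‖ ≤ 6} := measurableSet_le measurable_norm measurable_const
  have a2 : MeasurableSet {b : E 2 | |⟪e, b⟫| ≤ δ} :=
    measurableSet_le (by fun_prop) measurable_const
  exact a1.inter a2

theorem ms_far (e : E 2) (δ : ℝ) : MeasurableSet {b : E 2 | ‖b‖ ≤ 6 ∧ δ < |⟪e, b⟫|} := by
  have a1 : MeasurableSet {b : E 2 | ‖b‖ ≤ 6} := measurableSet_le measurable_norm measurable_const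
  have a2 : MeasurableSet {b : E 2 | δ < |⟪e, b⟫|} :=
    measurableSet_lt measurable_const (by fun_prop)
  exact a1.inter a2

theorem J_zero (w : ℝ → ℝ) (g : E 2 → ℂ) (hg : Gd 3 g) (b : E 2) (hb : 6 < ‖b‖) : J w g b = 0 := by
  unfold J
  have : ∀ x, Ga g b x = 0 := fun x => Ga_zero hg b (by norm_num; exact hb) x
  simp [this]

theorem slab0 : ∃ C : ℝ, 0 < C ∧ ∀ (g : E 2 → ℂ), Gd 3 g → ∀ M : ℝ≥0∞,
    ∫⁻ x, ‖g x‖ₑ ^ 4 ≤ M → ∀ T : ℝ, 0 < T →
    ∫⁻ t in {t : ℝ | |t| ≤ T}, ∫⁻ y, ‖X g t y‖ₑ ^ 4 ≤ ENNReal.ofReal C * M := by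
  obtain ⟨e, he⟩ : ∃ e : E 2, ‖e‖ = 1 := ⟨EuclideanSpace.single 0 1, by simp⟩
  have hK := b_near (1 / 2) (by norm_num) (by norm_num) e he 6 6 (by norm_num) (by norm_num)
  set K : ℝ := 4 * 6 ^ (1 / 2 : ℝ) / (1 / 2 * (1 - 1 / 2)) * 6 ^ (1 - 1 / 2 : ℝ) with hKd
  have hK0 : 0 < K := by positivity
  refine ⟨(2 * Real.pi) ^ 2 / (1 / 3) * (216 * K), by positivity, ?_⟩
  intro g hg M hM T hT
  have hS : MeasurableSet {t : ℝ | |t| ≤ T} := measurableSet_le (by fun_prop) measurable_const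
  refine (slabJ g hg (w0 T) (w0_nonneg T) (w0_integrable T hT) (w0_meas T) _ hS (1 / 3)
    (by norm_num) (fun t ht => w0_low T t hT ht)).trans ?_
  have h1 : ∫⁻ b, J (w0 T) g b ≤ ENNReal.ofReal (216 * K) * M := by
    calc ∫⁻ b, J (w0 T) g b
        ≤ ∫⁻ b, M * (ENNReal.ofReal 216 *
          (if ‖b‖ ≤ 6 ∧ |⟪e, b⟫| ≤ 6 then (ENNReal.ofReal ‖b‖)⁻¹ else 0)) := by
          refine lintegral_mono_ae ?_
          have hne : ∀ᵐ b : E 2, b ≠ 0 := by
            rw [ae_iff]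
            simp only [ne_eq, not_not]
            exact measure_singleton 0
          filter_upwards [hne] with b hb
          rcases lt_or_ge 6 ‖b‖ with h | h
          · rw [J_zero _ g hg b h]; exact zero_le
          · have h2 : |⟪e, b⟫| ≤ 6 := by
              have := abs_real_inner_le_norm e b
              rw [he, one_mul] at this
              exact this.trans h
            rw [if_pos ⟨h, h2⟩]
            exact near g hg M hM T hT (w0 T) (fun τ => Wh_w0_bound T τ hT) b hb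
      _ = M * (ENNReal.ofReal 216 * ∫⁻ b : E 2,
          (if ‖b‖ ≤ 6 ∧ |⟪e, b⟫| ≤ 6 then (ENNReal.ofReal ‖b‖)⁻¹ else 0)) := by
          have hm : Measurable fun b : E 2 =>
              (if ‖b‖ ≤ 6 ∧ |⟪e, b⟫| ≤ 6 then (ENNReal.ofReal ‖b‖)⁻¹ else 0) := by
            exact Measurable.ite (ms_near e 6) (by fun_prop) measurable_const
          rw [lintegral_const_mul _ (hm.const_mul _), lintegral_const_mul _ hm]
      _ ≤ M * (ENNReal.ofReal 216 * ENNReal.ofReal K) := by gcongr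
      _ = _ := by rw [← ENNReal.ofReal_mul (by norm_num), mul_comm]
  calc _ ≤ ENNReal.ofReal ((2 * Real.pi) ^ 2 / (1 / 3)) * (ENNReal.ofReal (216 * K) * M) := by
        gcongr
    _ = _ := by
        rw [← mul_assoc, ← ENNReal.ofReal_mul (by positivity)]

theorem slab1 (κ : ℝ) (h0 : 0 < κ) (h1 : κ < 1) : ∃ C : ℝ, 0 < C ∧ ∀ (e : E 2), ‖e‖ = 1 →
    ∀ (g : E 2 → ℂ), Gd 3 g → ∀ M : ℝ≥0∞, ∫⁻ x, ‖g x‖ₑ ^ 4 ≤ M → ∀ L : ℝ, 0 < L →
    (∀ s : ℝ, 0 < s → s ≤ 1 →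
      ∫⁻ x, ‖g (x + s • e) - g x‖ₑ ^ 4 ≤ ENNReal.ofReal ((L * s) ^ 4) * M) → ∀ T : ℝ, 0 < T →
    ∫⁻ t in {t : ℝ | T ≤ |t| ∧ |t| ≤ 2 * T}, ∫⁻ y, ‖X g t y‖ₑ ^ 4 ≤
      ENNReal.ofReal (C * (L / T) ^ (1 - κ)) * M := by
  set K1 : ℝ := 4 * 6 ^ κ / (κ * (1 - κ)) with hK1
  set K2 : ℝ := 4 * 6 ^ κ / (κ * κ) with hK2
  have h1κ : 0 < 1 - κ := by linarith
  have hK10 : 0 < K1 := by positivity
  have hK20 : 0 < K2 := by positivity
  refine ⟨(2 * Real.pi) ^ 2 / (1 / 12) * (216 * K1 + 168 * K2), by positivity, ?_⟩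
  intro e he g hg M hM L hL hLip T hT
  have hS : MeasurableSet {t : ℝ | T ≤ |t| ∧ |t| ≤ 2 * T} := by
    have a1 : MeasurableSet {t : ℝ | T ≤ |t|} := measurableSet_le measurable_const (by fun_prop)
    have a2 : MeasurableSet {t : ℝ | |t| ≤ 2 * T} := measurableSet_le (by fun_prop) measurable_const
    exact a1.inter a2
  set δ : ℝ := L / T with hδ
  have hδ0 : 0 < δ := by positivity
  have hbn := b_near κ h0 h1 e he δ 6 hδ0 (by norm_num)
  have hbf := b_far κ h0 h1 e he δ 6 hδ0 (by norm_num)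
  refine (slabJ g hg (w1 T) (w1_nonneg T) (w1_integrable T hT) (w1_meas T) _ hS (1 / 12)
    (by norm_num) (fun t ht => w1_low T t hT ht.1 ht.2)).trans ?_
  have hm1 : Measurable fun b : E 2 =>
      (if ‖b‖ ≤ 6 ∧ |⟪e, b⟫| ≤ δ then (ENNReal.ofReal ‖b‖)⁻¹ else 0) := by
    exact Measurable.ite (ms_near e δ) (by fun_prop) measurable_const
  have hm2 : Measurable fun b : E 2 => (if ‖b‖ ≤ 6 ∧ δ < |⟪e, b⟫| then
        (ENNReal.ofReal |⟪e, b⟫|)⁻¹ * (ENNReal.ofReal ‖b‖)⁻¹ else 0) := by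
    exact Measurable.ite (ms_far e δ) (by fun_prop) measurable_const
  have h2 : ∫⁻ b, J (w1 T) g b ≤ ENNReal.ofReal ((216 * K1 + 168 * K2) * δ ^ (1 - κ)) * M := by
    calc ∫⁻ b, J (w1 T) g b
        ≤ ∫⁻ b, (M * (ENNReal.ofReal 216 *
          (if ‖b‖ ≤ 6 ∧ |⟪e, b⟫| ≤ δ then (ENNReal.ofReal ‖b‖)⁻¹ else 0)) +
          M * (ENNReal.ofReal (168 * δ) * (if ‖b‖ ≤ 6 ∧ δ < |⟪e, b⟫| then
        (ENNReal.ofReal |⟪e, b⟫|)⁻¹ * (ENNReal.ofReal ‖b‖)⁻¹ else 0))) := by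
          refine lintegral_mono_ae ?_
          have hne : ∀ᵐ b : E 2, b ≠ 0 := by
            rw [ae_iff]
            simp only [ne_eq, not_not]
            exact measure_singleton 0
          filter_upwards [hne] with b hb
          rcases lt_or_ge 6 ‖b‖ with h | h
          · rw [J_zero _ g hg b h]; exact zero_le
          · rcases lt_or_ge δ |⟪e, b⟫| with h3 | h3
            · refine le_add_left ?_
              rw [if_pos ⟨h, h3⟩]
              exact far g hg e he M hM L hL hLip T hT b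
                (abs_pos.1 (hδ0.trans h3))
            · refine le_add_right ?_
              rw [if_pos ⟨h, h3⟩]
              exact near g hg M hM T hT (w1 T) (fun τ => Wh_w1_bound T τ hT) b hb
      _ = M * (ENNReal.ofReal 216 * ∫⁻ b : E 2,
          (if ‖b‖ ≤ 6 ∧ |⟪e, b⟫| ≤ δ then (ENNReal.ofReal ‖b‖)⁻¹ else 0)) +
          M * (ENNReal.ofReal (168 * δ) * ∫⁻ b : E 2, (if ‖b‖ ≤ 6 ∧ δ < |⟪e, b⟫| then
        (ENNReal.ofReal |⟪e, b⟫|)⁻¹ * (ENNReal.ofReal ‖b‖)⁻¹ else 0)) := by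
          rw [lintegral_add_left ((hm1.const_mul _).const_mul _),
            lintegral_const_mul _ (hm1.const_mul _), lintegral_const_mul _ hm1,
            lintegral_const_mul _ (hm2.const_mul _), lintegral_const_mul _ hm2]
      _ ≤ M * (ENNReal.ofReal 216 * ENNReal.ofReal (K1 * δ ^ (1 - κ))) +
          M * (ENNReal.ofReal (168 * δ) * ENNReal.ofReal (K2 * δ ^ (-κ))) := by gcongr
      _ = _ := by
          rw [← ENNReal.ofReal_mul (by norm_num), ← ENNReal.ofReal_mul (by positivity), ← mul_add,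
            ← ENNReal.ofReal_add (by positivity) (by positivity), mul_comm]
          congr 2
          rw [show δ ^ (1 - κ) = δ * δ ^ (-κ) by
            rw [sub_eq_add_neg, Real.rpow_add hδ0, Real.rpow_one]]
          ring
  calc _ ≤ ENNReal.ofReal ((2 * Real.pi) ^ 2 / (1 / 12)) *
        (ENNReal.ofReal ((216 * K1 + 168 * K2) * δ ^ (1 - κ)) * M) := by
        gcongr
    _ = _ := by
        rw [← mul_assoc, ← ENNReal.ofReal_mul (by positivity)]
        congr 2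
        ring

end Pool.Agent.J4.H73.EX
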