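import Pool.Agent.J4.H73.EX.QQ
set_option autoImplicit false

/-! Telescoping. -/

namespace Pool.Agent.J4.H73.EX

open MeasureTheory Complex Set Filter Topology
open scoped ENNReal NNReal RealInnerProductSpace ComplexConjugate

/-- the extension as a function on `ℝ × E 2` -/
noncomputable def XX (g : E 2 → ℂ) (z : ℝ × E 2) : ℂ := X g z.1 z.2

theorem XX_meas {R : ℝ} {g : E 2 → ℂ} (hg : Gd R g) : Measurable (XX g) :=
  X_meas g hg.integrable.aestronglyMeasurable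

theorem nrmP (q : ℝ) (hq : 3 < q) (hq4 : q < 4) : ∃ C : ℝ, 0 < C ∧ ∀ (e : E 2), ‖e‖ = 1 →
    ∀ N : ℝ, 1 ≤ N → ∀ h, Gd 2 h → eLpNorm (XX (P e N h)) (ENNReal.ofReal q) volume ≤
      ENNReal.ofReal (C * N ^ (2 / q - 1 / 2)) * eLpNorm h (ENNReal.ofReal q) volume := by
  obtain ⟨C, hC, H⟩ := main_qq q hq hq4
  have hq0 : 0 < q := by linarith
  refine ⟨C ^ (1 / q), by positivity, ?_⟩
  intro e he N hN h hh
  have hp0 : ENNReal.ofReal q ≠ 0 := by
    simp only [ne_eq, ENNReal.ofReal_eq_zero, not_le]; exact hq0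
  rw [eLpNorm_eq_lintegral_rpow_enorm_toReal hp0 ENNReal.ofReal_ne_top,
    eLpNorm_eq_lintegral_rpow_enorm_toReal hp0 ENNReal.ofReal_ne_top,
    ENNReal.toReal_ofReal hq0.le]
  have h1 : ∫⁻ z, ‖XX (P e N h) z‖ₑ ^ q = ∫⁻ t, ∫⁻ y, ‖X (P e N h) t y‖ₑ ^ q := by
    rw [Measure.volume_eq_prod, lintegral_prod _
      ((XX_meas (P_Gd3 e he N hN hh)).enorm.pow_const q).aemeasurable]
    rfl
  rw [h1]
  refine (ENNReal.rpow_le_rpow (H e he N hN h hh) (by positivity)).trans (le_of_eq ?_)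
  rw [ENNReal.mul_rpow_of_nonneg _ _ (by positivity), ENNReal.ofReal_rpow_of_nonneg
    (by positivity) (by positivity)]
  congr 2
  rw [Real.mul_rpow hC.le (by positivity), ← Real.rpow_mul (by linarith)]
  congr 2
  field_simp
  ring

theorem modneg (f : E 2 → ℂ) (q : ℝ) (v : E 2) :
    ∫⁻ x, ‖f (x + -v) - f x‖ₑ ^ q = ∫⁻ x, ‖f (x + v) - f x‖ₑ ^ q := by
  rw [← lintegral_add_right_eq_self (fun x => ‖f (x + -v) - f x‖ₑ ^ q) v]
  refine lintegral_congr fun x => ?_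
  rw [add_neg_cancel_right, ← enorm_neg, neg_sub]

theorem P_approx (q : ℝ) (hq : 1 ≤ q) {R : ℝ} (f : E 2 → ℂ) (hf : Gd R f) (e : E 2) (B : ℝ≥0∞)
    (N : ℝ) (hN : 1 ≤ N)
    (hmod : ∀ u : ℝ, 0 < u → u ≤ 1 / N → ∫⁻ x, ‖f (x + u • e) - f x‖ₑ ^ q ≤ B) :
    ∫⁻ x, ‖f x - P e N f x‖ₑ ^ q ≤ B := by
  have hN0 : 0 < N := by linarith
  have h1 : ∀ x, f x - P e N f x =
      ∫ v in Ioc (0 : ℝ) 1, (f x - f (x + (-(1 / N) + 2 / N * v) • e)) := by
    intro x
    unfold P Av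
    rw [integral_sub (integrable_const _) (Av_int e _ _ hf x)]
    congr 1
    simp
  simp_rw [h1]
  refine jens2 (fun x v => f x - f (x + (-(1 / N) + 2 / N * v) • e)) ?_ q hq _ ?_
  · exact (hf.1.comp measurable_fst).sub (Av_meas2 e _ _ hf.1)
  · intro v hv
    have h2 := P_abs N hN0 v hv
    set w : ℝ := -(1 / N) + 2 / N * v with hw
    have h3 : ∀ x, ‖f x - f (x + w • e)‖ₑ ^ q = ‖f (x + w • e) - f x‖ₑ ^ q := fun x => by
      rw [← enorm_neg, neg_sub]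
    simp_rw [h3]
    rcases lt_trichotomy w 0 with h | h | h
    · rw [abs_of_neg h] at h2
      have := hmod (-w) (by linarith) h2
      rw [neg_smul, modneg] at this
      exact this
    · rw [h]
      have : ∀ x : E 2, ‖f (x + (0 : ℝ) • e) - f x‖ₑ ^ q = 0 := fun x => by
        rw [zero_smul, add_zero, sub_self, enorm_zero, ENNReal.zero_rpow_of_pos (by linarith)]
      simp_rw [this]
      simp
    · rw [abs_of_pos h] at h2
      exact hmod w h h2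

theorem Gd_mono {R R' : ℝ} {f : E 2 → ℂ} (hf : Gd R f) (h : R ≤ R') : Gd R' f :=
  ⟨hf.1, hf.2.1, fun x hx => hf.2.2 x (h.trans_lt hx)⟩

theorem Gd_sub {R : ℝ} {f g : E 2 → ℂ} (hf : Gd R f) (hg : Gd R g) : Gd R (fun x => f x - g x) := by
  obtain ⟨B, hB⟩ := hf.2.1
  obtain ⟨B', hB'⟩ := hg.2.1
  refine ⟨hf.1.sub hg.1, ⟨B + B', fun x => ?_⟩, fun x hx => ?_⟩
  · exact (norm_sub_le _ _).trans (add_le_add (hB x) (hB' x))
  · simp only
    rw [hf.2.2 x hx, hg.2.2 x hx, sub_zero]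

theorem tele (e e' : E 2) (he : ‖e‖ = 1) (he' : ‖e'‖ = 1) (N N' : ℝ) (hN : 1 ≤ N) (hN' : 1 ≤ N')
    (f : E 2 → ℂ) (hf : Gd 1 f) (x : E 2) :
    P e' N' f x = P e N f x + (P e' N' (fun x => f x - P e N f x) x -
      P e N (fun x => f x - P e' N' f x) x) := by
  have h1 : Gd 2 f := Gd_mono hf (by norm_num)
  have h2 : Gd 2 (P e N f) := P_good e he N hN hf 2 (by norm_num)
  have h3 : Gd 2 (P e' N' f) := P_good e' he' N' hN' hf 2 (by norm_num)
  have h4 : P e' N' (P e N f) x = P e N (P e' N' f) x := Av_comm e' e _ _ _ _ hf x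
  have h5 : P e' N' (fun x => f x - P e N f x) x = P e' N' f x - P e' N' (P e N f) x :=
    Av_sub e' _ _ h1 h2 x
  have h6 : P e N (fun x => f x - P e' N' f x) x = P e N f x - P e N (P e' N' f) x :=
    Av_sub e _ _ h1 h3 x
  rw [h5, h6, h4]
  ring

end Pool.Agent.J4.H73.EX
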