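import Pool.Agent.J4.H73.EX.Ker
set_option autoImplicit false

/-! The time integral. -/

namespace Pool.Agent.J4.H73.EX

open MeasureTheory Complex Set Filter Topology
open scoped ENNReal NNReal RealInnerProductSpace ComplexConjugate

/-- Fourier transform of the weight -/
noncomputable def Wh (w : ℝ → ℝ) (τ : ℝ) : ℂ := ∫ t : ℝ, (w t : ℂ) * en (τ * t)

theorem timeint (w : ℝ → ℝ) (hw0 : ∀ t, 0 ≤ w t) (hwi : Integrable w) (G : E 2 → ℂ)
    (hG : Integrable G) (b : E 2) :
    ∫⁻ t : ℝ, ENNReal.ofReal (w t) * ‖∫ x, en (2 * ⟪x, b⟫ * t) * G x‖ₑ ^ 2 ≤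
      ‖∫ x, G x * ∫ x', conj (G x') * Wh w (2 * ⟪x - x', b⟫)‖ₑ := by
  set F : ℝ → ℂ := fun t => ∫ x, en (2 * ⟪x, b⟫ * t) * G x with hF
  have hGc : Integrable (fun x => conj (G x)) :=
    (Complex.conjLIE.toContinuousLinearEquiv.integrable_comp_iff).2 hG
  have hgg : Integrable (fun z : E 2 × E 2 => G z.1 * conj (G z.2)) (volume.prod volume) :=
    hG.mul_prod hGc
  have hprod : Integrable (fun p : ℝ × (E 2 × E 2) =>
      (w p.1 : ℂ) * (G p.2.1 * conj (G p.2.2)))
      (volume.prod (volume.prod volume)) :=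
    hwi.ofReal.mul_prod hgg
  have hint : Integrable (fun p : ℝ × (E 2 × E 2) =>
      en (2 * ⟪p.2.1 - p.2.2, b⟫ * p.1) * ((w p.1 : ℂ) * (G p.2.1 * conj (G p.2.2))))
      (volume.prod (volume.prod volume)) :=
    en_bdd (by fun_prop) hprod
  have hsq : ∀ t, (F t * conj (F t)) = ∫ z : E 2 × E 2, en (2 * ⟪z.1 - z.2, b⟫ * t) *
      (G z.1 * conj (G z.2)) ∂(volume.prod volume) := by
    intro t
    have e1 : conj (F t) = ∫ y, conj (en (2 * ⟪y, b⟫ * t) * G y) := by
      simp only [hF]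
      rw [← integral_conj]
    rw [e1]
    simp only [hF]
    rw [← integral_prod_mul]
    refine integral_congr_ae (Filter.Eventually.of_forall fun z => ?_)
    simp only
    rw [map_mul, en_conj, inner_sub_left,
      show 2 * (⟪z.1, b⟫ - ⟪z.2, b⟫) * t = 2 * ⟪z.1, b⟫ * t + -(2 * ⟪z.2, b⟫ * t) by ring, en_add]
    ring
  have hI : ∫ t : ℝ, ((w t * ‖F t‖ ^ 2 : ℝ) : ℂ) =
      ∫ x, G x * ∫ x', conj (G x') * Wh w (2 * ⟪x - x', b⟫) := by
    have e2 : ∀ t : ℝ, ((w t * ‖F t‖ ^ 2 : ℝ) : ℂ) =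
        ∫ z : E 2 × E 2, en (2 * ⟪z.1 - z.2, b⟫ * t) * ((w t : ℂ) * (G z.1 * conj (G z.2)))
          ∂(volume.prod volume) := by
      intro t
      have e3 : ((‖F t‖ ^ 2 : ℝ) : ℂ) = F t * conj (F t) := by
        rw [Complex.mul_conj, Complex.normSq_eq_norm_sq]
      rw [Complex.ofReal_mul, e3, hsq t, ← integral_const_mul]
      refine integral_congr_ae (Filter.Eventually.of_forall fun z => ?_)
      simp only
      ring
    simp_rw [e2]
    rw [integral_integral_swap (f := fun (t : ℝ) (z : E 2 × E 2) =>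
      en (2 * ⟪z.1 - z.2, b⟫ * t) * ((w t : ℂ) * (G z.1 * conj (G z.2)))) hint]
    have e4 : ∀ z : E 2 × E 2, ∫ t : ℝ,
        en (2 * ⟪z.1 - z.2, b⟫ * t) * ((w t : ℂ) * (G z.1 * conj (G z.2))) =
        G z.1 * (conj (G z.2) * Wh w (2 * ⟪z.1 - z.2, b⟫)) := by
      intro z
      unfold Wh
      rw [← integral_const_mul, ← integral_const_mul]
      refine integral_congr_ae (Filter.Eventually.of_forall fun t => ?_)
      simp only
      ring
    simp_rw [e4]
    rw [integral_prod]
    · simp only [integral_const_mul]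
    · have h5 := hint.swap.integral_prod_left
      refine h5.congr (Filter.Eventually.of_forall fun z => ?_)
      simp only []
      exact e4 z
  rw [← hI]
  have hFm : Integrable (fun t => w t * ‖F t‖ ^ 2) := by
    have h6 := hint.integral_prod_left
    have h7 := h6.norm
    refine h7.congr (Filter.Eventually.of_forall fun t => ?_)
    simp only
    have e3 : ((‖F t‖ ^ 2 : ℝ) : ℂ) = F t * conj (F t) := by
      rw [Complex.mul_conj, Complex.normSq_eq_norm_sq]
    have e2 : ∫ z : E 2 × E 2, en (2 * ⟪z.1 - z.2, b⟫ * t) * ((w t : ℂ) * (G z.1 * conj (G z.2)))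
          ∂(volume.prod volume) = ((w t * ‖F t‖ ^ 2 : ℝ) : ℂ) := by
      rw [Complex.ofReal_mul, e3, hsq t, ← integral_const_mul]
      refine integral_congr_ae (Filter.Eventually.of_forall fun z => ?_)
      simp only
      ring
    rw [e2, Complex.norm_real, Real.norm_of_nonneg (mul_nonneg (hw0 t) (by positivity))]
  rw [integral_complex_ofReal, ← ofReal_norm, Complex.norm_real, Real.norm_of_nonneg
    (integral_nonneg fun t => mul_nonneg (hw0 t) (by positivity)),
    ofReal_integral_eq_lintegral_ofReal hFm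
      (Filter.Eventually.of_forall fun t => mul_nonneg (hw0 t) (by positivity))]
  refine le_of_eq (lintegral_congr fun t => ?_)
  rw [ENNReal.ofReal_mul (hw0 t), ENNReal.ofReal_pow (norm_nonneg _), ofReal_norm]

end Pool.Agent.J4.H73.EX
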