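import Pool.Agent.J4.H73.EX.Time
set_option autoImplicit false

/-! The weights. -/

namespace Pool.Agent.J4.H73.EX

open MeasureTheory Complex Set Filter Topology
open scoped ENNReal NNReal RealInnerProductSpace ComplexConjugate

/-- Gaussian weight -/
noncomputable def w0 (T t : ℝ) : ℝ := Real.exp (-(t ^ 2 / T ^ 2))

/-- weight that vanishes at zero -/
noncomputable def w1 (T t : ℝ) : ℝ := w0 (2 * T) t - w0 T t

theorem w0_nonneg (T t : ℝ) : 0 ≤ w0 T t := (Real.exp_pos _).le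

theorem w1_nonneg (T t : ℝ) : 0 ≤ w1 T t := by
  unfold w1 w0
  rw [sub_nonneg, Real.exp_le_exp, neg_le_neg_iff, mul_pow]
  rcases eq_or_ne T 0 with h | h
  · simp [h]
  · have : 0 < T ^ 2 := by positivity
    apply div_le_div_of_nonneg_left (sq_nonneg t) this
    linarith

theorem w0_integrable (T : ℝ) (hT : 0 < T) : Integrable (w0 T) := by
  have h := integrable_exp_neg_mul_sq (b := 1 / T ^ 2) (by positivity)
  refine h.congr (Eventually.of_forall fun t => ?_)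
  unfold w0
  simp only
  congr 1
  ring

theorem w1_integrable (T : ℝ) (hT : 0 < T) : Integrable (w1 T) :=
  (w0_integrable (2 * T) (by positivity)).sub (w0_integrable T hT)

theorem w0_meas (T : ℝ) : Measurable (w0 T) := by unfold w0; fun_prop
theorem w1_meas (T : ℝ) : Measurable (w1 T) := by unfold w1 w0; fun_prop

theorem w0_low (T t : ℝ) (hT : 0 < T) (ht : |t| ≤ T) : 1 / 3 ≤ w0 T t := by
  unfold w0
  have h1 : t ^ 2 / T ^ 2 ≤ 1 := by
    rw [div_le_one (by positivity)]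
    exact sq_le_sq' (by linarith [neg_abs_le t]) (by linarith [le_abs_self t])
  have h2 : Real.exp (-1) ≤ Real.exp (-(t ^ 2 / T ^ 2)) := Real.exp_le_exp.2 (by linarith)
  have h3 : 1 / 3 ≤ Real.exp (-1) := by
    rw [Real.exp_neg, ← one_div]
    apply one_div_le_one_div_of_le (Real.exp_pos _)
    have := Real.exp_one_lt_d9
    linarith
  linarith

theorem w1_low (T t : ℝ) (hT : 0 < T) (ht1 : T ≤ |t|) (ht : |t| ≤ 2 * T) : 1 / 12 ≤ w1 T t := by
  have h1 : 1 ≤ t ^ 2 / T ^ 2 := by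
    rw [one_le_div (by positivity), ← sq_abs t]
    exact pow_le_pow_left₀ hT.le ht1 2
  have h2 : 1 / 3 ≤ w0 (2 * T) t := w0_low _ _ (by positivity) ht
  have h3 : w0 T t = w0 (2 * T) t * Real.exp (-(3 / 4 * (t ^ 2 / T ^ 2))) := by
    unfold w0
    rw [← Real.exp_add]
    congr 1
    field_simp
    ring
  have h4 : Real.exp (-(3 / 4 * (t ^ 2 / T ^ 2))) ≤ Real.exp (-(3 / 4)) :=
    Real.exp_le_exp.2 (by linarith)
  have h5 : Real.exp (-(3 / 4 : ℝ)) ≤ 3 / 4 := by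
    have h6 : 1 + 3 / 4 ≤ Real.exp (3 / 4 : ℝ) := by
      have := Real.add_one_le_exp (3 / 4 : ℝ); linarith
    rw [Real.exp_neg]
    rw [inv_le_comm₀ (Real.exp_pos _) (by norm_num)]
    linarith
  unfold w1
  rw [h3]
  nlinarith [w0_nonneg (2 * T) t]

theorem Wh_w0 (T τ : ℝ) (hT : 0 < T) :
    Wh (w0 T) τ = ((Real.sqrt Real.pi * T * Real.exp (-(T ^ 2 * τ ^ 2 / 4)) : ℝ) : ℂ) := by
  have h := fourierIntegral_gaussian (b := ((1 / T ^ 2 : ℝ) : ℂ)) (by
    rw [Complex.ofReal_re]; positivity) (-(τ : ℂ))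
  have hT' : (T : ℂ) ≠ 0 := by exact_mod_cast hT.ne'
  have e1 : Wh (w0 T) τ = ∫ x : ℝ, cexp (I * (-(τ : ℂ)) * x) * cexp (-((1 / T ^ 2 : ℝ) : ℂ) * x ^ 2) := by
    unfold Wh w0 en
    congr 1
    ext t
    rw [Complex.ofReal_exp, mul_comm]
    congr 2
    · push_cast; ring
    · push_cast; ring
  rw [e1, h]
  have e2 : ((Real.pi : ℂ) / ((1 / T ^ 2 : ℝ) : ℂ)) ^ (1 / 2 : ℂ) =
      ((Real.sqrt Real.pi * T : ℝ) : ℂ) := by
    rw [← Complex.ofReal_div, show ((1 : ℂ) / 2) = ((1 / 2 : ℝ) : ℂ) by push_cast; ring,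
      ← Complex.ofReal_cpow (by positivity), ← Real.sqrt_eq_rpow]
    congr 1
    rw [show Real.pi / (1 / T ^ 2) = Real.pi * T ^ 2 by field_simp, Real.sqrt_mul Real.pi_pos.le,
      Real.sqrt_sq hT.le]
  rw [e2]
  push_cast
  congr 2
  field_simp

/-- the transform of `w1` -/
noncomputable def W1 (T τ : ℝ) : ℝ :=
  Real.sqrt Real.pi * (2 * T * Real.exp (-(T * τ) ^ 2) - T * Real.exp (-(T * τ / 2) ^ 2))

theorem Wh_w1 (T τ : ℝ) (hT : 0 < T) : Wh (w1 T) τ = (W1 T τ : ℂ) := by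
  have e : Wh (w1 T) τ = Wh (w0 (2 * T)) τ - Wh (w0 T) τ := by
    unfold Wh
    rw [← integral_sub]
    · congr 1
      ext t
      unfold w1
      push_cast
      ring
    · have := en_bdd (φ := fun t => τ * t) (by fun_prop)
        ((w0_integrable (2 * T) (by positivity)).ofReal (𝕜 := ℂ))
      refine this.congr (Eventually.of_forall fun t => ?_)
      simp only
      rw [mul_comm]; rfl
    · have := en_bdd (φ := fun t => τ * t) (by fun_prop)
        ((w0_integrable T hT).ofReal (𝕜 := ℂ))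
      refine this.congr (Eventually.of_forall fun t => ?_)
      simp only
      rw [mul_comm]; rfl
  rw [e, Wh_w0 _ _ (by positivity), Wh_w0 _ _ hT, ← Complex.ofReal_sub]
  congr 1
  unfold W1
  rw [show -((2 * T) ^ 2 * τ ^ 2 / 4) = -(T * τ) ^ 2 by ring,
    show -(T ^ 2 * τ ^ 2 / 4) = -(T * τ / 2) ^ 2 by ring]
  ring

/-- antiderivative of `W1` -/
noncomputable def V1 (T τ : ℝ) : ℝ :=
  2 * Real.sqrt Real.pi * ∫ r in (T * τ / 2)..(T * τ), Real.exp (-r ^ 2)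

theorem V1_deriv (T τ : ℝ) : HasDerivAt (V1 T) (W1 T τ) τ := by
  have hc : Continuous fun r : ℝ => Real.exp (-r ^ 2) := by fun_prop
  have hd : ∀ x : ℝ, HasDerivAt (fun u => ∫ r in (0 : ℝ)..u, Real.exp (-r ^ 2))
      (Real.exp (-x ^ 2)) x := fun x =>
    intervalIntegral.integral_hasDerivAt_right (hc.intervalIntegrable _ _)
      hc.stronglyMeasurable.stronglyMeasurableAtFilter hc.continuousAt
  have h1 : HasDerivAt (fun τ => ∫ r in (0 : ℝ)..(T * τ), Real.exp (-r ^ 2))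
      (Real.exp (-(T * τ) ^ 2) * T) τ := by
    have := HasDerivAt.comp (h₂ := fun u => ∫ r in (0 : ℝ)..u, Real.exp (-r ^ 2))
      (h := fun τ : ℝ => T * τ) τ (hd (T * τ)) ((hasDerivAt_id τ).const_mul T)
    rw [mul_one] at this
    exact this
  have h2 : HasDerivAt (fun τ => ∫ r in (0 : ℝ)..(T * τ / 2), Real.exp (-r ^ 2))
      (Real.exp (-(T * τ / 2) ^ 2) * (T / 2)) τ := by
    have := HasDerivAt.comp (h₂ := fun u => ∫ r in (0 : ℝ)..u, Real.exp (-r ^ 2))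
      (h := fun τ : ℝ => T * τ / 2) τ (hd (T * τ / 2))
      (((hasDerivAt_id τ).const_mul T).div_const 2)
    rw [mul_one] at this
    exact this
  have h3 := (h1.sub h2).const_mul (2 * Real.sqrt Real.pi)
  have e1 : V1 T = fun τ => 2 * Real.sqrt Real.pi *
      ((∫ r in (0 : ℝ)..(T * τ), Real.exp (-r ^ 2)) - ∫ r in (0 : ℝ)..(T * τ / 2), Real.exp (-r ^ 2)) := by
    ext τ
    unfold V1
    rw [intervalIntegral.integral_interval_sub_left (hc.intervalIntegrable _ _)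
      (hc.intervalIntegrable _ _)]
  rw [e1]
  refine h3.congr_deriv ?_
  unfold W1
  ring

theorem sqrtpi : Real.sqrt Real.pi ≤ 1.8 := by
  rw [Real.sqrt_le_left (by norm_num)]
  have := Real.pi_lt_d2
  norm_num at this ⊢
  linarith

theorem xexp (x : ℝ) : x * Real.exp (-(x ^ 2 / 4)) ≤ 2 * Real.exp (-(x ^ 2 / 8)) := by
  have h1 : x / 2 ≤ Real.exp (x ^ 2 / 8) := by
    have := Real.add_one_le_exp (x ^ 2 / 8)
    nlinarith [sq_nonneg (x - 2)]
  have h2 : Real.exp (-(x ^ 2 / 8)) = Real.exp (x ^ 2 / 8) * Real.exp (-(x ^ 2 / 4)) := by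
    rw [← Real.exp_add]
    congr 1
    ring
  rw [h2]
  nlinarith [Real.exp_pos (-(x ^ 2 / 4))]

theorem V1_bound (T τ : ℝ) : |V1 T τ| ≤ 4 * Real.exp (-((T * τ) ^ 2 / 8)) := by
  have h1 : ‖∫ r in (T * τ / 2)..(T * τ), Real.exp (-r ^ 2)‖ ≤
      Real.exp (-((T * τ) ^ 2 / 4)) * |T * τ - T * τ / 2| := by
    apply intervalIntegral.norm_integral_le_of_norm_le_const
    intro r hr
    rw [Real.norm_of_nonneg (Real.exp_pos _).le, Real.exp_le_exp, neg_le_neg_iff]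
    rcases le_total 0 (T * τ) with h | h
    · rw [uIoc_of_le (by linarith)] at hr
      have := hr.1
      nlinarith
    · rw [uIoc_of_ge (by linarith)] at hr
      have := hr.2
      nlinarith
  have h2 : |T * τ - T * τ / 2| = |T * τ| / 2 := by
    rw [show T * τ - T * τ / 2 = T * τ / 2 by ring, abs_div, abs_two]
  rw [h2, Real.norm_eq_abs] at h1
  have h3 := xexp |T * τ|
  rw [sq_abs] at h3
  unfold V1
  rw [abs_mul, abs_of_nonneg (by positivity : (0:ℝ) ≤ 2 * Real.sqrt Real.pi)]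
  have h4 := sqrtpi
  have h5 : 0 ≤ Real.sqrt Real.pi := Real.sqrt_nonneg _
  have h6 : 0 < Real.exp (-((T * τ) ^ 2 / 8)) := Real.exp_pos _
  calc 2 * Real.sqrt Real.pi * |∫ r in (T * τ / 2)..(T * τ), Real.exp (-r ^ 2)|
      ≤ 2 * Real.sqrt Real.pi * (Real.exp (-((T * τ) ^ 2 / 4)) * (|T * τ| / 2)) := by gcongr
    _ = Real.sqrt Real.pi * (|T * τ| * Real.exp (-((T * τ) ^ 2 / 4))) := by ring
    _ ≤ Real.sqrt Real.pi * (2 * Real.exp (-((T * τ) ^ 2 / 8))) := by gcongr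
    _ ≤ _ := by nlinarith

theorem W1_bound (T τ : ℝ) (hT : 0 < T) : |W1 T τ| ≤ 6 * T * Real.exp (-((T * τ) ^ 2 / 8)) := by
  have h1 : Real.exp (-(T * τ) ^ 2) ≤ Real.exp (-((T * τ) ^ 2 / 8)) := by
    rw [Real.exp_le_exp]; nlinarith [sq_nonneg (T * τ)]
  have h2 : Real.exp (-(T * τ / 2) ^ 2) ≤ Real.exp (-((T * τ) ^ 2 / 8)) := by
    rw [Real.exp_le_exp]; nlinarith [sq_nonneg (T * τ)]
  have h4 := sqrtpi
  have h5 : 0 ≤ Real.sqrt Real.pi := Real.sqrt_nonneg _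
  have h6 : 0 < Real.exp (-((T * τ) ^ 2 / 8)) := Real.exp_pos _
  have h7 : 0 < Real.exp (-(T * τ) ^ 2) := Real.exp_pos _
  have h8 : 0 < Real.exp (-(T * τ / 2) ^ 2) := Real.exp_pos _
  unfold W1
  rw [abs_mul, abs_of_nonneg h5]
  have h9 : |2 * T * Real.exp (-(T * τ) ^ 2) - T * Real.exp (-(T * τ / 2) ^ 2)| ≤
      3 * T * Real.exp (-((T * τ) ^ 2 / 8)) := by
    rw [abs_le]
    constructor
    · nlinarith [mul_pos hT h7, mul_pos hT h8, mul_pos hT h6, mul_le_mul_of_nonneg_left h2 hT.le]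
    · nlinarith [mul_pos hT h7, mul_pos hT h8, mul_pos hT h6, mul_le_mul_of_nonneg_left h1 hT.le]
  calc Real.sqrt Real.pi * |2 * T * Real.exp (-(T * τ) ^ 2) - T * Real.exp (-(T * τ / 2) ^ 2)|
      ≤ 1.8 * (3 * T * Real.exp (-((T * τ) ^ 2 / 8))) := by gcongr
    _ ≤ _ := by nlinarith [mul_pos hT h6]

theorem Wh_w1_bound (T τ : ℝ) (hT : 0 < T) :
    ‖Wh (w1 T) τ‖ ≤ 6 * T * Real.exp (-((T * τ) ^ 2 / 8)) := by
  rw [Wh_w1 T τ hT, Complex.norm_real, Real.norm_eq_abs]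
  exact W1_bound T τ hT

theorem Wh_w0_bound (T τ : ℝ) (hT : 0 < T) :
    ‖Wh (w0 T) τ‖ ≤ 6 * T * Real.exp (-((T * τ) ^ 2 / 8)) := by
  rw [Wh_w0 T τ hT, Complex.norm_real, Real.norm_of_nonneg (by positivity)]
  have h2 : Real.exp (-(T ^ 2 * τ ^ 2 / 4)) ≤ Real.exp (-((T * τ) ^ 2 / 8)) := by
    rw [Real.exp_le_exp]; nlinarith [sq_nonneg (T * τ)]
  have h4 := sqrtpi
  have h5 : 0 ≤ Real.sqrt Real.pi := Real.sqrt_nonneg _
  have h6 : 0 < Real.exp (-((T * τ) ^ 2 / 8)) := Real.exp_pos _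
  calc Real.sqrt Real.pi * T * Real.exp (-(T ^ 2 * τ ^ 2 / 4))
      ≤ 1.8 * T * Real.exp (-((T * τ) ^ 2 / 8)) := by gcongr
    _ ≤ _ := by nlinarith [mul_pos hT h6]

end Pool.Agent.J4.H73.EX
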